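import Mathlib

set_option autoImplicit false

open Set

namespace Pool.Agent.K6.helper20.DM

/-- `P(t) = (1-t)^κ + (1+t)^κ` -/
noncomputable def Pf (κ t : ℝ) : ℝ := (1 - t) ^ κ + (1 + t) ^ κ
/-- `D(t) = (1-t)^(κ-1) - (1+t)^(κ-1)` -/
noncomputable def Df (κ t : ℝ) : ℝ := (1 - t) ^ (κ - 1) - (1 + t) ^ (κ - 1)
/-- derivative of `D` -/
noncomputable def Dd (κ t : ℝ) : ℝ := (1 - κ) * ((1 - t) ^ (κ - 2) + (1 + t) ^ (κ - 2))
/-- `Y = 1 + δ P` -/
noncomputable def Yf (δ κ t : ℝ) : ℝ := 1 + δ * Pf κ t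
/-- `η = κ D / Y` -/
noncomputable def eta (δ κ t : ℝ) : ℝ := κ * Df κ t / Yf δ κ t
/-- `e = κ D' / Y` -/
noncomputable def ee (δ κ t : ℝ) : ℝ := κ * Dd κ t / Yf δ κ t

section

variable {δ κ t : ℝ}

lemma Pf_nonneg (ht : t ∈ Ioo (-1 : ℝ) 1) : 0 < Pf κ t := by
  have h1 : 0 < 1 - t := by linarith [ht.2]
  have h2 : 0 < 1 + t := by linarith [ht.1]
  unfold Pf
  positivity

lemma Yf_ge_one (hδ : 0 < δ) (ht : t ∈ Ioo (-1 : ℝ) 1) : 1 ≤ Yf δ κ t := by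
  have := Pf_nonneg (κ := κ) ht
  unfold Yf
  nlinarith

lemma Pf_le (hκ0 : 0 < κ) (hκ1 : κ < 1) (ht : t ∈ Icc (-1 : ℝ) 1) : Pf κ t ≤ 4 := by
  have h1 : 0 ≤ 1 - t := by linarith [ht.2]
  have h2 : 0 ≤ 1 + t := by linarith [ht.1]
  have key : ∀ x : ℝ, 0 ≤ x → x ≤ 2 → x ^ κ ≤ 2 := by
    intro x hx hx2
    calc x ^ κ ≤ 2 ^ κ := Real.rpow_le_rpow hx hx2 hκ0.le
      _ ≤ 2 ^ (1 : ℝ) := Real.rpow_le_rpow_of_exponent_le (by norm_num) hκ1.le
      _ = 2 := by norm_num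
  unfold Pf
  have a1 := key (1 - t) h1 (by linarith [ht.1])
  have a2 := key (1 + t) h2 (by linarith [ht.2])
  linarith

lemma Yf_le (hδ : 0 < δ) (hκ0 : 0 < κ) (hκ1 : κ < 1) (ht : t ∈ Icc (-1 : ℝ) 1) :
    Yf δ κ t ≤ 1 + 4 * δ := by
  have := Pf_le hκ0 hκ1 ht
  unfold Yf
  nlinarith

lemma hasDerivAt_Pf (ht : t ∈ Ioo (-1 : ℝ) 1) : HasDerivAt (Pf κ) (-(κ * Df κ t)) t := by
  have h1 : 0 < 1 - t := by linarith [ht.2]
  have h2 : 0 < 1 + t := by linarith [ht.1]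
  have d1 : HasDerivAt (fun t : ℝ => (1 - t) ^ κ) (-1 * κ * (1 - t) ^ (κ - 1)) t := by
    have := (hasDerivAt_id t).const_sub 1
    exact this.rpow_const (p := κ) (Or.inl h1.ne')
  have d2 : HasDerivAt (fun t : ℝ => (1 + t) ^ κ) (1 * κ * (1 + t) ^ (κ - 1)) t := by
    have := (hasDerivAt_id t).const_add 1
    exact this.rpow_const (p := κ) (Or.inl h2.ne')
  have := d1.add d2
  unfold Pf Df
  convert! this using 1
  ring

lemma hasDerivAt_Df (ht : t ∈ Ioo (-1 : ℝ) 1) : HasDerivAt (Df κ) (Dd κ t) t := by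
  have h1 : 0 < 1 - t := by linarith [ht.2]
  have h2 : 0 < 1 + t := by linarith [ht.1]
  have d1 : HasDerivAt (fun t : ℝ => (1 - t) ^ (κ - 1)) (-1 * (κ - 1) * (1 - t) ^ (κ - 1 - 1)) t := by
    have := (hasDerivAt_id t).const_sub 1
    exact this.rpow_const (p := κ - 1) (Or.inl h1.ne')
  have d2 : HasDerivAt (fun t : ℝ => (1 + t) ^ (κ - 1)) (1 * (κ - 1) * (1 + t) ^ (κ - 1 - 1)) t := by
    have := (hasDerivAt_id t).const_add 1
    exact this.rpow_const (p := κ - 1) (Or.inl h2.ne')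
  have := d1.sub d2
  unfold Df Dd
  have e : κ - 1 - 1 = κ - 2 := by ring
  rw [e] at this
  convert! this using 1
  ring

lemma hasDerivAt_Yf (ht : t ∈ Ioo (-1 : ℝ) 1) :
    HasDerivAt (Yf δ κ) (-(δ * (κ * Df κ t))) t := by
  have := ((hasDerivAt_Pf (κ := κ) ht).const_mul δ).const_add 1
  unfold Yf
  convert! this using 1
  ring

lemma hasDerivAt_eta (hδ : 0 < δ) (ht : t ∈ Ioo (-1 : ℝ) 1) :
    HasDerivAt (eta δ κ) (ee δ κ t + δ * eta δ κ t ^ 2) t := by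
  have hY : Yf δ κ t ≠ 0 := by linarith [Yf_ge_one (κ := κ) hδ ht]
  have := ((hasDerivAt_Df (κ := κ) ht).const_mul κ).div (hasDerivAt_Yf (δ := δ) (κ := κ) ht) hY
  unfold ee eta
  convert! this using 1
  field_simp
  ring

lemma Dd_pos (hκ1 : κ < 1) (ht : t ∈ Ioo (-1 : ℝ) 1) : 0 < Dd κ t := by
  have h1 : 0 < 1 - t := by linarith [ht.2]
  have h2 : 0 < 1 + t := by linarith [ht.1]
  have h3 : 0 < 1 - κ := by linarith
  unfold Dd
  positivity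

lemma ee_pos (hδ : 0 < δ) (hκ0 : 0 < κ) (hκ1 : κ < 1) (ht : t ∈ Ioo (-1 : ℝ) 1) :
    0 < ee δ κ t := by
  have h1 := Dd_pos hκ1 ht
  have h2 := Yf_ge_one (κ := κ) hδ ht
  unfold ee
  positivity

lemma Df_strictMono (hκ1 : κ < 1) : StrictMonoOn (Df κ) (Ioo (-1 : ℝ) 1) := by
  refine strictMonoOn_of_deriv_pos (convex_Ioo _ _) ?_ ?_
  · intro t ht
    exact (hasDerivAt_Df ht).continuousAt.continuousWithinAt
  · intro t ht
    rw [interior_Ioo] at ht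
    rw [(hasDerivAt_Df ht).deriv]
    exact Dd_pos hκ1 ht

lemma eta_strictMono (hδ : 0 < δ) (hκ0 : 0 < κ) (hκ1 : κ < 1) :
    StrictMonoOn (eta δ κ) (Ioo (-1 : ℝ) 1) := by
  refine strictMonoOn_of_deriv_pos (convex_Ioo _ _) ?_ ?_
  · intro t ht
    exact (hasDerivAt_eta hδ ht).continuousAt.continuousWithinAt
  · intro t ht
    rw [interior_Ioo] at ht
    rw [(hasDerivAt_eta hδ ht).deriv]
    have := ee_pos hδ hκ0 hκ1 ht
    positivity

lemma Df_neg (t : ℝ) : Df κ (-t) = - Df κ t := by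
  unfold Df
  rw [show 1 - -t = 1 + t by ring, show 1 + -t = 1 - t by ring]
  ring

lemma Pf_neg (t : ℝ) : Pf κ (-t) = Pf κ t := by
  unfold Pf
  rw [show 1 - -t = 1 + t by ring, show 1 + -t = 1 - t by ring]
  ring

lemma Yf_neg (t : ℝ) : Yf δ κ (-t) = Yf δ κ t := by
  unfold Yf; rw [Pf_neg]

lemma eta_neg (t : ℝ) : eta δ κ (-t) = - eta δ κ t := by
  unfold eta; rw [Df_neg, Yf_neg]; ring

lemma eta_zero : eta δ κ 0 = 0 := by
  unfold eta Df; simp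

/-- the tangent line inequality for `x ^ κ` -/
lemma rpow_tangent (hκ0 : 0 < κ) (hκ1 : κ < 1) {x x0 : ℝ} (hx : 0 ≤ x) (hx0 : 0 < x0) :
    x ^ κ ≤ x0 ^ κ + κ * x0 ^ (κ - 1) * (x - x0) := by
  have h := rpow_one_add_le_one_add_mul_self (s := (x - x0) / x0) (by
    rw [le_div_iff₀ hx0]; linarith) hκ0.le hκ1.le
  have e1 : 1 + (x - x0) / x0 = x / x0 := by field_simp; ring
  rw [e1, Real.div_rpow hx hx0.le] at h
  have hp : 0 < x0 ^ κ := Real.rpow_pos_of_pos hx0 _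
  rw [div_le_iff₀ hp] at h
  have e2 : x0 ^ (κ - 1) = x0 ^ κ / x0 := by rw [Real.rpow_sub hx0, Real.rpow_one]
  rw [e2]
  calc x ^ κ ≤ (1 + κ * ((x - x0) / x0)) * x0 ^ κ := h
    _ = x0 ^ κ + κ * (x0 ^ κ / x0) * (x - x0) := by field_simp

lemma Yf_tangent (hδ : 0 < δ) (hκ0 : 0 < κ) (hκ1 : κ < 1) {t t' : ℝ} (ht : t ∈ Icc (-1 : ℝ) 1)
    (ht' : t' ∈ Ioo (-1 : ℝ) 1) : Yf δ κ t ≤ Yf δ κ t' - δ * (κ * Df κ t') * (t - t') := by
  have a1 := rpow_tangent hκ0 hκ1 (x := 1 - t) (x0 := 1 - t') (by linarith [ht.2])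
    (by linarith [ht'.2])
  have a2 := rpow_tangent hκ0 hκ1 (x := 1 + t) (x0 := 1 + t') (by linarith [ht.1])
    (by linarith [ht'.1])
  unfold Yf Pf Df
  have : (1 - t) ^ κ + (1 + t) ^ κ ≤ (1 - t') ^ κ + (1 + t') ^ κ -
      κ * ((1 - t') ^ (κ - 1) - (1 + t') ^ (κ - 1)) * (t - t') := by
    linarith
  have h2 := mul_le_mul_of_nonneg_left this hδ.le
  linarith

lemma Df_pos (hκ1 : κ < 1) (ht : t ∈ Ioo (0 : ℝ) 1) : 0 < Df κ t := by
  have h0 : Df κ 0 = 0 := by unfold Df; simp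
  rw [← h0]
  exact Df_strictMono hκ1 ⟨by norm_num, by norm_num⟩ ⟨by linarith [ht.1], ht.2⟩ ht.1

lemma eta_pos (hδ : 0 < δ) (hκ0 : 0 < κ) (hκ1 : κ < 1) (ht : t ∈ Ioo (0 : ℝ) 1) :
    0 < eta δ κ t := by
  have h1 := Df_pos hκ1 ht
  have h2 := Yf_ge_one (κ := κ) hδ (t := t) ⟨by linarith [ht.1], ht.2⟩
  unfold eta
  positivity

/-- `1/η + δ t` is nonincreasing on `(0,1)` -/
lemma eta_H (hδ : 0 < δ) (hκ0 : 0 < κ) (hκ1 : κ < 1) {t t' : ℝ} (ht' : 0 < t') (htt : t' < t)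
    (ht : t < 1) : δ * (t - t') ≤ 1 / eta δ κ t' - 1 / eta δ κ t := by
  have h1 := Df_pos hκ1 (t := t) ⟨ht'.trans htt, ht⟩
  have h2 := Df_pos hκ1 (t := t') ⟨ht', htt.trans ht⟩
  have hmono := (Df_strictMono hκ1 (κ := κ) (a := t') (b := t) ⟨by linarith, by linarith⟩
    ⟨by linarith, ht⟩ htt).le
  have hY := Yf_tangent hδ hκ0 hκ1 (t := t) (t' := t') ⟨by linarith, ht.le⟩ ⟨by linarith, by linarith⟩
  have hY1 := Yf_ge_one (κ := κ) hδ (t := t) ⟨by linarith, ht⟩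
  unfold eta
  rw [one_div_div, one_div_div]
  have hA : 0 < κ * Df κ t' := by positivity
  have hB : 0 < κ * Df κ t := by positivity
  have e1 : Yf δ κ t / (κ * Df κ t) ≤ Yf δ κ t / (κ * Df κ t') := by
    apply div_le_div_of_nonneg_left (by linarith) hA
    exact mul_le_mul_of_nonneg_left hmono hκ0.le
  have e2 : Yf δ κ t / (κ * Df κ t') ≤ Yf δ κ t' / (κ * Df κ t') - δ * (t - t') := by
    rw [div_le_iff₀ hA, sub_mul, div_mul_cancel₀ _ hA.ne']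
    linarith
  linarith

/-- comparison with powers of `s = 1 - |t|` -/
lemma Dd_bounds (hκ1 : κ < 1) (ht : t ∈ Ioo (-1 : ℝ) 1) :
    (1 - κ) * (1 - |t|) ^ (κ - 2) ≤ Dd κ t ∧ Dd κ t ≤ 2 * (1 - κ) * (1 - |t|) ^ (κ - 2) := by
  have h3 : 0 < 1 - κ := by linarith
  have main : ∀ t : ℝ, 0 ≤ t → t < 1 → (1 - κ) * (1 - t) ^ (κ - 2) ≤ Dd κ t ∧
      Dd κ t ≤ 2 * (1 - κ) * (1 - t) ^ (κ - 2) := by
    intro t h0 h1
    have h4 : 0 < 1 - t := by linarith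
    have h5 : 0 < 1 + t := by linarith
    have h6 : (1 + t) ^ (κ - 2) ≤ (1 - t) ^ (κ - 2) :=
      Real.rpow_le_rpow_of_nonpos h4 (by linarith) (by linarith)
    have h7 : 0 < (1 + t) ^ (κ - 2) := by positivity
    unfold Dd
    constructor <;> nlinarith
  rcases le_total 0 t with h | h
  · rw [abs_of_nonneg h]
    exact main t h ht.2
  · rw [abs_of_nonpos h]
    have := main (-t) (by linarith) (by linarith [ht.1])
    have e : Dd κ (-t) = Dd κ t := by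
      unfold Dd
      rw [show 1 - -t = 1 + t by ring, show 1 + -t = 1 - t by ring]; ring
    rw [e] at this
    exact this

lemma Df_bounds (hκ1 : κ < 1) (ht : t ∈ Ioo (-1 : ℝ) 1) :
    1 / 2 * (1 - |t|) ^ (2 * (κ - 1)) ≤ 1 + Df κ t ^ 2 ∧
      1 + Df κ t ^ 2 ≤ 2 * (1 - |t|) ^ (2 * (κ - 1)) := by
  have main : ∀ t : ℝ, 0 ≤ t → t < 1 → 1 / 2 * (1 - t) ^ (2 * (κ - 1)) ≤ 1 + Df κ t ^ 2 ∧
      1 + Df κ t ^ 2 ≤ 2 * (1 - t) ^ (2 * (κ - 1)) := by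
    intro t h0 h1
    have h4 : 0 < 1 - t := by linarith
    have h5 : 0 < 1 + t := by linarith
    have e : (1 - t) ^ (2 * (κ - 1)) = ((1 - t) ^ (κ - 1)) ^ 2 := by
      rw [mul_comm, Real.rpow_mul h4.le]; norm_cast
    rw [e]
    have h6 : (1 + t) ^ (κ - 1) ≤ 1 := Real.rpow_le_one_of_one_le_of_nonpos (by linarith) (by linarith)
    have h7 : 0 < (1 + t) ^ (κ - 1) := by positivity
    have h8 : 1 ≤ (1 - t) ^ (κ - 1) := Real.one_le_rpow_of_pos_of_le_one_of_nonpos h4 (by linarith) (by linarith)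
    unfold Df
    set x := (1 - t) ^ (κ - 1)
    set y := (1 + t) ^ (κ - 1)
    constructor
    · nlinarith [sq_nonneg (x - y - 1)]
    · nlinarith
  rcases le_total 0 t with h | h
  · rw [abs_of_nonneg h]
    exact main t h ht.2
  · rw [abs_of_nonpos h]
    have := main (-t) (by linarith) (by linarith [ht.1])
    rw [Df_neg, neg_sq] at this
    exact this

lemma eta_surj (hδ : 0 < δ) (hκ0 : 0 < κ) (hκ1 : κ < 1) (A : ℝ) :
    ∃ t ∈ Ioo (-1 : ℝ) 1, eta δ κ t = A := by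
  have main : ∀ A : ℝ, 0 ≤ A → ∃ t ∈ Ioo (-1 : ℝ) 1, eta δ κ t = A := by
    intro A hA
    -- choose `s` small
    set B : ℝ := A * (1 + 4 * δ) / κ + 1 with hB
    have hB1 : 1 ≤ B := by
      rw [hB]
      have : 0 ≤ A * (1 + 4 * δ) / κ := by positivity
      linarith
    have hk : κ - 1 < 0 := by linarith
    set s : ℝ := B ^ (1 / (κ - 1)) with hs
    have hs0 : 0 < s := by positivity
    have hs1 : s ≤ 1 := Real.rpow_le_one_of_one_le_of_nonpos hB1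
      (div_nonpos_of_nonneg_of_nonpos zero_le_one hk.le)
    have hsB : s ^ (κ - 1) = B := by
      rw [hs, ← Real.rpow_mul (by linarith), one_div, inv_mul_cancel₀ hk.ne, Real.rpow_one]
    set t1 : ℝ := 1 - s / 2 with ht1
    have ht1m : t1 ∈ Ioo (-1 : ℝ) 1 := ⟨by rw [ht1]; linarith, by rw [ht1]; linarith⟩
    have hge : A ≤ eta δ κ t1 := by
      have h1 : (1 + t1) ^ (κ - 1) ≤ 1 :=
        Real.rpow_le_one_of_one_le_of_nonpos (by rw [ht1]; linarith) hk.le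
      have h2 : B ≤ (1 - t1) ^ (κ - 1) := by
        rw [← hsB]
        apply Real.rpow_le_rpow_of_nonpos (by rw [ht1]; linarith) (by rw [ht1]; linarith) hk.le
      have h3 : A * (1 + 4 * δ) / κ ≤ Df κ t1 := by
        unfold Df; linarith
      have h4 := Yf_le hδ hκ0 hκ1 (t := t1) ⟨ht1m.1.le, ht1m.2.le⟩
      have h5 := Yf_ge_one (κ := κ) hδ ht1m
      unfold eta
      rw [le_div_iff₀ (by linarith)]
      rw [div_le_iff₀ hκ0] at h3
      calc A * Yf δ κ t1 ≤ A * (1 + 4 * δ) := mul_le_mul_of_nonneg_left h4 hA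
        _ ≤ Df κ t1 * κ := h3
        _ = κ * Df κ t1 := mul_comm _ _
    have hcont : ContinuousOn (eta δ κ) (Icc 0 t1) := by
      intro t ht
      exact (hasDerivAt_eta hδ ⟨by linarith [ht.1], lt_of_le_of_lt ht.2 ht1m.2⟩).continuousAt.continuousWithinAt
    have hsub := intermediate_value_Icc (show (0:ℝ) ≤ t1 by rw [ht1]; linarith) hcont
    obtain ⟨t, ht, hte⟩ := hsub ⟨by rw [eta_zero]; exact hA, hge⟩
    exact ⟨t, ⟨by linarith [ht.1], lt_of_le_of_lt ht.2 ht1m.2⟩, hte⟩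
  rcases le_total 0 A with h | h
  · exact main A h
  · obtain ⟨t, ht, hte⟩ := main (-A) (by linarith)
    exact ⟨-t, ⟨by linarith [ht.2], by linarith [ht.1]⟩, by rw [eta_neg, hte]; ring⟩

/-- a continuous inverse of `η` -/
lemma exists_inverse (hδ : 0 < δ) (hκ0 : 0 < κ) (hκ1 : κ < 1) :
    ∃ Λ : ℝ → ℝ, Continuous Λ ∧ (∀ c, Λ c ∈ Ioo (-1 : ℝ) 1) ∧ ∀ c, eta δ κ (Λ c) = c := by
  have hmono : StrictMono (fun t : Ioo (-1 : ℝ) 1 => eta δ κ t) := fun a b hab =>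
    eta_strictMono hδ hκ0 hκ1 a.2 b.2 hab
  have hsurj : Function.Surjective (fun t : Ioo (-1 : ℝ) 1 => eta δ κ t) := by
    intro A
    obtain ⟨t, ht, hte⟩ := eta_surj hδ hκ0 hκ1 A
    exact ⟨⟨t, ht⟩, hte⟩
  let e := hmono.orderIsoOfSurjective _ hsurj
  refine ⟨fun c => (e.symm c : ℝ), continuous_subtype_val.comp e.symm.continuous,
    fun c => (e.symm c).2, fun c => ?_⟩
  have : e (e.symm c) = c := e.apply_symm_apply c
  exact this

end

end Pool.Agent.K6.helper20.DM
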