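import Pool.Agent.K6.helper20.DM.A

set_option autoImplicit false

open Set MeasureTheory
open scoped ENNReal

namespace Pool.Agent.K6.helper20.DM

/-- second coordinate of the planar map -/
noncomputable def Cc (δ κ b a t : ℝ) : ℝ := eta δ κ t * (a + b ^ 2 / a)
/-- first coordinate of the planar map -/
noncomputable def Ac (δ κ β b a t : ℝ) : ℝ := (β - 1) * a - b ^ 2 / a - δ * t * Cc δ κ b a t
/-- the planar map -/
noncomputable def Phi (δ κ β b : ℝ) (x : ℝ × ℝ) : ℝ × ℝ := (Ac δ κ β b x.1 x.2, Cc δ κ b x.1 x.2)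
/-- the Jacobian -/
noncomputable def Jac (δ κ β b a t : ℝ) : ℝ :=
  a * (1 + (b / a) ^ 2) * ((β - 1 + (b / a) ^ 2) * ee δ κ t + δ * β * eta δ κ t ^ 2)

section

variable {δ κ β b : ℝ}

lemma Ac_neg (a t : ℝ) : Ac δ κ β b a (-t) = Ac δ κ β b a t := by
  unfold Ac Cc; rw [eta_neg]; ring

lemma Cc_neg (a t : ℝ) : Cc δ κ b a (-t) = - Cc δ κ b a t := by
  unfold Cc; rw [eta_neg]; ring

lemma inj_aux (hδ : 0 < δ) (hκ0 : 0 < κ) (hκ1 : κ < 1) (hβ : 1 < β) {a a' t t' : ℝ}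
    (ha' : 0 < a') (haa : a' < a) (ht : t ∈ Ioo (-1 : ℝ) 1)
    (ht' : t' ∈ Ioo (-1 : ℝ) 1) (hA : Ac δ κ β b a t = Ac δ κ β b a' t')
    (hC : Cc δ κ b a t = Cc δ κ b a' t') : False := by
  have main : ∀ t t' : ℝ, t ∈ Ioo (-1 : ℝ) 1 → t' ∈ Ioo (-1 : ℝ) 1 →
      Ac δ κ β b a t = Ac δ κ β b a' t' → Cc δ κ b a t = Cc δ κ b a' t' →
      0 ≤ Cc δ κ b a t → False := by
    intro t t' ht ht' hA hC hC0
    have ha : 0 < a := ha'.trans haa
    have e1 : δ * (t - t') * Cc δ κ b a t = (a - a') * ((β - 1) + b ^ 2 / (a * a')) := by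
      unfold Ac at hA
      rw [← hC] at hA
      have : (a - a') * ((β - 1) + b ^ 2 / (a * a')) =
          (β - 1) * a - b ^ 2 / a - ((β - 1) * a' - b ^ 2 / a') := by
        field_simp
        ring
      rw [this]
      linarith
    have e2 : 0 < (a - a') * ((β - 1) + b ^ 2 / (a * a')) := by
      apply mul_pos (by linarith)
      have : 0 ≤ b ^ 2 / (a * a') := by positivity
      linarith
    have hCpos : 0 < Cc δ κ b a t := by
      rcases hC0.lt_or_eq with h | h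
      · exact h
      · rw [← h, mul_zero] at e1
        linarith
    have htt : t' < t := by
      have : 0 < δ * (t - t') * Cc δ κ b a t := by rw [e1]; exact e2
      have h2 : 0 < δ * (t - t') := by
        by_contra hcon
        push Not at hcon
        nlinarith
      have h3 : 0 < t - t' := by
        by_contra hcon
        push Not at hcon
        nlinarith
      linarith
    have hp : 0 < a + b ^ 2 / a := by positivity
    have hp' : 0 < a' + b ^ 2 / a' := by positivity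
    have hη : 0 < eta δ κ t := by
      unfold Cc at hCpos
      exact (mul_pos_iff_of_pos_right hp).1 hCpos
    have hη' : 0 < eta δ κ t' := by
      rw [hC] at hCpos
      unfold Cc at hCpos
      exact (mul_pos_iff_of_pos_right hp').1 hCpos
    have ht0' : 0 < t' := by
      by_contra hcon
      push Not at hcon
      have : eta δ κ t' ≤ eta δ κ 0 :=
        (eta_strictMono hδ hκ0 hκ1).monotoneOn ht' ⟨by norm_num, by norm_num⟩ hcon
      rw [eta_zero] at this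
      linarith
    have hH := eta_H hδ hκ0 hκ1 ht0' htt ht.2
    have h1 : Cc δ κ b a t * (1 / eta δ κ t) = a + b ^ 2 / a := by
      unfold Cc; field_simp
    have h2 : Cc δ κ b a t * (1 / eta δ κ t') = a' + b ^ 2 / a' := by
      rw [hC]; unfold Cc; field_simp
    have h3 : Cc δ κ b a t * (δ * (t - t')) ≤ a' + b ^ 2 / a' - (a + b ^ 2 / a) := by
      rw [← h1, ← h2, ← mul_sub]
      exact mul_le_mul_of_nonneg_left hH hC0
    have h4 : a' + b ^ 2 / a' - (a + b ^ 2 / a) = (a - a') * (b ^ 2 / (a * a') - 1) := by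
      field_simp
      ring
    have h5 : (a - a') * ((β - 1) + b ^ 2 / (a * a')) ≤ (a - a') * (b ^ 2 / (a * a') - 1) := by
      rw [← e1, ← h4]
      linarith
    have h6 := le_of_mul_le_mul_left h5 (by linarith)
    linarith
  rcases le_total 0 (Cc δ κ b a t) with h | h
  · exact main t t' ht ht' hA hC h
  · refine main (-t) (-t') ⟨by linarith [ht.2], by linarith [ht.1]⟩
      ⟨by linarith [ht'.2], by linarith [ht'.1]⟩ ?_ ?_ ?_
    · rw [Ac_neg, Ac_neg, hA]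
    · rw [Cc_neg, Cc_neg, hC]
    · rw [Cc_neg]; linarith

lemma Phi_injOn (hδ : 0 < δ) (hκ0 : 0 < κ) (hκ1 : κ < 1) (hβ : 1 < β) :
    InjOn (Phi δ κ β b) (Ioi (0 : ℝ) ×ˢ Ioo (-1 : ℝ) 1) := by
  rintro ⟨a, t⟩ ⟨ha, ht⟩ ⟨a', t'⟩ ⟨ha', ht'⟩ h
  simp only [Phi, Prod.mk.injEq] at h
  simp only [mem_Ioi] at ha ha'
  obtain ⟨hA, hC⟩ := h
  rcases lt_trichotomy a a' with h1 | h1 | h1
  · exact (inj_aux hδ hκ0 hκ1 hβ ha h1 ht' ht hA.symm hC.symm).elim
  · subst h1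
    simp only [Cc] at hC
    have hp : 0 < a + b ^ 2 / a := by positivity
    have h2 := mul_right_cancel₀ hp.ne' hC
    have h3 := (eta_strictMono hδ hκ0 hκ1).injOn ht ht' h2
    simp only at h3
    rw [h3]
  · exact (inj_aux hδ hκ0 hκ1 hβ ha' h1 ht ht' hA hC).elim

lemma Phi_surj (hδ : 0 < δ) (hκ0 : 0 < κ) (hκ1 : κ < 1) (hβ : 1 < β) (hb : 0 < b) :
    Phi δ κ β b '' (Ioi (0 : ℝ) ×ˢ Ioo (-1 : ℝ) 1) = univ := by
  obtain ⟨Λ, hΛc, hΛm, hΛe⟩ := exists_inverse (δ := δ) (κ := κ) hδ hκ0 hκ1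
  refine eq_univ_of_forall ?_
  rintro ⟨A, C⟩
  set f : ℝ → ℝ := fun a => (β - 1) * a - b ^ 2 / a - δ * (Λ (C / (a + b ^ 2 / a))) * C with hf
  have hcont : ContinuousOn f (Ioi 0) := by
    have h0 : ∀ a ∈ Ioi (0 : ℝ), a ≠ 0 := fun a ha => (mem_Ioi.1 ha).ne'
    have h1 : ∀ a ∈ Ioi (0 : ℝ), a + b ^ 2 / a ≠ 0 := by
      intro a ha
      have ha' : 0 < a := ha
      positivity
    have c1 : ContinuousOn (fun a : ℝ => b ^ 2 / a) (Ioi 0) :=
      continuousOn_const.div continuousOn_id h0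
    have c2 : ContinuousOn (fun a : ℝ => C / (a + b ^ 2 / a)) (Ioi 0) :=
      continuousOn_const.div (continuousOn_id.add c1) h1
    have c3 : ContinuousOn (fun a : ℝ => Λ (C / (a + b ^ 2 / a))) (Ioi 0) :=
      hΛc.comp_continuousOn c2
    exact ((continuousOn_const.mul continuousOn_id).sub c1).sub
      ((continuousOn_const.mul c3).mul continuousOn_const)
  have hΛabs : ∀ a, |δ * (Λ (C / (a + b ^ 2 / a))) * C| ≤ δ * |C| := by
    intro a
    rw [abs_mul, abs_mul, abs_of_pos hδ]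
    have h1 : |Λ (C / (a + b ^ 2 / a))| ≤ 1 := by
      have := hΛm (C / (a + b ^ 2 / a))
      rw [abs_le]; exact ⟨this.1.le, this.2.le⟩
    have h2 : 0 ≤ δ * |C| := by positivity
    calc δ * |Λ (C / (a + b ^ 2 / a))| * |C| = |Λ (C / (a + b ^ 2 / a))| * (δ * |C|) := by ring
      _ ≤ 1 * (δ * |C|) := mul_le_mul_of_nonneg_right h1 h2
      _ = δ * |C| := one_mul _
  set a1 : ℝ := min 1 (b ^ 2 / ((β - 1) + |A| + δ * |C| + 1)) with ha1
  set a2 : ℝ := max b ((|A| + δ * |C| + b) / (β - 1)) with ha2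
  have hβ1 : 0 < β - 1 := by linarith
  have hden : 0 < (β - 1) + |A| + δ * |C| + 1 := by positivity
  have ha1p : 0 < a1 := lt_min one_pos (by positivity)
  have ha2p : 0 < a2 := lt_of_lt_of_le hb (le_max_left _ _)
  have hfa1 : f a1 ≤ A := by
    have h1 : a1 ≤ 1 := min_le_left _ _
    have h2 : (β - 1) + |A| + δ * |C| + 1 ≤ b ^ 2 / a1 := by
      rw [le_div_iff₀ ha1p]
      have := min_le_right 1 (b ^ 2 / ((β - 1) + |A| + δ * |C| + 1))
      rw [le_div_iff₀ hden] at this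
      linarith
    have h3 := abs_le.1 (hΛabs a1)
    have h4 : (β - 1) * a1 ≤ β - 1 := by nlinarith
    have h5 := neg_abs_le A
    simp only [hf]
    linarith [h3.1]
  have hfa2 : A ≤ f a2 := by
    have h1 : b ≤ a2 := le_max_left _ _
    have h2 : |A| + δ * |C| + b ≤ (β - 1) * a2 := by
      have := le_max_right b ((|A| + δ * |C| + b) / (β - 1))
      rw [div_le_iff₀ hβ1] at this
      rw [← ha2] at this
      linarith
    have h3 := abs_le.1 (hΛabs a2)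
    have h4 : b ^ 2 / a2 ≤ b := by
      rw [div_le_iff₀ ha2p]
      nlinarith
    have h5 := le_abs_self A
    simp only [hf]
    linarith [h3.2]
  obtain ⟨a, ha, hfa⟩ := isPreconnected_Ioi.intermediate_value (s := Ioi (0 : ℝ)) (mem_Ioi.2 ha1p)
    (mem_Ioi.2 ha2p) hcont ⟨hfa1, hfa2⟩
  have ha0 : 0 < a := ha
  have hp : 0 < a + b ^ 2 / a := by positivity
  have hC : Cc δ κ b a (Λ (C / (a + b ^ 2 / a))) = C := by
    unfold Cc
    rw [hΛe]
    field_simp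
  refine ⟨(a, Λ (C / (a + b ^ 2 / a))), ⟨ha, hΛm _⟩, ?_⟩
  simp only [Phi, Prod.mk.injEq]
  refine ⟨?_, hC⟩
  unfold Ac
  rw [hC]
  exact hfa

/-- derivative of the planar map -/
noncomputable def PhiD (δ κ β b : ℝ) (x : ℝ × ℝ) : ℝ × ℝ →L[ℝ] ℝ × ℝ :=
  (Matrix.toLin (.finTwoProd ℝ) (.finTwoProd ℝ)
    !![(β - 1) + b ^ 2 / x.1 ^ 2 - δ * x.2 * (eta δ κ x.2 * (1 - b ^ 2 / x.1 ^ 2)),
        -(δ * Cc δ κ b x.1 x.2) - δ * x.2 * ((ee δ κ x.2 + δ * eta δ κ x.2 ^ 2) * (x.1 + b ^ 2 / x.1));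
       eta δ κ x.2 * (1 - b ^ 2 / x.1 ^ 2),
        (ee δ κ x.2 + δ * eta δ κ x.2 ^ 2) * (x.1 + b ^ 2 / x.1)]).toContinuousLinearMap

lemma hasFDerivAt_Phi (hδ : 0 < δ) {x : ℝ × ℝ} (hx : x ∈ Ioi (0 : ℝ) ×ˢ Ioo (-1 : ℝ) 1) :
    HasFDerivAt (Phi δ κ β b) (PhiD δ κ β b x) x := by
  obtain ⟨a, t⟩ := x
  obtain ⟨ha, ht⟩ := hx
  simp only [mem_Ioi] at ha ht
  have dη : HasFDerivAt (fun x : ℝ × ℝ => eta δ κ x.2)
      ((ee δ κ t + δ * eta δ κ t ^ 2) • (ContinuousLinearMap.snd ℝ ℝ ℝ)) (a, t) := by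
    have h : HasDerivAt (eta δ κ) (ee δ κ t + δ * eta δ κ t ^ 2) (Prod.snd ((a, t) : ℝ × ℝ)) :=
      hasDerivAt_eta hδ ht
    exact h.comp_hasFDerivAt (a, t) hasFDerivAt_snd
  have db : HasDerivAt (fun a : ℝ => b ^ 2 / a) (-(b ^ 2 / a ^ 2)) a := by
    have := (hasDerivAt_inv ha.ne').const_mul (b ^ 2)
    convert! this using 1
    ring
  have db' : HasFDerivAt (fun x : ℝ × ℝ => b ^ 2 / x.1)
      ((-(b ^ 2 / a ^ 2)) • (ContinuousLinearMap.fst ℝ ℝ ℝ)) (a, t) :=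
    db.comp_hasFDerivAt (a, t) hasFDerivAt_fst
  have dp : HasFDerivAt (fun x : ℝ × ℝ => x.1 + b ^ 2 / x.1)
      (ContinuousLinearMap.fst ℝ ℝ ℝ + (-(b ^ 2 / a ^ 2)) • (ContinuousLinearMap.fst ℝ ℝ ℝ)) (a, t) :=
    hasFDerivAt_fst.add db'
  have dC : HasFDerivAt (fun x : ℝ × ℝ => Cc δ κ b x.1 x.2)
      (eta δ κ t • (ContinuousLinearMap.fst ℝ ℝ ℝ + (-(b ^ 2 / a ^ 2)) • (ContinuousLinearMap.fst ℝ ℝ ℝ))
        + (a + b ^ 2 / a) • ((ee δ κ t + δ * eta δ κ t ^ 2) • (ContinuousLinearMap.snd ℝ ℝ ℝ))) (a, t) := by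
    have := dη.mul dp
    exact this
  have dA : HasFDerivAt (fun x : ℝ × ℝ => Ac δ κ β b x.1 x.2)
      ((β - 1) • (ContinuousLinearMap.fst ℝ ℝ ℝ) - ((-(b ^ 2 / a ^ 2)) • (ContinuousLinearMap.fst ℝ ℝ ℝ))
        - ((δ * t) • (eta δ κ t • (ContinuousLinearMap.fst ℝ ℝ ℝ + (-(b ^ 2 / a ^ 2)) • (ContinuousLinearMap.fst ℝ ℝ ℝ))
        + (a + b ^ 2 / a) • ((ee δ κ t + δ * eta δ κ t ^ 2) • (ContinuousLinearMap.snd ℝ ℝ ℝ)))
          + Cc δ κ b a t • (δ • ContinuousLinearMap.snd ℝ ℝ ℝ))) (a, t) := by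
    have h1 : HasFDerivAt (fun x : ℝ × ℝ => (β - 1) * x.1) ((β - 1) • (ContinuousLinearMap.fst ℝ ℝ ℝ)) (a, t) :=
      hasFDerivAt_fst.const_mul _
    have h2 : HasFDerivAt (fun x : ℝ × ℝ => δ * x.2) (δ • (ContinuousLinearMap.snd ℝ ℝ ℝ)) (a, t) :=
      hasFDerivAt_snd.const_mul _
    have := (h1.sub db').sub (h2.mul dC)
    exact this
  have := dA.prodMk dC
  unfold PhiD
  rw [Matrix.toLin_finTwoProd_toContinuousLinearMap]
  unfold Phi
  convert! this using 1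
  ext <;> simp <;> ring

lemma det_PhiD {x : ℝ × ℝ} (hx : x ∈ Ioi (0 : ℝ) ×ˢ Ioo (-1 : ℝ) 1) :
    (PhiD δ κ β b x).det = Jac δ κ β b x.1 x.2 := by
  obtain ⟨a, t⟩ := x
  obtain ⟨ha, ht⟩ := hx
  simp only [mem_Ioi] at ha ht
  conv_lhs => rw [PhiD, LinearMap.det_toContinuousLinearMap, LinearMap.det_toLin, Matrix.det_fin_two_of]
  unfold Jac Cc
  field_simp
  ring

lemma Jac_pos (hδ : 0 < δ) (hκ0 : 0 < κ) (hκ1 : κ < 1) (hβ : 1 < β) {a t : ℝ} (ha : 0 < a)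
    (ht : t ∈ Ioo (-1 : ℝ) 1) : 0 < Jac δ κ β b a t := by
  have h1 := ee_pos hδ hκ0 hκ1 ht
  have h2 : 0 < β - 1 := by linarith
  have h3 : 0 < β := by linarith
  unfold Jac
  positivity

lemma lintegral_Phi (hδ : 0 < δ) (hκ0 : 0 < κ) (hκ1 : κ < 1) (hβ : 1 < β) (hb : 0 < b)
    (g : ℝ × ℝ → ℝ≥0∞) :
    ∫⁻ x : ℝ × ℝ, g x = ∫⁻ x in Ioi (0 : ℝ) ×ˢ Ioo (-1 : ℝ) 1,
      ENNReal.ofReal (Jac δ κ β b x.1 x.2) * g (Phi δ κ β b x) := by
  have hs : MeasurableSet (Ioi (0 : ℝ) ×ˢ Ioo (-1 : ℝ) 1) := measurableSet_Ioi.prod measurableSet_Ioo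
  rw [← setLIntegral_univ, ← Phi_surj hδ hκ0 hκ1 hβ hb,
    lintegral_image_eq_lintegral_abs_det_fderiv_mul volume hs
      (fun x hx => (hasFDerivAt_Phi hδ hx).hasFDerivWithinAt) (Phi_injOn hδ hκ0 hκ1 hβ)]
  refine setLIntegral_congr_fun hs (fun x hx => ?_)
  rw [det_PhiD hx, abs_of_pos (Jac_pos hδ hκ0 hκ1 hβ hx.1 hx.2)]

end

end Pool.Agent.K6.helper20.DM
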