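import Mathlib

set_option autoImplicit false

open Set MeasureTheory Metric
open scoped ENNReal RealInnerProductSpace

namespace Pool.Agent.K6.helper20.DM

/-- Euclidean space `ℝ^n` -/
abbrev EE (m : ℕ) := EuclideanSpace ℝ (Fin m)

/-- surface measure on the unit sphere `S^{n-1}` (Mathlib's `toSphere` of Lebesgue measure) -/
noncomputable abbrev sigma (n : ℕ) : Measure (sphere (0 : EE n) 1) :=
  (volume : Measure (EE n)).toSphere

/-- convex bodies containing the origin -/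
def IsBody {n : ℕ} (K : Set (EE n)) : Prop :=
  IsCompact K ∧ Convex ℝ K ∧ (interior K).Nonempty ∧ (0 : EE n) ∈ K

/-- support function `h_K(u) = max_{x ∈ K} <u, x>` -/
noncomputable def supp {n : ℕ} (K : Set (EE n)) (u : EE n) : ℝ := sSup ((fun x => ⟪u, x⟫) '' K)

/-- radial function `ρ_K(w) = max {t ≥ 0 : t w ∈ K}` -/
noncomputable def radial {n : ℕ} (K : Set (EE n)) (w : EE n) : ℝ := sSup {t : ℝ | 0 ≤ t ∧ t • w ∈ K}

/-- `u` is an outer normal of `K` at `x` -/
def IsNormal {n : ℕ} (K : Set (EE n)) (x u : EE n) : Prop := ∀ y ∈ K, ⟪u, y⟫ ≤ ⟪u, x⟫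

/-- the reverse radial Gauss image `α*_K(ω)` -/
def alphaStar {n : ℕ} (K : Set (EE n)) (ω : Set (sphere (0 : EE n) 1)) : Set (sphere (0 : EE n) 1) :=
  {w | ∃ u ∈ ω, IsNormal K (radial K w.1 • w.1) u.1}

/-- `μ` is the `q`th dual curvature measure of `K` -/
def IsDualCurvature {n : ℕ} (q : ℝ) (K : Set (EE n)) (μ : Measure (sphere (0 : EE n) 1)) : Prop :=
  ∀ ω : Set (sphere (0 : EE n) 1), MeasurableSet ω →
    NullMeasurableSet (alphaStar K ω) (sigma n) ∧
    μ ω = ∫⁻ w in alphaStar K ω, ENNReal.ofReal (radial K w.1 ^ q) ∂(sigma n)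

/-- the `L_p` dual curvature measure `h_K^{-p} dμ` -/
noncomputable def lpDual {n : ℕ} (p : ℝ) (K : Set (EE n)) (μ : Measure (sphere (0 : EE n) 1)) :
    Measure (sphere (0 : EE n) 1) :=
  μ.withDensity (fun u => (ENNReal.ofReal (supp K u.1)) ^ (-p))

/-- the two-sided bound -/
def TwoSided {n : ℕ} (lam p q : ℝ) (K : Set (EE n)) : Prop :=
  ∃ μ : Measure (sphere (0 : EE n) 1), IsDualCurvature q K μ ∧
    ∀ ω : Set (sphere (0 : EE n) 1), MeasurableSet ω →
      (ENNReal.ofReal lam)⁻¹ * sigma n ω ≤ lpDual p K μ ω ∧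
        lpDual p K μ ω ≤ ENNReal.ofReal lam * sigma n ω

end Pool.Agent.K6.helper20.DM
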