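import Pool.Agent.K6.helper20.DM.B
import Pool.Agent.K6.helper20.DM.Defs

set_option autoImplicit false

open Set MeasureTheory Metric
open scoped ENNReal RealInnerProductSpace

namespace Pool.Agent.K6.helper20.DM

/-- the point with first two coordinates `x` and remaining coordinates `B` -/
noncomputable def mk {m : ℕ} (x : ℝ × ℝ) (B : EE m) : EE (m + 2) :=
  WithLp.toLp 2 (Fin.cons x.1 (Fin.cons x.2 B.ofLp : Fin (m + 1) → ℝ) : Fin (m + 2) → ℝ)

/-- the remaining coordinates -/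
noncomputable def ell {m : ℕ} (x : EE (m + 2)) : EE m := WithLp.toLp 2 (fun i => x i.succ.succ)

section basics

variable {m : ℕ}

@[simp] lemma mk_zero (x : ℝ × ℝ) (B : EE m) : mk x B 0 = x.1 := rfl

@[simp] lemma mk_one (x : ℝ × ℝ) (B : EE m) : mk x B 1 = x.2 := rfl

@[simp] lemma mk_succ_succ (x : ℝ × ℝ) (B : EE m) (i : Fin m) : mk x B i.succ.succ = B i := rfl

@[simp] lemma ell_mk (x : ℝ × ℝ) (B : EE m) : ell (mk x B) = B := by
  ext i; rfl

lemma mk_ell (x : EE (m + 2)) : mk (x 0, x 1) (ell x) = x := by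
  ext i
  refine Fin.cases rfl (fun i => ?_) i
  refine Fin.cases rfl (fun i => rfl) i

lemma mk_smul (c : ℝ) (x : ℝ × ℝ) (B : EE m) : c • mk x B = mk (c • x) (c • B) := by
  ext i
  refine Fin.cases rfl (fun i => ?_) i
  refine Fin.cases rfl (fun i => rfl) i

lemma mk_add (x y : ℝ × ℝ) (B C : EE m) : mk x B + mk y C = mk (x + y) (B + C) := by
  ext i
  refine Fin.cases rfl (fun i => ?_) i
  refine Fin.cases rfl (fun i => rfl) i

lemma mk_inner (x y : ℝ × ℝ) (B C : EE m) :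
    ⟪mk x B, mk y C⟫ = x.1 * y.1 + x.2 * y.2 + ⟪B, C⟫ := by
  simp only [PiLp.inner_apply, Fin.sum_univ_succ (n := m + 1), Fin.sum_univ_succ (n := m)]
  have h1 : (mk x B) (Fin.succ 0) = x.2 := rfl
  have h2 : (mk y C) (Fin.succ 0) = y.2 := rfl
  rw [h1, h2]
  simp
  ring

lemma mk_normSq (x : ℝ × ℝ) (B : EE m) : ‖mk x B‖ ^ 2 = x.1 ^ 2 + x.2 ^ 2 + ‖B‖ ^ 2 := by
  rw [← real_inner_self_eq_norm_sq, mk_inner, real_inner_self_eq_norm_sq]
  ring

lemma mk_continuous : Continuous (fun x : (ℝ × ℝ) × EE m => mk x.1 x.2) := by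
  unfold mk
  refine (PiLp.continuous_toLp 2 _).comp ?_
  refine continuous_pi (fun i => ?_)
  refine Fin.cases ?_ (fun i => ?_) i
  · simp only [Fin.cons_zero]; fun_prop
  · refine Fin.cases ?_ (fun i => ?_) i
    · simp only [Fin.cons_succ, Fin.cons_zero]; fun_prop
    · simp only [Fin.cons_succ]; fun_prop

lemma ell_continuous : Continuous (ell : EE (m + 2) → EE m) := by
  unfold ell
  refine (PiLp.continuous_toLp 2 _).comp ?_
  fun_prop

lemma cons_measurePreserving (k : ℕ) :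
    MeasurePreserving (fun x : ℝ × (Fin k → ℝ) =>
      (Fin.cons x.1 x.2 : Fin (k + 1) → ℝ)) volume volume := by
  have h := (volume_preserving_piFinSuccAbove (fun _ : Fin (k + 1) => ℝ) 0).symm
  have e : (fun x : ℝ × (Fin k → ℝ) => (Fin.cons x.1 x.2 : Fin (k + 1) → ℝ)) =
      (MeasurableEquiv.piFinSuccAbove (fun _ : Fin (k + 1) => ℝ) 0).symm := by
    funext x
    simp [MeasurableEquiv.piFinSuccAbove, Fin.insertNthEquiv]
  rw [e]
  exact h

lemma mk_measurePreserving :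
    MeasurePreserving (fun x : (ℝ × ℝ) × EE m => mk x.1 x.2) volume volume := by
  have h1 : MeasurePreserving (fun x : (ℝ × ℝ) × EE m => (x.1.1, x.1.2, x.2)) volume volume :=
    volume_preserving_prodAssoc
  have h2 : MeasurePreserving (fun x : ℝ × ℝ × EE m => (x.1, x.2.1, x.2.2.ofLp)) volume volume :=
    (MeasurePreserving.id volume).prod
      ((MeasurePreserving.id volume).prod (PiLp.volume_preserving_ofLp (Fin m)))
  have h3 : MeasurePreserving (fun x : ℝ × ℝ × (Fin m → ℝ) =>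
      (x.1, (Fin.cons x.2.1 x.2.2 : Fin (m + 1) → ℝ))) volume volume := by
    exact (MeasurePreserving.id (volume : Measure ℝ)).prod (cons_measurePreserving m)
  have h4 : MeasurePreserving (fun x : ℝ × (Fin (m + 1) → ℝ) =>
      (Fin.cons x.1 x.2 : Fin (m + 2) → ℝ)) volume volume := cons_measurePreserving (m + 1)
  have h5 : MeasurePreserving (fun x : Fin (m + 2) → ℝ => (WithLp.toLp 2 x : EE (m + 2)))
      volume volume := PiLp.volume_preserving_toLp (Fin (m + 2))
  exact h5.comp (h4.comp (h3.comp (h2.comp h1)))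

lemma lintegral_mk {G : EE (m + 2) → ℝ≥0∞} (hG : Measurable G) :
    ∫⁻ x, G x = ∫⁻ B : EE m, ∫⁻ y : ℝ × ℝ, G (mk y B) := by
  rw [← (mk_measurePreserving (m := m)).lintegral_comp hG, Measure.volume_eq_prod,
    lintegral_prod_symm (fun x : (ℝ × ℝ) × EE m => G (mk x.1 x.2))
      (hG.comp mk_continuous.measurable).aemeasurable]

lemma lintegral_scale {g : EE m → ℝ≥0∞} {c : ℝ} (hc : 0 < c) :
    ∫⁻ B, g B = ENNReal.ofReal (c ^ m) * ∫⁻ θ, g (c • θ) := by
  have h1 : ∫⁻ θ, g (c • θ) = ∫⁻ B, g B ∂(Measure.map (c • ·) (volume : Measure (EE m))) := by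
    have he : MeasurableEmbedding (fun x : EE m => c • x) :=
      (Homeomorph.smulOfNeZero c hc.ne').measurableEmbedding
    rw [he.lintegral_map]
  rw [h1, Measure.map_addHaar_smul volume hc.ne', lintegral_smul_measure, smul_eq_mul,
    ← mul_assoc, ← ENNReal.ofReal_mul (by positivity)]
  rw [finrank_euclideanSpace_fin, abs_of_pos (by positivity), mul_inv_cancel₀ (by positivity)]
  simp

end basics

section general

variable {m : ℕ}

/-- The parameter domain. -/
abbrev DD : Set (ℝ × ℝ) := Ioi (0 : ℝ) ×ˢ Ioo (-1 : ℝ) 1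

lemma measurableSet_DD : MeasurableSet DD := measurableSet_Ioi.prod measurableSet_Ioo

lemma lintegral_gen (hm : 0 < m) {S : Set (ℝ × ℝ)} (hS : MeasurableSet S) {c : ℝ} (hc : 0 < c)
    {Ψ : ℝ → ℝ × ℝ → ℝ × ℝ} {J : ℝ → ℝ × ℝ → ℝ}
    (hΨ : Measurable (fun x : ℝ × (ℝ × ℝ) => Ψ x.1 x.2))
    (hJ : Measurable (fun x : ℝ × (ℝ × ℝ) => J x.1 x.2))
    (h : ∀ b : ℝ, 0 < b → ∀ g : ℝ × ℝ → ℝ≥0∞, Measurable g →
      ∫⁻ x in S, g x = ∫⁻ y in DD, ENNReal.ofReal (J b y) * g (Ψ b y))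
    {G : EE (m + 2) → ℝ≥0∞} (hG : Measurable G) :
    ∫⁻ x in {x : EE (m + 2) | (x 0, x 1) ∈ S}, G x = ∫⁻ y in DD, ∫⁻ θ : EE m,
      ENNReal.ofReal ((c * y.1) ^ m) * (ENNReal.ofReal (J (c * y.1 * ‖θ‖) y) *
        G (mk (Ψ (c * y.1 * ‖θ‖) y) ((c * y.1) • θ))) := by
  have hS' : MeasurableSet {x : EE (m + 2) | (x 0, x 1) ∈ S} := by
    have : Measurable (fun x : EE (m + 2) => (x 0, x 1)) := by fun_prop
    exact this hS
  have hcont : Measurable (fun x : EE m × (ℝ × ℝ) => ENNReal.ofReal (J ‖x.1‖ x.2) *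
      G (mk (Ψ ‖x.1‖ x.2) x.1)) := by
    have h1 : Measurable (fun x : EE m × (ℝ × ℝ) => ((‖x.1‖, x.2) : ℝ × (ℝ × ℝ))) := by fun_prop
    have h2 := hΨ.comp h1
    have h3 := hJ.comp h1
    refine (ENNReal.measurable_ofReal.comp h3).mul (hG.comp ?_)
    exact mk_continuous.measurable.comp (h2.prodMk measurable_fst)
  calc ∫⁻ x in {x : EE (m + 2) | (x 0, x 1) ∈ S}, G x
      = ∫⁻ x, {x : EE (m + 2) | (x 0, x 1) ∈ S}.indicator G x := by
        rw [lintegral_indicator hS']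
    _ = ∫⁻ B : EE m, ∫⁻ y : ℝ × ℝ, {x : EE (m + 2) | (x 0, x 1) ∈ S}.indicator G (mk y B) :=
        lintegral_mk (hG.indicator hS')
    _ = ∫⁻ B : EE m, ∫⁻ y in S, G (mk y B) := by
        refine lintegral_congr (fun B => ?_)
        rw [← lintegral_indicator hS]
        refine lintegral_congr (fun y => ?_)
        by_cases hy : y ∈ S
        · rw [indicator_of_mem hy, indicator_of_mem]
          exact hy
        · rw [indicator_of_notMem hy, indicator_of_notMem]
          exact hy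
    _ = ∫⁻ B : EE m, ∫⁻ y in DD, ENNReal.ofReal (J ‖B‖ y) * G (mk (Ψ ‖B‖ y) B) := by
        refine lintegral_congr_ae ?_
        have : Nonempty (Fin m) := ⟨⟨0, hm⟩⟩
        have hne : ∀ᵐ B : EE m, B ≠ 0 := by
          exact Measure.ae_ne volume 0
        filter_upwards [hne] with B hB
        refine h ‖B‖ (norm_pos_iff.2 hB) (fun y => G (mk y B)) ?_
        exact hG.comp (mk_continuous.measurable.comp (measurable_id.prodMk measurable_const))
    _ = ∫⁻ y in DD, ∫⁻ B : EE m, ENNReal.ofReal (J ‖B‖ y) * G (mk (Ψ ‖B‖ y) B) := by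
        rw [lintegral_lintegral_swap]
        exact hcont.aemeasurable
    _ = _ := by
        refine setLIntegral_congr_fun measurableSet_DD (fun y hy => ?_)
        have hy1 : 0 < y.1 := hy.1
        have hcy : 0 < c * y.1 := mul_pos hc hy1
        rw [lintegral_scale hcy, ← lintegral_const_mul']
        · refine lintegral_congr (fun θ => ?_)
          rw [norm_smul, Real.norm_eq_abs, abs_of_pos hcy]
        · exact ENNReal.ofReal_ne_top

end general

section spherical

variable {n : ℕ}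

/-- integrals over the sphere as solid integrals -/
lemma sphere_lintegral (hn : 0 < n) {g : EE n → ℝ≥0∞} (hg : Measurable g) :
    ∫⁻ u : sphere (0 : EE n) 1, g u.1 ∂((volume : Measure (EE n)).toSphere) =
      n * ∫⁻ x in ball (0 : EE n) 1, g (‖x‖⁻¹ • x) := by
  have hdim : Module.finrank ℝ (EE n) = n := finrank_euclideanSpace_fin
  have : Nonempty (Fin n) := ⟨⟨0, hn⟩⟩
  have hmp := (volume : Measure (EE n)).measurePreserving_homeomorphUnitSphereProd
  rw [hdim] at hmp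
  set F : sphere (0 : EE n) 1 × Ioi (0 : ℝ) → ℝ≥0∞ :=
    fun y => g y.1.1 * (Iio (⟨1, mem_Ioi.2 one_pos⟩ : Ioi (0 : ℝ))).indicator 1 y.2 with hF
  have hg' : Measurable (fun u : sphere (0 : EE n) 1 => g u.1) := hg.comp measurable_subtype_coe
  have hFm : Measurable F := by
    refine (hg'.comp measurable_fst).mul ?_
    exact (measurable_one.indicator measurableSet_Iio).comp measurable_snd
  have h1 : ∫⁻ x, F (homeomorphUnitSphereProd (EE n) x)
      ∂((volume : Measure (EE n)).comap ((↑) : ({0}ᶜ : Set (EE n)) → EE n)) =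
      ∫⁻ y, F y ∂((volume : Measure (EE n)).toSphere.prod (Measure.volumeIoiPow (n - 1))) :=
    hmp.lintegral_comp hFm
  have h2 : ∫⁻ y, F y ∂((volume : Measure (EE n)).toSphere.prod (Measure.volumeIoiPow (n - 1))) =
      (∫⁻ u : sphere (0 : EE n) 1, g u.1 ∂((volume : Measure (EE n)).toSphere)) *
        ENNReal.ofReal (1 / n) := by
    rw [lintegral_prod_mul hg'.aemeasurable
      (measurable_one.indicator measurableSet_Iio).aemeasurable]
    congr 1
    rw [lintegral_indicator_one measurableSet_Iio, Measure.volumeIoiPow_apply_Iio]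
    congr 1
    have : ((n - 1 : ℕ) : ℝ) + 1 = n := by
      rw [← Nat.cast_succ, Nat.succ_eq_add_one, Nat.sub_add_cancel hn]
    rw [this]
    simp
  have h3 : ∫⁻ x, F (homeomorphUnitSphereProd (EE n) x)
      ∂((volume : Measure (EE n)).comap ((↑) : ({0}ᶜ : Set (EE n)) → EE n)) =
      ∫⁻ x in ball (0 : EE n) 1, g (‖x‖⁻¹ • x) := by
    have e1 : ∀ x : ({0}ᶜ : Set (EE n)), F (homeomorphUnitSphereProd (EE n) x) =
        (ball (0 : EE n) 1).indicator (fun x => g (‖x‖⁻¹ • x)) x.1 := by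
      intro x
      have hx2 : ((homeomorphUnitSphereProd (EE n) x).2 : ℝ) = ‖x.1‖ :=
        homeomorphUnitSphereProd_apply_snd_coe _ _
      have hx1 : ((homeomorphUnitSphereProd (EE n) x).1 : EE n) = ‖x.1‖⁻¹ • x.1 :=
        homeomorphUnitSphereProd_apply_fst_coe _ _
      simp only [hF, hx1]
      by_cases hb : x.1 ∈ ball (0 : EE n) 1
      · rw [indicator_of_mem hb, indicator_of_mem]
        · simp
        · rw [mem_Iio, ← Subtype.coe_lt_coe, hx2]
          exact mem_ball_zero_iff.1 hb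
      · rw [indicator_of_notMem hb, indicator_of_notMem]
        · simp
        · rw [mem_Iio, ← Subtype.coe_lt_coe, hx2]
          intro hcon
          exact hb (mem_ball_zero_iff.2 hcon)
    rw [lintegral_congr e1]
    have hsub := lintegral_subtype_comap (μ := (volume : Measure (EE n)))
      (measurableSet_singleton (0 : EE n)).compl
      (fun x => (ball (0 : EE n) 1).indicator (fun x => g (‖x‖⁻¹ • x)) x)
    rw [hsub]
    have hae : ({0}ᶜ : Set (EE n)) =ᵐ[volume] (univ : Set (EE n)) := by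
      rw [ae_eq_univ, compl_compl]
      exact measure_singleton 0
    rw [setLIntegral_congr hae, setLIntegral_univ, lintegral_indicator measurableSet_ball]
  rw [← h3, h1, h2, mul_comm (∫⁻ u : sphere (0 : EE n) 1, g u.1 ∂_), ← mul_assoc]
  have : (n : ℝ≥0∞) * ENNReal.ofReal (1 / n) = 1 := by
    rw [← ENNReal.ofReal_natCast, ← ENNReal.ofReal_mul (by positivity)]
    rw [mul_one_div_cancel (by positivity)]
    simp
  rw [this, one_mul]

lemma lintegral_pow_Ioo (k : ℕ) {c : ℝ} (hc : 0 ≤ c) :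
    ∫⁻ a in Ioo 0 c, ENNReal.ofReal (a ^ k) = ENNReal.ofReal (c ^ (k + 1) / (k + 1)) := by
  rw [Measure.restrict_congr_set Ioo_ae_eq_Ioc,
    ← ofReal_integral_eq_lintegral_ofReal (intervalIntegral.intervalIntegrable_pow _).1,
    ← intervalIntegral.integral_of_le hc]
  · simp
  · filter_upwards [ae_restrict_mem measurableSet_Ioc] with y hy
    exact pow_nonneg hy.1.le _

lemma cone_lintegral {m : ℕ} {Γ : Set (EE (m + 2))} (hΓ : MeasurableSet Γ)
    (hcone : ∀ x, ‖x‖⁻¹ • x ∈ Γ ↔ x ∈ Γ)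
    {V : ℝ × EE m → EE (m + 2)} (hV : Measurable V) (hV0 : ∀ z, V z ≠ 0)
    {J : ℝ × EE m → ℝ} (hJ : Measurable J)
    (h : ∀ G : EE (m + 2) → ℝ≥0∞, Measurable G → ∫⁻ x in Γ, G x = ∫⁻ y in DD, ∫⁻ θ,
      ENNReal.ofReal (y.1 ^ (m + 1) * J (y.2, θ)) * G (y.1 • V (y.2, θ)))
    {g : EE (m + 2) → ℝ≥0∞} (hg : Measurable g) :
    ∫⁻ u in {u : sphere (0 : EE (m + 2)) 1 | u.1 ∈ Γ}, g u.1
      ∂((volume : Measure (EE (m + 2))).toSphere) =
    ∫⁻ t in Ioo (-1 : ℝ) 1, ∫⁻ θ : EE m, ENNReal.ofReal (J (t, θ)) *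
      ENNReal.ofReal ((‖V (t, θ)‖⁻¹) ^ (m + 2)) * g (‖V (t, θ)‖⁻¹ • V (t, θ)) := by
  have hdir : Measurable (fun x : EE (m + 2) => ‖x‖⁻¹ • x) :=
    (measurable_norm.inv).smul measurable_id
  have hΓs : MeasurableSet {u : sphere (0 : EE (m + 2)) 1 | u.1 ∈ Γ} := measurable_subtype_coe hΓ
  have e1 : ∫⁻ u in {u : sphere (0 : EE (m + 2)) 1 | u.1 ∈ Γ}, g u.1
      ∂((volume : Measure (EE (m + 2))).toSphere) =
      ∫⁻ u : sphere (0 : EE (m + 2)) 1, Γ.indicator g u.1
        ∂((volume : Measure (EE (m + 2))).toSphere) := by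
    rw [← lintegral_indicator hΓs]
    refine lintegral_congr (fun u => ?_)
    by_cases hu : u.1 ∈ Γ
    · rw [indicator_of_mem hu, indicator_of_mem]
      exact hu
    · rw [indicator_of_notMem hu, indicator_of_notMem]
      exact hu
  set G : EE (m + 2) → ℝ≥0∞ := (ball (0 : EE (m + 2)) 1).indicator (fun x => g (‖x‖⁻¹ • x)) with hG
  have hGm : Measurable G := (hg.comp hdir).indicator measurableSet_ball
  have e2 : ∫⁻ x in ball (0 : EE (m + 2)) 1, Γ.indicator g (‖x‖⁻¹ • x) = ∫⁻ x in Γ, G x := by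
    rw [hG, lintegral_indicator measurableSet_ball,
      Measure.restrict_restrict measurableSet_ball, inter_comm,
      ← Measure.restrict_restrict hΓ, ← lintegral_indicator hΓ]
    refine lintegral_congr (fun x => ?_)
    by_cases hx : x ∈ Γ
    · rw [indicator_of_mem hx, indicator_of_mem ((hcone x).2 hx)]
    · rw [indicator_of_notMem hx, indicator_of_notMem]
      exact fun hc => hx ((hcone x).1 hc)
  rw [e1, sphere_lintegral (by omega) (hg.indicator hΓ), e2, h G hGm]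
  -- split the plane
  have hmeas : Measurable (fun x : (ℝ × ℝ) × EE m =>
      ENNReal.ofReal (x.1.1 ^ (m + 1) * J (x.1.2, x.2)) * G (x.1.1 • V (x.1.2, x.2))) := by
    have m1 : Measurable (fun x : (ℝ × ℝ) × EE m => ((x.1.2, x.2) : ℝ × EE m)) := by fun_prop
    have m2 : Measurable (fun x : (ℝ × ℝ) × EE m => x.1.1) := by fun_prop
    exact (ENNReal.measurable_ofReal.comp ((m2.pow_const _).mul (hJ.comp m1))).mul
      (hGm.comp (m2.smul (hV.comp m1)))
  have e3 : ∫⁻ y in DD, ∫⁻ θ : EE m,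
      ENNReal.ofReal (y.1 ^ (m + 1) * J (y.2, θ)) * G (y.1 • V (y.2, θ)) =
      ∫⁻ t in Ioo (-1 : ℝ) 1, ∫⁻ a in Ioi (0 : ℝ), ∫⁻ θ : EE m,
      ENNReal.ofReal (a ^ (m + 1) * J (t, θ)) * G (a • V (t, θ)) := by
    rw [Measure.volume_eq_prod, ← Measure.prod_restrict,
      lintegral_prod_symm (fun y : ℝ × ℝ => ∫⁻ θ : EE m,
      ENNReal.ofReal (y.1 ^ (m + 1) * J (y.2, θ)) * G (y.1 • V (y.2, θ)))]
    exact (Measurable.lintegral_prod_right' hmeas).aemeasurable
  rw [e3, ← lintegral_const_mul']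
  swap
  · exact ENNReal.natCast_ne_top _
  refine setLIntegral_congr_fun measurableSet_Ioo (fun t ht => ?_)
  have hmeas2 : Measurable (fun x : ℝ × EE m =>
      ENNReal.ofReal (x.1 ^ (m + 1) * J (t, x.2)) * G (x.1 • V (t, x.2))) := by
    have m3 : Measurable (fun x : ℝ × EE m => (((x.1, t), x.2) : (ℝ × ℝ) × EE m)) := by fun_prop
    exact hmeas.comp m3
  rw [lintegral_lintegral_swap hmeas2.aemeasurable, ← lintegral_const_mul']
  swap
  · exact ENNReal.natCast_ne_top _
  refine lintegral_congr (fun θ => ?_)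
  have hVpos : 0 < ‖V (t, θ)‖ := norm_pos_iff.2 (hV0 _)
  have e4 : ∀ a ∈ Ioi (0 : ℝ), ENNReal.ofReal (a ^ (m + 1) * J (t, θ)) * G (a • V (t, θ)) =
      (Iio (‖V (t, θ)‖⁻¹)).indicator (fun a => ENNReal.ofReal (a ^ (m + 1))) a *
        (ENNReal.ofReal (J (t, θ)) * g (‖V (t, θ)‖⁻¹ • V (t, θ))) := by
    intro a ha
    have ha0 : 0 < a := ha
    rw [ENNReal.ofReal_mul (by positivity)]
    have hn : ‖a • V (t, θ)‖ = a * ‖V (t, θ)‖ := by
      rw [norm_smul, Real.norm_eq_abs, abs_of_pos ha0]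
    by_cases hb : a < ‖V (t, θ)‖⁻¹
    · rw [indicator_of_mem (mem_Iio.2 hb), hG, indicator_of_mem]
      · have : (‖a • V (t, θ)‖⁻¹ • a • V (t, θ)) = ‖V (t, θ)‖⁻¹ • V (t, θ) := by
          rw [hn, smul_smul]
          congr 1
          field_simp
        rw [this]
        ring
      · rw [mem_ball_zero_iff, hn]
        rwa [lt_inv_comm₀ ha0 hVpos, lt_inv_comm₀ hVpos ha0, ← one_div, lt_div_iff₀ hVpos] at hb
    · rw [indicator_of_notMem (by simpa using hb), hG, indicator_of_notMem]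
      · simp
      · rw [mem_ball_zero_iff, hn]
        intro hc
        apply hb
        rwa [← one_div, lt_div_iff₀ hVpos]
  have hmi : Measurable ((Iio (‖V (t, θ)‖⁻¹)).indicator
      (fun a : ℝ => ENNReal.ofReal (a ^ (m + 1)))) :=
    (ENNReal.measurable_ofReal.comp (measurable_id.pow_const _)).indicator measurableSet_Iio
  rw [setLIntegral_congr_fun measurableSet_Ioi e4, lintegral_mul_const _ hmi]
  rw [lintegral_indicator measurableSet_Iio, Measure.restrict_restrict measurableSet_Iio]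
  have : Iio (‖V (t, θ)‖⁻¹) ∩ Ioi 0 = Ioo 0 (‖V (t, θ)‖⁻¹) := by
    ext x; simp [and_comm]
  rw [this, lintegral_pow_Ioo _ (by positivity)]
  rw [← mul_assoc, ← ENNReal.ofReal_natCast, ← ENNReal.ofReal_mul (by positivity)]
  have e5 : ((m + 2 : ℕ) : ℝ) * (‖V (t, θ)‖⁻¹ ^ (m + 1 + 1) / ((m + 1 : ℕ) + 1)) =
      ‖V (t, θ)‖⁻¹ ^ (m + 2) := by
    push_cast
    field_simp
    ring
  rw [e5]
  ring

end spherical

end Pool.Agent.K6.helper20.DM
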