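import Pool.Agent.K6.helper20.DM.C

set_option autoImplicit false

open Set MeasureTheory Metric
open scoped ENNReal RealInnerProductSpace

namespace Pool.Agent.K6.helper20.DM

/-- direction of the boundary point -/
noncomputable def V1 {m : ℕ} (δ : ℝ) (z : ℝ × EE m) : EE (m + 2) := mk (1, δ * z.1) z.2

/-- (unnormalised) outer normal -/
noncomputable def V2 {m : ℕ} (δ κ β : ℝ) (z : ℝ × EE m) : EE (m + 2) :=
  mk (β - (1 + ‖z.2‖ ^ 2) * (1 + δ * z.1 * eta δ κ z.1), (1 + ‖z.2‖ ^ 2) * eta δ κ z.1) (β • z.2)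

/-- density -/
noncomputable def jj {m : ℕ} (δ κ β : ℝ) (z : ℝ × EE m) : ℝ :=
  β ^ m * ((1 + ‖z.2‖ ^ 2) * ((β - 1 + ‖z.2‖ ^ 2) * ee δ κ z.1 + δ * β * eta δ κ z.1 ^ 2))

/-- the open cone -/
def Uc (m : ℕ) (δ : ℝ) : Set (EE (m + 2)) := {x | 0 < x 0 ∧ |x 1| < δ * x 0}

section

variable {m : ℕ} {δ κ β : ℝ}

lemma measurable_Df : Measurable (Df κ) := by
  unfold Df; fun_prop

lemma measurable_Dd : Measurable (Dd κ) := by
  unfold Dd; fun_prop

lemma measurable_Pf : Measurable (Pf κ) := by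
  unfold Pf; fun_prop

lemma measurable_Yf : Measurable (Yf δ κ) := by
  unfold Yf; exact (measurable_Pf.const_mul δ).const_add 1

lemma measurable_eta : Measurable (eta δ κ) := by
  unfold eta; exact (measurable_Df.const_mul κ).div measurable_Yf

lemma measurable_ee : Measurable (ee δ κ) := by
  unfold ee; exact (measurable_Dd.const_mul κ).div measurable_Yf

lemma measurable_mk {α : Type*} [MeasurableSpace α] {f g : α → ℝ} {B : α → EE m}
    (hf : Measurable f) (hg : Measurable g) (hB : Measurable B) :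
    Measurable (fun x => mk (f x, g x) (B x)) :=
  mk_continuous.measurable.comp ((hf.prodMk hg).prodMk hB)

lemma measurable_V1 : Measurable (V1 (m := m) δ) := by
  unfold V1
  exact measurable_mk measurable_const (measurable_fst.const_mul δ) measurable_snd

lemma measurable_V2 : Measurable (V2 (m := m) δ κ β) := by
  have h1 : Measurable (fun z : ℝ × EE m => eta δ κ z.1) := measurable_eta.comp measurable_fst
  have h2 : Measurable (fun z : ℝ × EE m => (1 + ‖z.2‖ ^ 2)) := by fun_prop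
  unfold V2
  refine measurable_mk ?_ (h2.mul h1) (by fun_prop)
  exact measurable_const.sub (h2.mul (((measurable_fst.const_mul δ).mul h1).const_add 1))

lemma measurable_jj : Measurable (jj (m := m) δ κ β) := by
  have h1 : Measurable (fun z : ℝ × EE m => eta δ κ z.1) := measurable_eta.comp measurable_fst
  have h3 : Measurable (fun z : ℝ × EE m => ee δ κ z.1) := measurable_ee.comp measurable_fst
  unfold jj
  fun_prop

lemma V1_ne_zero (z : ℝ × EE m) : V1 δ z ≠ 0 := by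
  intro h
  have : (V1 δ z) 0 = 0 := by rw [h]; rfl
  simp [V1] at this

lemma V2_ne_zero (hβ : 1 < β) (z : ℝ × EE m) : V2 δ κ β z ≠ 0 := by
  intro h
  have h0 : (V2 δ κ β z) 0 = 0 := by rw [h]; rfl
  have h1 : (V2 δ κ β z) 1 = 0 := by rw [h]; rfl
  have h2 : ell (V2 δ κ β z) = 0 := by rw [h]; rfl
  simp only [V2, mk_zero, mk_one, ell_mk] at h0 h1 h2
  have h3 : z.2 = 0 := by
    rcases smul_eq_zero.1 h2 with h | h
    · linarith
    · exact h
  have h4 : eta δ κ z.1 = 0 := by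
    rcases mul_eq_zero.1 h1 with h | h
    · have : 0 < 1 + ‖z.2‖ ^ 2 := by positivity
      linarith
    · exact h
  rw [h3, h4] at h0
  simp at h0
  linarith

/-- planar cone -/
def S1 (δ : ℝ) : Set (ℝ × ℝ) := {x | 0 < x.1 ∧ |x.2| < δ * x.1}

lemma measurableSet_S1 : MeasurableSet (S1 δ) := by
  have h1 : Measurable (fun x : ℝ × ℝ => |x.2|) := by fun_prop
  have h2 : Measurable (fun x : ℝ × ℝ => δ * x.1) := by fun_prop
  exact (measurableSet_lt measurable_const measurable_fst).inter (measurableSet_lt h1 h2)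

lemma lintegral_S1 (hδ : 0 < δ) (g : ℝ × ℝ → ℝ≥0∞) :
    ∫⁻ x in S1 δ, g x = ∫⁻ y in DD, ENNReal.ofReal (δ * y.1) * g (y.1, δ * y.1 * y.2) := by
  set f : ℝ × ℝ → ℝ × ℝ := fun y => (y.1, δ * y.1 * y.2) with hf
  set f' : ℝ × ℝ → (ℝ × ℝ →L[ℝ] ℝ × ℝ) := fun y =>
    (Matrix.toLin (.finTwoProd ℝ) (.finTwoProd ℝ)
      !![1, 0; δ * y.2, δ * y.1]).toContinuousLinearMap with hf'
  have himg : f '' DD = S1 δ := by
    ext ⟨x, y⟩
    constructor
    · rintro ⟨⟨a, t⟩, ⟨ha, ht⟩, h⟩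
      simp only [hf, Prod.mk.injEq] at h
      simp only [mem_Ioi, mem_Ioo] at ha ht
      obtain ⟨rfl, rfl⟩ := h
      refine ⟨ha, ?_⟩
      simp only [abs_mul, abs_of_pos hδ, abs_of_pos ha]
      have : |t| < 1 := abs_lt.2 ht
      have h2 : 0 < δ * a := by positivity
      nlinarith
    · rintro ⟨hx, hy⟩
      simp only at hx hy
      refine ⟨(x, y / (δ * x)), ⟨hx, ?_⟩, ?_⟩
      · rw [mem_Ioo, ← abs_lt, abs_div, abs_of_pos (mul_pos hδ hx), div_lt_one (mul_pos hδ hx)]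
        exact hy
      · simp only [hf, Prod.mk.injEq, true_and]
        have := (mul_pos hδ hx).ne'
        field_simp
  have hinj : InjOn f DD := by
    rintro ⟨a, t⟩ ⟨ha, ht⟩ ⟨a', t'⟩ ⟨ha', ht'⟩ h
    simp only [hf, Prod.mk.injEq] at h
    obtain ⟨rfl, h⟩ := h
    simp only [mem_Ioi] at ha
    have := mul_left_cancel₀ (mul_pos hδ ha).ne' h
    rw [this]
  have hder : ∀ x ∈ DD, HasFDerivWithinAt f (f' x) DD x := by
    intro x _
    apply HasFDerivAt.hasFDerivWithinAt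
    have h1 : HasFDerivAt (fun x : ℝ × ℝ => δ * x.1) (δ • ContinuousLinearMap.fst ℝ ℝ ℝ) x :=
      hasFDerivAt_fst.const_mul _
    have h2 := (hasFDerivAt_fst (𝕜 := ℝ) (p := x)).prodMk (h1.mul hasFDerivAt_snd)
    simp only [hf, hf']
    rw [Matrix.toLin_finTwoProd_toContinuousLinearMap]
    convert! h2 using 1
    ext <;> (simp; try ring)
  rw [← himg, lintegral_image_eq_lintegral_abs_det_fderiv_mul volume measurableSet_DD hder hinj]
  refine setLIntegral_congr_fun measurableSet_DD (fun x hx => ?_)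
  have hx1 : 0 < x.1 := hx.1
  have hdet : (f' x).det = δ * x.1 := by
    simp only [hf']
    conv_lhs => rw [LinearMap.det_toContinuousLinearMap, LinearMap.det_toLin, Matrix.det_fin_two_of]
    ring
  rw [hdet, abs_of_pos (mul_pos hδ hx1)]

lemma measurableSet_Uc : MeasurableSet (Uc m δ) := by
  have h0 : Measurable (fun x : EE (m + 2) => x 0) := by fun_prop
  have h1 : Measurable (fun x : EE (m + 2) => |x 1|) := by fun_prop
  have h2 : Measurable (fun x : EE (m + 2) => δ * x 0) := by fun_prop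
  exact (measurableSet_lt measurable_const h0).inter (measurableSet_lt h1 h2)

lemma Uc_eq : Uc m δ = {x : EE (m + 2) | (x 0, x 1) ∈ S1 δ} := rfl

lemma F1 (hm : 0 < m) (hδ : 0 < δ) (G : EE (m + 2) → ℝ≥0∞) (hG : Measurable G) :
    ∫⁻ x in Uc m δ, G x = ∫⁻ y in DD, ∫⁻ θ : EE m,
      ENNReal.ofReal (y.1 ^ (m + 1) * δ) * G (y.1 • V1 δ (y.2, θ)) := by
  rw [Uc_eq, lintegral_gen hm (measurableSet_S1 (δ := δ)) (c := 1) one_pos
    (Ψ := fun _ y => (y.1, δ * y.1 * y.2)) (J := fun _ y => δ * y.1) (by fun_prop) (by fun_prop)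
    (fun b hb g hg => lintegral_S1 hδ g) hG]
  refine setLIntegral_congr_fun measurableSet_DD (fun y hy => ?_)
  have hy1 : 0 < y.1 := hy.1
  refine lintegral_congr (fun θ => ?_)
  rw [← mul_assoc, ← ENNReal.ofReal_mul (by positivity)]
  congr 2
  · ring
  · rw [V1, mk_smul]
    congr 1
    · simp only [Prod.smul_mk, smul_eq_mul, mul_one, Prod.mk.injEq, true_and]
      ring
    · rw [one_mul]

lemma F2 (hm : 0 < m) (hδ : 0 < δ) (hκ0 : 0 < κ) (hκ1 : κ < 1) (hβ : 1 < β)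
    (G : EE (m + 2) → ℝ≥0∞) (hG : Measurable G) :
    ∫⁻ x in (univ : Set (EE (m + 2))), G x = ∫⁻ y in DD, ∫⁻ θ : EE m,
      ENNReal.ofReal (y.1 ^ (m + 1) * jj δ κ β (y.2, θ)) * G (y.1 • V2 δ κ β (y.2, θ)) := by
  have hβ0 : 0 < β := by linarith
  have hu : (univ : Set (EE (m + 2))) = {x : EE (m + 2) | (x 0, x 1) ∈ (univ : Set (ℝ × ℝ))} := by
    ext x; simp
  have m1 : Measurable (fun x : ℝ × (ℝ × ℝ) => eta δ κ x.2.2) :=
    measurable_eta.comp (by fun_prop)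
  have m2 : Measurable (fun x : ℝ × (ℝ × ℝ) => ee δ κ x.2.2) :=
    measurable_ee.comp (by fun_prop)
  rw [hu, lintegral_gen hm MeasurableSet.univ (c := β) hβ0
    (Ψ := fun b y => Phi δ κ β (b / β) y) (J := fun b y => Jac δ κ β (b / β) y.1 y.2)
    (by unfold Phi Ac Cc; fun_prop) (by unfold Jac; fun_prop)
    (fun b hb g hg => by
      rw [setLIntegral_univ]
      exact lintegral_Phi hδ hκ0 hκ1 hβ (div_pos hb hβ0) g) hG]
  refine setLIntegral_congr_fun measurableSet_DD (fun y hy => ?_)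
  have hy1 : 0 < y.1 := hy.1
  refine lintegral_congr (fun θ => ?_)
  have hb : β * y.1 * ‖θ‖ / β = y.1 * ‖θ‖ := by field_simp
  have hba : y.1 * ‖θ‖ / y.1 = ‖θ‖ := by field_simp
  rw [← mul_assoc, ← ENNReal.ofReal_mul (by positivity)]
  congr 2
  · rw [hb]
    unfold Jac jj
    rw [hba]
    ring
  · rw [V2, mk_smul, hb]
    congr 1
    · simp only [Phi, Ac, Cc, Prod.smul_mk, smul_eq_mul, Prod.mk.injEq]
      constructor
      · field_simp
        ring
      · field_simp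
    · rw [smul_smul, mul_comm]

lemma Uc_cone (x : EE (m + 2)) : ‖x‖⁻¹ • x ∈ Uc m δ ↔ x ∈ Uc m δ := by
  by_cases hx : x = 0
  · rw [hx]; simp
  · have hp : 0 < ‖x‖⁻¹ := inv_pos.2 (norm_pos_iff.2 hx)
    simp only [Uc, mem_ofPred_eq, PiLp.smul_apply, smul_eq_mul, abs_mul, abs_of_pos hp]
    have e : δ * (‖x‖⁻¹ * x 0) = ‖x‖⁻¹ * (δ * x 0) := by ring
    rw [e, mul_lt_mul_iff_right₀ hp]
    constructor
    · rintro ⟨h1, h2⟩
      exact ⟨(mul_pos_iff_of_pos_left hp).1 h1, h2⟩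
    · rintro ⟨h1, h2⟩
      exact ⟨mul_pos hp h1, h2⟩

lemma sphere_U (hm : 0 < m) (hδ : 0 < δ) {g : EE (m + 2) → ℝ≥0∞} (hg : Measurable g) :
    ∫⁻ u in {u : sphere (0 : EE (m + 2)) 1 | u.1 ∈ Uc m δ}, g u.1
      ∂((volume : Measure (EE (m + 2))).toSphere) =
    ∫⁻ t in Ioo (-1 : ℝ) 1, ∫⁻ θ : EE m, ENNReal.ofReal δ *
      ENNReal.ofReal ((‖V1 δ (t, θ)‖⁻¹) ^ (m + 2)) * g (‖V1 δ (t, θ)‖⁻¹ • V1 δ (t, θ)) :=
  cone_lintegral measurableSet_Uc Uc_cone measurable_V1 V1_ne_zero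
    (J := fun _ => δ) measurable_const (F1 hm hδ) hg

lemma sphere_all (hm : 0 < m) (hδ : 0 < δ) (hκ0 : 0 < κ) (hκ1 : κ < 1) (hβ : 1 < β)
    {g : EE (m + 2) → ℝ≥0∞} (hg : Measurable g) :
    ∫⁻ u : sphere (0 : EE (m + 2)) 1, g u.1 ∂((volume : Measure (EE (m + 2))).toSphere) =
    ∫⁻ t in Ioo (-1 : ℝ) 1, ∫⁻ θ : EE m, ENNReal.ofReal (jj δ κ β (t, θ)) *
      ENNReal.ofReal ((‖V2 δ κ β (t, θ)‖⁻¹) ^ (m + 2)) *
        g (‖V2 δ κ β (t, θ)‖⁻¹ • V2 δ κ β (t, θ)) := by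
  have := cone_lintegral MeasurableSet.univ (by simp) measurable_V2 (V2_ne_zero hβ)
    measurable_jj (F2 hm hδ hκ0 hκ1 hβ) hg
  rw [← this]
  simp

end

end Pool.Agent.K6.helper20.DM
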