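import Pool.Agent.K6.helper20.DM.D

set_option autoImplicit false

open Set MeasureTheory Metric
open scoped ENNReal RealInnerProductSpace

namespace Pool.Agent.K6.helper20.DM

/-- drop the second coordinate -/
noncomputable def bar {m : ℕ} (x : EE (m + 2)) : EE (m + 2) := mk (x 0, 0) (ell x)

/-- The function `W` -/
noncomputable def Wf (δ κ a y : ℝ) : ℝ := a + (δ * a) ^ (1 - κ) * ((δ * a - y) ^ κ + (δ * a + y) ^ κ)

/-- The convex body -/
def KK (m : ℕ) (δ κ β c : ℝ) : Set (EE (m + 2)) :=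
  {x | |x 1| ≤ δ * x 0 ∧ ‖bar x‖ ^ β ≤ c * Wf δ κ (x 0) (x 1)}

section W

variable {δ κ : ℝ}

lemma geo_le (hκ0 : 0 < κ) (hκ1 : κ < 1) {P Q x0 : ℝ} (hP : 0 ≤ P) (hQ : 0 ≤ Q) (hx0 : 0 < x0) :
    P ^ (1 - κ) * Q ^ κ ≤ (1 - κ) * x0 ^ κ * P + κ * x0 ^ (κ - 1) * Q := by
  have hxk : 0 < x0 ^ κ := Real.rpow_pos_of_pos hx0 _
  have hxk1 : 0 < x0 ^ (κ - 1) := Real.rpow_pos_of_pos hx0 _
  have h1κ : 0 < 1 - κ := by linarith
  rcases hP.lt_or_eq with hP0 | hP0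
  · have h := rpow_tangent hκ0 hκ1 (x := Q / P) (x0 := x0) (by positivity) hx0
    have h2 := mul_le_mul_of_nonneg_right h hP
    have e1 : (Q / P) ^ κ * P = P ^ (1 - κ) * Q ^ κ := by
      rw [Real.div_rpow hQ hP, Real.rpow_sub hP0, Real.rpow_one]
      ring
    have e2 : x0 ^ (κ - 1) * x0 = x0 ^ κ := by
      rw [Real.rpow_sub hx0, Real.rpow_one]
      field_simp
    rw [e1] at h2
    refine h2.trans (le_of_eq ?_)
    have : (x0 ^ κ + κ * x0 ^ (κ - 1) * (Q / P - x0)) * P =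
        x0 ^ κ * P + κ * x0 ^ (κ - 1) * Q * (P / P) - κ * (x0 ^ (κ - 1) * x0) * P := by ring
    rw [this, e2, div_self hP0.ne']
    ring
  · rw [← hP0, Real.zero_rpow h1κ.ne']
    have : 0 ≤ κ * x0 ^ (κ - 1) * Q := by positivity
    linarith

lemma geo_superadd (hκ0 : 0 < κ) (hκ1 : κ < 1) {P Q P' Q' : ℝ} (hP : 0 ≤ P) (hQ : 0 ≤ Q)
    (hP' : 0 ≤ P') (hQ' : 0 ≤ Q') :
    P ^ (1 - κ) * Q ^ κ + P' ^ (1 - κ) * Q' ^ κ ≤ (P + P') ^ (1 - κ) * (Q + Q') ^ κ := by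
  have h1κ : 0 < 1 - κ := by linarith
  rcases (add_nonneg hP hP').lt_or_eq with hPP | hPP
  · rcases (add_nonneg hQ hQ').lt_or_eq with hQQ | hQQ
    · -- use the weighted inequality with `x0 = (Q+Q')/(P+P')`
      have hx0 : 0 < (Q + Q') / (P + P') := by positivity
      have a1 := geo_le hκ0 hκ1 hP hQ hx0
      have a2 := geo_le hκ0 hκ1 hP' hQ' hx0
      set x0 := (Q + Q') / (P + P') with hx0def
      have e2 : x0 ^ (κ - 1) = x0 ^ κ / x0 := by
        rw [Real.rpow_sub hx0, Real.rpow_one]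
      have e3 : (P + P') ^ (1 - κ) * (Q + Q') ^ κ = x0 ^ κ * (P + P') := by
        rw [hx0def, Real.div_rpow hQQ.le hPP.le, Real.rpow_sub hPP, Real.rpow_one]
        ring
      rw [e3]
      have e4 : (Q + Q') = x0 * (P + P') := by rw [hx0def]; field_simp
      have e5 : (1 - κ) * x0 ^ κ * P + κ * x0 ^ (κ - 1) * Q +
          ((1 - κ) * x0 ^ κ * P' + κ * x0 ^ (κ - 1) * Q') = x0 ^ κ * (P + P') := by
        have : (1 - κ) * x0 ^ κ * P + κ * x0 ^ (κ - 1) * Q +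
          ((1 - κ) * x0 ^ κ * P' + κ * x0 ^ (κ - 1) * Q') =
          (1 - κ) * x0 ^ κ * (P + P') + κ * x0 ^ (κ - 1) * (Q + Q') := by ring
        rw [this, e4, e2]
        field_simp
        ring
      linarith
    · have hQ0 : Q = 0 := by linarith
      have hQ0' : Q' = 0 := by linarith
      rw [hQ0, hQ0', add_zero, Real.zero_rpow hκ0.ne']
      simp
  · have hP0 : P = 0 := by linarith
    have hP0' : P' = 0 := by linarith
    rw [hP0, hP0', add_zero, Real.zero_rpow h1κ.ne']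
    simp

lemma Wf_superadd (hκ0 : 0 < κ) (hκ1 : κ < 1) {a y a' y' : ℝ} (h : |y| ≤ δ * a)
    (h' : |y'| ≤ δ * a') : Wf δ κ a y + Wf δ κ a' y' ≤ Wf δ κ (a + a') (y + y') := by
  have h1 := abs_le.1 h
  have h2 := abs_le.1 h'
  have ha : 0 ≤ δ * a := (abs_nonneg _).trans h
  have ha' : 0 ≤ δ * a' := (abs_nonneg _).trans h'
  have g1 := geo_superadd hκ0 hκ1 (P := δ * a) (Q := δ * a - y) (P' := δ * a') (Q' := δ * a' - y')
    ha (by linarith) ha' (by linarith)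
  have g2 := geo_superadd hκ0 hκ1 (P := δ * a) (Q := δ * a + y) (P' := δ * a') (Q' := δ * a' + y')
    ha (by linarith) ha' (by linarith)
  unfold Wf
  have e1 : δ * (a + a') = δ * a + δ * a' := by ring
  have e2 : δ * a + δ * a' - (y + y') = δ * a - y + (δ * a' - y') := by ring
  have e3 : δ * a + δ * a' + (y + y') = δ * a + y + (δ * a' + y') := by ring
  rw [e1, e2, e3]
  linarith

lemma Wf_smul (hκ0 : 0 < κ) {s a y : ℝ} (hs : 0 ≤ s) (h : |y| ≤ δ * a) :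
    Wf δ κ (s * a) (s * y) = s * Wf δ κ a y := by
  have h1 := abs_le.1 h
  have ha : 0 ≤ δ * a := (abs_nonneg _).trans h
  unfold Wf
  have e1 : δ * (s * a) = s * (δ * a) := by ring
  have e2 : s * (δ * a) - s * y = s * (δ * a - y) := by ring
  have e3 : s * (δ * a) + s * y = s * (δ * a + y) := by ring
  rw [e1, e2, e3, Real.mul_rpow hs ha, Real.mul_rpow hs (by linarith),
    Real.mul_rpow hs (by linarith)]
  rcases hs.lt_or_eq with hs0 | hs0
  · have : s ^ (1 - κ) * s ^ κ = s := by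
      rw [← Real.rpow_add hs0]; simp
    calc s * a + s ^ (1 - κ) * (δ * a) ^ (1 - κ) * (s ^ κ * (δ * a - y) ^ κ + s ^ κ * (δ * a + y) ^ κ)
        = s * a + (s ^ (1 - κ) * s ^ κ) * ((δ * a) ^ (1 - κ) * ((δ * a - y) ^ κ + (δ * a + y) ^ κ)) := by
          ring
      _ = _ := by rw [this]; ring
  · rw [← hs0, Real.zero_rpow hκ0.ne']
    simp

lemma Wf_one (hδ : 0 < δ) {t : ℝ} (ht : t ∈ Icc (-1 : ℝ) 1) : Wf δ κ 1 (δ * t) = Yf δ κ t := by
  unfold Wf Yf Pf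
  have e2 : δ * 1 - δ * t = δ * (1 - t) := by ring
  have e3 : δ * 1 + δ * t = δ * (1 + t) := by ring
  rw [e2, e3, mul_one, Real.mul_rpow hδ.le (by linarith [ht.2]),
    Real.mul_rpow hδ.le (by linarith [ht.1])]
  have : δ ^ (1 - κ) * δ ^ κ = δ := by
    rw [← Real.rpow_add hδ]; simp
  calc 1 + δ ^ (1 - κ) * (δ ^ κ * (1 - t) ^ κ + δ ^ κ * (1 + t) ^ κ)
      = 1 + (δ ^ (1 - κ) * δ ^ κ) * ((1 - t) ^ κ + (1 + t) ^ κ) := by ring
    _ = _ := by rw [this]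

lemma Wf_tangent (hδ : 0 < δ) (hκ0 : 0 < κ) (hκ1 : κ < 1) {a y t : ℝ} (h : |y| ≤ δ * a)
    (ht : t ∈ Ioo (-1 : ℝ) 1) :
    Wf δ κ a y ≤ Yf δ κ t * ((1 + δ * t * eta δ κ t) * a - eta δ κ t * y) := by
  have h1 := abs_le.1 h
  have ha : 0 ≤ δ * a := (abs_nonneg _).trans h
  have h1t : 0 < 1 - t := by linarith [ht.2]
  have h2t : 0 < 1 + t := by linarith [ht.1]
  have g1 := geo_le hκ0 hκ1 (P := δ * a) (Q := δ * a - y) ha (by linarith) h1t
  have g2 := geo_le hκ0 hκ1 (P := δ * a) (Q := δ * a + y) ha (by linarith) h2t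
  have hY : Yf δ κ t ≠ 0 := by linarith [Yf_ge_one (κ := κ) hδ ht]
  have e1 : Yf δ κ t * ((1 + δ * t * eta δ κ t) * a - eta δ κ t * y) =
      (Yf δ κ t + δ * t * (κ * Df κ t)) * a - κ * Df κ t * y := by
    unfold eta
    field_simp
  rw [e1]
  have k1 : (1 - t) ^ κ = (1 - t) ^ (κ - 1) * (1 - t) := by
    rw [Real.rpow_sub h1t, Real.rpow_one]; field_simp
  have k2 : (1 + t) ^ κ = (1 + t) ^ (κ - 1) * (1 + t) := by
    rw [Real.rpow_sub h2t, Real.rpow_one]; field_simp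
  have e2 : (Yf δ κ t + δ * t * (κ * Df κ t)) * a - κ * Df κ t * y =
      a + ((1 - κ) * (1 - t) ^ κ * (δ * a) + κ * (1 - t) ^ (κ - 1) * (δ * a - y)) +
        ((1 - κ) * (1 + t) ^ κ * (δ * a) + κ * (1 + t) ^ (κ - 1) * (δ * a + y)) := by
    unfold Yf Pf Df
    rw [k1, k2]
    ring
  rw [e2]
  unfold Wf
  linarith

lemma Wf_le (hδ : 0 < δ) (hκ0 : 0 < κ) (hκ1 : κ < 1) {a y : ℝ} (h : |y| ≤ δ * a) :
    Wf δ κ a y ≤ (1 + 4 * δ) * a := by
  have h0 := Wf_tangent hδ hκ0 hκ1 h (t := 0) ⟨by norm_num, by norm_num⟩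
  rw [eta_zero] at h0
  have h1 := Yf_le (κ := κ) hδ hκ0 hκ1 (t := 0) ⟨by norm_num, by norm_num⟩
  have ha : 0 ≤ a := by
    have : 0 ≤ δ * a := (abs_nonneg _).trans h
    by_contra hcon
    push Not at hcon
    nlinarith
  have h2 : Yf δ κ 0 * a ≤ (1 + 4 * δ) * a := mul_le_mul_of_nonneg_right h1 ha
  simp at h0
  linarith

lemma Wf_continuous (hκ0 : 0 < κ) (hκ1 : κ < 1) :
    Continuous (fun x : ℝ × ℝ => Wf δ κ x.1 x.2) := by
  have c1 : Continuous (fun x : ℝ => x ^ κ) := Real.continuous_rpow_const hκ0.le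
  have c2 : Continuous (fun x : ℝ => x ^ (1 - κ)) := Real.continuous_rpow_const (by linarith)
  have d1 : Continuous (fun x : ℝ × ℝ => (δ * x.1) ^ (1 - κ)) := c2.comp (by fun_prop)
  have d2 : Continuous (fun x : ℝ × ℝ => (δ * x.1 - x.2) ^ κ) := c1.comp (by fun_prop)
  have d3 : Continuous (fun x : ℝ × ℝ => (δ * x.1 + x.2) ^ κ) := c1.comp (by fun_prop)
  unfold Wf
  exact continuous_fst.add (d1.mul (d2.add d3))

end W

section bar

variable {m : ℕ}

lemma ell_add (x y : EE (m + 2)) : ell (x + y) = ell x + ell y := by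
  ext i; rfl

lemma ell_smul (c : ℝ) (x : EE (m + 2)) : ell (c • x) = c • ell x := by
  ext i; rfl

lemma bar_add (x y : EE (m + 2)) : bar (x + y) = bar x + bar y := by
  unfold bar; rw [mk_add, ell_add]; simp

lemma bar_smul (c : ℝ) (x : EE (m + 2)) : bar (c • x) = c • bar x := by
  unfold bar; rw [mk_smul, ell_smul]; simp

lemma bar_continuous : Continuous (bar : EE (m + 2) → EE (m + 2)) := by
  have h0 : Continuous (fun x : EE (m + 2) => ((x 0, (0:ℝ)), ell x)) :=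
    Continuous.prodMk (by fun_prop) ell_continuous
  exact mk_continuous.comp h0

lemma bar_mk (x : ℝ × ℝ) (B : EE m) : bar (mk x B) = mk (x.1, 0) B := rfl

lemma abs_zero_le_bar (x : EE (m + 2)) : |x 0| ≤ ‖bar x‖ := by
  rw [← sq_le_sq₀ (abs_nonneg _) (norm_nonneg _), sq_abs]
  unfold bar
  rw [mk_normSq]
  have := sq_nonneg ‖ell x‖
  simp only
  nlinarith

lemma normSq_eq (x : EE (m + 2)) : ‖x‖ ^ 2 = ‖bar x‖ ^ 2 + (x 1) ^ 2 := by
  conv_lhs => rw [← mk_ell x]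
  unfold bar
  rw [mk_normSq, mk_normSq]
  ring

end bar

end Pool.Agent.K6.helper20.DM
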