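import Pool.Agent.K6.helper20.DM.E

set_option autoImplicit false

open Set MeasureTheory Metric
open scoped ENNReal RealInnerProductSpace

namespace Pool.Agent.K6.helper20.DM

/-- `τ` -/
noncomputable def tau {m : ℕ} (θ : EE m) : ℝ := Real.sqrt (1 + ‖θ‖ ^ 2)

/-- the radial parameter of the boundary point -/
noncomputable def xx {m : ℕ} (δ κ β c : ℝ) (z : ℝ × EE m) : ℝ :=
  (c * Yf δ κ z.1 / tau z.2 ^ β) ^ (1 / (β - 1))

section

variable {m : ℕ} {δ κ β c : ℝ}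

lemma tau_sq (θ : EE m) : tau θ ^ 2 = 1 + ‖θ‖ ^ 2 := Real.sq_sqrt (by positivity)

lemma tau_pos (θ : EE m) : 0 < tau θ := Real.sqrt_pos.2 (by positivity)

lemma one_le_tau (θ : EE m) : 1 ≤ tau θ := by
  rw [tau, Real.one_le_sqrt]
  have := sq_nonneg ‖θ‖
  linarith

lemma norm_bar_V1 (z : ℝ × EE m) : ‖bar (V1 δ z)‖ = tau z.2 := by
  have h : ‖bar (V1 δ z)‖ ^ 2 = tau z.2 ^ 2 := by
    rw [V1, bar_mk, mk_normSq, tau_sq]
    simp
  exact (pow_left_inj₀ (norm_nonneg _) (tau_pos _).le two_ne_zero).1 h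

lemma inner_V2 (z : ℝ × EE m) (x : EE (m + 2)) :
    ⟪V2 δ κ β z, x⟫ = β * ⟪(mk (1, 0) z.2 : EE (m + 2)), bar x⟫ -
      tau z.2 ^ 2 * ((1 + δ * z.1 * eta δ κ z.1) * x 0 - eta δ κ z.1 * x 1) := by
  conv_lhs => rw [← mk_ell x]
  unfold V2 bar
  rw [mk_inner, mk_inner, tau_sq, real_inner_smul_left]
  simp only
  ring

lemma inner_V2_V1 (z : ℝ × EE m) : ⟪V2 δ κ β z, V1 δ z⟫ = (β - 1) * tau z.2 ^ 2 := by
  rw [V2, V1, mk_inner, tau_sq, real_inner_smul_left, real_inner_self_eq_norm_sq]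
  simp only
  ring

lemma xx_pos (hδ : 0 < δ) (hc : 0 < c) {z : ℝ × EE m} (hz : z.1 ∈ Ioo (-1 : ℝ) 1) :
    0 < xx δ κ β c z := by
  have h1 := Yf_ge_one (κ := κ) hδ hz
  have h2 := tau_pos z.2
  unfold xx
  positivity

lemma xx_eq (hδ : 0 < δ) (hβ : 1 < β) (hc : 0 < c) {z : ℝ × EE m} (hz : z.1 ∈ Ioo (-1 : ℝ) 1) :
    xx δ κ β c z ^ (β - 1) * tau z.2 ^ β = c * Yf δ κ z.1 := by
  have h1 := Yf_ge_one (κ := κ) hδ hz
  have h2 := tau_pos z.2
  have h3 : β - 1 ≠ 0 := by linarith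
  unfold xx
  rw [← Real.rpow_mul (by positivity), one_div, inv_mul_cancel₀ h3, Real.rpow_one,
    div_mul_cancel₀]
  positivity

lemma tangentF (hδ : 0 < δ) (hκ0 : 0 < κ) (hκ1 : κ < 1) (hβ : 1 < β) (hc : 0 < c)
    {z : ℝ × EE m} (hz : z.1 ∈ Ioo (-1 : ℝ) 1) {x : EE (m + 2)} (hx : |x 1| ≤ δ * x 0) :
    c * Yf δ κ z.1 / tau z.2 ^ 2 * (⟪V2 δ κ β z, x⟫ - (β - 1) * tau z.2 ^ 2 * xx δ κ β c z) ≤
      ‖bar x‖ ^ β - c * Wf δ κ (x 0) (x 1) := by
  have hY := Yf_ge_one (κ := κ) hδ hz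
  have hτ := tau_pos z.2
  have hX := xx_pos (κ := κ) (β := β) hδ hc hz
  have hXe := xx_eq (κ := κ) hδ hβ hc hz
  have hW := Wf_tangent hδ hκ0 hκ1 hx hz
  rw [inner_V2]
  set Q := (1 + δ * z.1 * eta δ κ z.1) * x 0 - eta δ κ z.1 * x 1 with hQ
  set R := ‖bar x‖ with hR
  set τ := tau z.2 with hτd
  set X := xx δ κ β c z with hXd
  set Y := Yf δ κ z.1 with hYd
  have hCS : ⟪(mk (1, 0) z.2 : EE (m + 2)), bar x⟫ ≤ τ * R := by
    have h1 := real_inner_le_norm (mk (1, 0) z.2 : EE (m + 2)) (bar x)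
    have h2 : ‖(mk (1, 0) z.2 : EE (m + 2))‖ = τ := by
      have := norm_bar_V1 (δ := δ) z
      rw [V1, bar_mk] at this
      exact this
    rw [h2] at h1
    exact h1
  have hRn : 0 ≤ R := norm_nonneg _
  set s := R / (X * τ) with hs
  have hs0 : 0 ≤ s := by positivity
  have hRs : R = s * (X * τ) := by rw [hs]; field_simp
  have hbern : β * s - (β - 1) ≤ s ^ β := by
    have := one_add_mul_self_le_rpow_one_add (s := s - 1) (by linarith) hβ.le
    have e : 1 + (s - 1) = s := by ring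
    rw [e] at this
    linarith
  have hcY : 0 < c * Y := by positivity
  have hRβ : R ^ β = X * (c * Y) * s ^ β := by
    rw [hRs, Real.mul_rpow hs0 (by positivity), Real.mul_rpow hX.le hτ.le]
    have : X ^ β = X ^ (β - 1) * X := by
      rw [Real.rpow_sub hX, Real.rpow_one]; field_simp
    rw [this, ← hXe]
    ring
  have hk : 0 < c * Y / τ ^ 2 := by positivity
  calc c * Y / τ ^ 2 * (β * ⟪(mk (1, 0) z.2 : EE (m + 2)), bar x⟫ - τ ^ 2 * Q - (β - 1) * τ ^ 2 * X)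
      ≤ c * Y / τ ^ 2 * (β * (τ * R) - τ ^ 2 * Q - (β - 1) * τ ^ 2 * X) := by
        apply mul_le_mul_of_nonneg_left _ hk.le
        have := mul_le_mul_of_nonneg_left hCS (by linarith : (0:ℝ) ≤ β)
        linarith
    _ = X * (c * Y) * (β * s - (β - 1)) - c * (Y * Q) := by
        rw [hRs]
        field_simp
        ring
    _ ≤ X * (c * Y) * s ^ β - c * Wf δ κ (x 0) (x 1) := by
        have h1 : X * (c * Y) * (β * s - (β - 1)) ≤ X * (c * Y) * s ^ β :=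
          mul_le_mul_of_nonneg_left hbern (by positivity)
        have h2 := mul_le_mul_of_nonneg_left hW hc.le
        linarith
    _ = R ^ β - c * Wf δ κ (x 0) (x 1) := by rw [hRβ]

lemma tangentK (hδ : 0 < δ) (hκ0 : 0 < κ) (hκ1 : κ < 1) (hβ : 1 < β) (hc : 0 < c)
    {z : ℝ × EE m} (hz : z.1 ∈ Ioo (-1 : ℝ) 1) {x : EE (m + 2)} (hx : x ∈ KK m δ κ β c) :
    ⟪V2 δ κ β z, x⟫ ≤ (β - 1) * tau z.2 ^ 2 * xx δ κ β c z := by
  have h := tangentF (β := β) hδ hκ0 hκ1 hβ hc hz hx.1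
  have h2 : ‖bar x‖ ^ β - c * Wf δ κ (x 0) (x 1) ≤ 0 := by linarith [hx.2]
  have hY := Yf_ge_one (κ := κ) hδ hz
  have hτ := tau_pos z.2
  have hk : 0 < c * Yf δ κ z.1 / tau z.2 ^ 2 := by positivity
  by_contra hcon
  push Not at hcon
  have : 0 < c * Yf δ κ z.1 / tau z.2 ^ 2 *
      (⟪V2 δ κ β z, x⟫ - (β - 1) * tau z.2 ^ 2 * xx δ κ β c z) := mul_pos hk (by linarith)
  linarith

lemma V1_zero (z : ℝ × EE m) : (V1 δ z) 0 = 1 := rfl
lemma V1_one (z : ℝ × EE m) : (V1 δ z) 1 = δ * z.1 := rfl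

lemma smul_V1_cond (hδ : 0 < δ) {z : ℝ × EE m} (hz : z.1 ∈ Ioo (-1 : ℝ) 1) {s : ℝ} (hs : 0 ≤ s) :
    |(s • V1 δ z) 1| ≤ δ * (s • V1 δ z) 0 := by
  simp only [PiLp.smul_apply, smul_eq_mul, V1_zero, V1_one, abs_mul, abs_of_nonneg hs,
    abs_of_pos hδ]
  have : |z.1| ≤ 1 := abs_le.2 ⟨hz.1.le, hz.2.le⟩
  have h2 : 0 ≤ s * δ := by positivity
  nlinarith

lemma F_smul_V1 (hδ : 0 < δ) (hκ0 : 0 < κ) (hβ : 1 < β) (hc : 0 < c)
    {z : ℝ × EE m} (hz : z.1 ∈ Ioo (-1 : ℝ) 1) {s : ℝ} (hs : 0 < s) :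
    ‖bar (s • V1 δ z)‖ ^ β - c * Wf δ κ ((s • V1 δ z) 0) ((s • V1 δ z) 1) =
      s * tau z.2 ^ β * (s ^ (β - 1) - xx δ κ β c z ^ (β - 1)) := by
  have hXe := xx_eq (κ := κ) hδ hβ hc hz
  have hz' : |δ * z.1| ≤ δ * 1 := by
    rw [abs_mul, abs_of_pos hδ]
    have : |z.1| ≤ 1 := abs_le.2 ⟨hz.1.le, hz.2.le⟩
    nlinarith
  simp only [PiLp.smul_apply, smul_eq_mul, V1_zero, V1_one]
  rw [Wf_smul hκ0 hs.le hz', Wf_one hδ ⟨hz.1.le, hz.2.le⟩, bar_smul, norm_smul, Real.norm_eq_abs,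
    abs_of_pos hs, norm_bar_V1, Real.mul_rpow hs.le (tau_pos _).le]
  have e : s ^ β = s ^ (β - 1) * s := by
    rw [Real.rpow_sub hs, Real.rpow_one]; field_simp
  rw [e]
  have : c * (s * Yf δ κ z.1) = s * (c * Yf δ κ z.1) := by ring
  rw [this, ← hXe]
  ring

lemma zero_mem_KK (hκ0 : 0 < κ) (hβ : 1 < β) : (0 : EE (m + 2)) ∈ KK m δ κ β c := by
  have h0 : (bar (0 : EE (m + 2))) = 0 := by
    have := bar_smul (m := m) 0 (0 : EE (m + 2))
    simpa using this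
  refine ⟨by simp, ?_⟩
  rw [h0, norm_zero, Real.zero_rpow (by linarith)]
  unfold Wf
  simp [Real.zero_rpow hκ0.ne']

lemma mem_smul_V1 (hδ : 0 < δ) (hκ0 : 0 < κ) (hβ : 1 < β) (hc : 0 < c)
    {z : ℝ × EE m} (hz : z.1 ∈ Ioo (-1 : ℝ) 1) {s : ℝ} (hs : 0 ≤ s) :
    s • V1 δ z ∈ KK m δ κ β c ↔ s ≤ xx δ κ β c z := by
  have hX := xx_pos (κ := κ) (β := β) hδ hc hz
  rcases hs.lt_or_eq with hs0 | hs0
  · have hF := F_smul_V1 (κ := κ) hδ hκ0 hβ hc hz hs0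
    have hk : 0 < s * tau z.2 ^ β := by
      have := tau_pos z.2
      positivity
    have h1 : s • V1 δ z ∈ KK m δ κ β c ↔
        ‖bar (s • V1 δ z)‖ ^ β - c * Wf δ κ ((s • V1 δ z) 0) ((s • V1 δ z) 1) ≤ 0 := by
      rw [sub_nonpos]
      exact ⟨fun h => h.2, fun h => ⟨smul_V1_cond hδ hz hs, h⟩⟩
    rw [h1, hF, ← Real.rpow_le_rpow_iff hs hX.le (by linarith : 0 < β - 1)]
    constructor
    · intro h
      by_contra hcon
      push Not at hcon
      have := mul_pos hk (sub_pos.2 hcon)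
      linarith
    · intro h
      have := mul_nonneg hk.le (sub_nonneg.2 h)
      linarith
  · rw [← hs0, zero_smul]
    exact ⟨fun _ => hX.le, fun _ => zero_mem_KK hκ0 hβ⟩

lemma KK_convex (hκ0 : 0 < κ) (hκ1 : κ < 1) (hβ : 1 < β) (hc : 0 < c) :
    Convex ℝ (KK m δ κ β c) := by
  intro x hx y hy a b ha hb hab
  have h1 : |(a • x) 1| ≤ δ * (a • x) 0 := by
    simp only [PiLp.smul_apply, smul_eq_mul, abs_mul, abs_of_nonneg ha]
    have := mul_le_mul_of_nonneg_left hx.1 ha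
    linarith
  have h2 : |(b • y) 1| ≤ δ * (b • y) 0 := by
    simp only [PiLp.smul_apply, smul_eq_mul, abs_mul, abs_of_nonneg hb]
    have := mul_le_mul_of_nonneg_left hy.1 hb
    linarith
  refine ⟨?_, ?_⟩
  · have := abs_add_le ((a • x) 1) ((b • y) 1)
    simp only [PiLp.add_apply]
    linarith
  · have hcv : ConvexOn ℝ (Ici (0:ℝ)) (fun t : ℝ => t ^ β) := convexOn_rpow hβ.le
    have hn : ‖bar (a • x + b • y)‖ ≤ a * ‖bar x‖ + b * ‖bar y‖ := by
      rw [bar_add, bar_smul, bar_smul]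
      refine (norm_add_le _ _).trans ?_
      rw [norm_smul, norm_smul, Real.norm_eq_abs, Real.norm_eq_abs, abs_of_nonneg ha,
        abs_of_nonneg hb]
    have h3 : ‖bar (a • x + b • y)‖ ^ β ≤ a * ‖bar x‖ ^ β + b * ‖bar y‖ ^ β := by
      refine (Real.rpow_le_rpow (norm_nonneg _) hn (by linarith)).trans ?_
      have := hcv.2 (mem_Ici.2 (norm_nonneg (bar x))) (mem_Ici.2 (norm_nonneg (bar y))) ha hb hab
      simpa using this
    have h4 := Wf_superadd hκ0 hκ1 h1 h2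
    have h5 : Wf δ κ ((a • x) 0) ((a • x) 1) = a * Wf δ κ (x 0) (x 1) := by
      simp only [PiLp.smul_apply, smul_eq_mul]
      exact Wf_smul hκ0 ha hx.1
    have h6 : Wf δ κ ((b • y) 0) ((b • y) 1) = b * Wf δ κ (y 0) (y 1) := by
      simp only [PiLp.smul_apply, smul_eq_mul]
      exact Wf_smul hκ0 hb hy.1
    simp only [PiLp.add_apply]
    have h7 := mul_le_mul_of_nonneg_left hx.2 ha
    have h8 := mul_le_mul_of_nonneg_left hy.2 hb
    rw [h5, h6] at h4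
    have h9 := mul_le_mul_of_nonneg_left h4 hc.le
    linarith

lemma KK_isClosed (hκ0 : 0 < κ) (hκ1 : κ < 1) (hβ : 1 < β) : IsClosed (KK m δ κ β c) := by
  have c1 : Continuous (fun x : EE (m + 2) => Wf δ κ (x 0) (x 1)) :=
    (Wf_continuous hκ0 hκ1).comp (f := fun x : EE (m + 2) => (x 0, x 1)) (by fun_prop)
  have c2 : Continuous (fun x : EE (m + 2) => ‖bar x‖ ^ β) :=
    (Real.continuous_rpow_const (by linarith)).comp bar_continuous.norm
  have c3 : Continuous (fun x : EE (m + 2) => |x 1|) := by fun_prop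
  have c4 : Continuous (fun x : EE (m + 2) => δ * x 0) := by fun_prop
  exact (isClosed_le c3 c4).inter (isClosed_le c2 (continuous_const.mul c1))

lemma KK_isCompact (hδ : 0 < δ) (hκ0 : 0 < κ) (hκ1 : κ < 1) (hβ : 1 < β) (hc : 0 < c) :
    IsCompact (KK m δ κ β c) := by
  refine Metric.isCompact_of_isClosed_isBounded (KK_isClosed hκ0 hκ1 hβ) ?_
  set M : ℝ := (c * (1 + 4 * δ)) ^ (1 / (β - 1)) with hM
  have hM0 : 0 ≤ M := by positivity
  rw [isBounded_iff_forall_norm_le]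
  refine ⟨(1 + δ) * M, fun x hx => ?_⟩
  have hR : ‖bar x‖ ≤ M := by
    rcases (norm_nonneg (bar x)).lt_or_eq with h0 | h0
    · have h1 := Wf_le hδ hκ0 hκ1 hx.1
      have h2 : x 0 ≤ ‖bar x‖ := (le_abs_self _).trans (abs_zero_le_bar x)
      have h3 : ‖bar x‖ ^ β ≤ c * (1 + 4 * δ) * ‖bar x‖ := by
        refine hx.2.trans ?_
        have : Wf δ κ (x 0) (x 1) ≤ (1 + 4 * δ) * ‖bar x‖ :=
          h1.trans (mul_le_mul_of_nonneg_left h2 (by positivity))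
        have := mul_le_mul_of_nonneg_left this hc.le
        linarith
      have h4 : ‖bar x‖ ^ (β - 1) ≤ c * (1 + 4 * δ) := by
        rw [Real.rpow_sub h0, Real.rpow_one, div_le_iff₀ h0]
        exact h3
      have h5 : (‖bar x‖ ^ (β - 1)) ^ (1 / (β - 1)) ≤ M := by
        rw [hM]
        refine Real.rpow_le_rpow (by positivity) h4 ?_
        have : 0 < β - 1 := by linarith
        positivity
      rwa [← Real.rpow_mul h0.le, mul_one_div_cancel (by linarith), Real.rpow_one] at h5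
    · rw [← h0]; exact hM0
  have h2 : x 0 ≤ ‖bar x‖ := (le_abs_self _).trans (abs_zero_le_bar x)
  have h6 : |x 1| ≤ δ * M := hx.1.trans (mul_le_mul_of_nonneg_left (h2.trans hR) hδ.le)
  have h7 : ‖x‖ ≤ ‖bar x‖ + |x 1| := by
    rw [← sq_le_sq₀ (norm_nonneg _) (by positivity), normSq_eq, ← sq_abs (x 1)]
    have := mul_nonneg (norm_nonneg (bar x)) (abs_nonneg (x 1))
    nlinarith
  linarith

lemma KK_interior (hδ : 0 < δ) (hκ0 : 0 < κ) (hκ1 : κ < 1) (hβ : 1 < β) (hc : 0 < c) :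
    (interior (KK m δ κ β c)).Nonempty := by
  have c1 : Continuous (fun x : EE (m + 2) => Wf δ κ (x 0) (x 1)) :=
    (Wf_continuous hκ0 hκ1).comp (f := fun x : EE (m + 2) => (x 0, x 1)) (by fun_prop)
  have c2 : Continuous (fun x : EE (m + 2) => ‖bar x‖ ^ β) :=
    (Real.continuous_rpow_const (by linarith)).comp bar_continuous.norm
  have c3 : Continuous (fun x : EE (m + 2) => |x 1|) := by fun_prop
  have c4 : Continuous (fun x : EE (m + 2) => δ * x 0) := by fun_prop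
  have hopen : IsOpen {x : EE (m + 2) | |x 1| < δ * x 0 ∧
      ‖bar x‖ ^ β < c * Wf δ κ (x 0) (x 1)} :=
    (isOpen_lt c3 c4).inter (isOpen_lt c2 (continuous_const.mul c1))
  have hsub : {x : EE (m + 2) | |x 1| < δ * x 0 ∧ ‖bar x‖ ^ β < c * Wf δ κ (x 0) (x 1)} ⊆
      KK m δ κ β c := fun x hx => ⟨hx.1.le, hx.2.le⟩
  have hz : ((0 : ℝ), (0 : EE m)).1 ∈ Ioo (-1 : ℝ) 1 := ⟨by norm_num, by norm_num⟩
  have hX := xx_pos (κ := κ) (β := β) hδ hc hz
  set X := xx δ κ β c ((0 : ℝ), (0 : EE m)) with hXd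
  have hF := F_smul_V1 (κ := κ) hδ hκ0 hβ hc hz (s := X / 2) (by positivity)
  refine ⟨(X / 2) • V1 δ ((0 : ℝ), (0 : EE m)), mem_interior.2 ⟨_, hsub, hopen, ?_, ?_⟩⟩
  · simp only [PiLp.smul_apply, smul_eq_mul, V1_zero, V1_one, mul_zero, abs_zero]
    positivity
  · have h1 : (X / 2) ^ (β - 1) < X ^ (β - 1) :=
      Real.rpow_lt_rpow (by positivity) (by linarith) (by linarith)
    have h2 : 0 < X / 2 * tau (0 : EE m) ^ β := by
      have := tau_pos (0 : EE m)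
      positivity
    rw [← hXd] at hF
    have h3 := mul_pos h2 (sub_pos.2 h1)
    linarith

end

end Pool.Agent.K6.helper20.DM
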