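import Pool.Agent.K6.helper20.DM.F

set_option autoImplicit false

open Set MeasureTheory Metric Filter Topology
open scoped ENNReal RealInnerProductSpace

namespace Pool.Agent.K6.helper20.DM

section

variable {m : ℕ} {δ κ β c : ℝ}

lemma KK_isBody (hδ : 0 < δ) (hκ0 : 0 < κ) (hκ1 : κ < 1) (hβ : 1 < β) (hc : 0 < c) :
    IsBody (KK m δ κ β c) :=
  ⟨KK_isCompact hδ hκ0 hκ1 hβ hc, KK_convex hκ0 hκ1 hβ hc, KK_interior hδ hκ0 hκ1 hβ hc,
    zero_mem_KK hκ0 hβ⟩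

lemma norm_V1_pos (z : ℝ × EE m) : 0 < ‖V1 δ z‖ := norm_pos_iff.2 (V1_ne_zero z)

lemma norm_V2_pos (hβ : 1 < β) (z : ℝ × EE m) : 0 < ‖V2 δ κ β z‖ := norm_pos_iff.2 (V2_ne_zero hβ z)

lemma radial_V1 (hδ : 0 < δ) (hκ0 : 0 < κ) (hβ : 1 < β) (hc : 0 < c)
    {z : ℝ × EE m} (hz : z.1 ∈ Ioo (-1 : ℝ) 1) :
    radial (KK m δ κ β c) (‖V1 δ z‖⁻¹ • V1 δ z) = xx δ κ β c z * ‖V1 δ z‖ := by
  have hV := norm_V1_pos (δ := δ) z
  have hX := xx_pos (κ := κ) (β := β) hδ hc hz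
  have : {t : ℝ | 0 ≤ t ∧ t • (‖V1 δ z‖⁻¹ • V1 δ z) ∈ KK m δ κ β c} =
      Icc 0 (xx δ κ β c z * ‖V1 δ z‖) := by
    ext t
    simp only [mem_ofPred_eq, mem_Icc]
    refine and_congr_right (fun ht => ?_)
    rw [smul_smul, mem_smul_V1 hδ hκ0 hβ hc hz (by positivity), ← div_eq_mul_inv,
      div_le_iff₀ hV]
  unfold radial
  rw [this, csSup_Icc (by positivity)]

lemma radial_smul_V1 (hδ : 0 < δ) (hκ0 : 0 < κ) (hβ : 1 < β) (hc : 0 < c)
    {z : ℝ × EE m} (hz : z.1 ∈ Ioo (-1 : ℝ) 1) :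
    radial (KK m δ κ β c) (‖V1 δ z‖⁻¹ • V1 δ z) • (‖V1 δ z‖⁻¹ • V1 δ z) =
      xx δ κ β c z • V1 δ z := by
  have hV := norm_V1_pos (δ := δ) z
  rw [radial_V1 hδ hκ0 hβ hc hz, smul_smul]
  congr 1
  field_simp

lemma inner_V2_X (z : ℝ × EE m) :
    ⟪V2 δ κ β z, xx δ κ β c z • V1 δ z⟫ = (β - 1) * tau z.2 ^ 2 * xx δ κ β c z := by
  rw [real_inner_smul_right, inner_V2_V1]
  ring

lemma normal_V2 (hδ : 0 < δ) (hκ0 : 0 < κ) (hκ1 : κ < 1) (hβ : 1 < β) (hc : 0 < c)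
    {z : ℝ × EE m} (hz : z.1 ∈ Ioo (-1 : ℝ) 1) :
    IsNormal (KK m δ κ β c) (xx δ κ β c z • V1 δ z) (‖V2 δ κ β z‖⁻¹ • V2 δ κ β z) := by
  intro y hy
  have h := tangentK hδ hκ0 hκ1 hβ hc hz hy
  rw [real_inner_smul_left, real_inner_smul_left, inner_V2_X]
  exact mul_le_mul_of_nonneg_left h (by positivity)

lemma X_mem (hδ : 0 < δ) (hκ0 : 0 < κ) (hβ : 1 < β) (hc : 0 < c)
    {z : ℝ × EE m} (hz : z.1 ∈ Ioo (-1 : ℝ) 1) : xx δ κ β c z • V1 δ z ∈ KK m δ κ β c :=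
  (mem_smul_V1 hδ hκ0 hβ hc hz (xx_pos hδ hc hz).le).2 le_rfl

lemma supp_V2 (hδ : 0 < δ) (hκ0 : 0 < κ) (hκ1 : κ < 1) (hβ : 1 < β) (hc : 0 < c)
    {z : ℝ × EE m} (hz : z.1 ∈ Ioo (-1 : ℝ) 1) :
    supp (KK m δ κ β c) (‖V2 δ κ β z‖⁻¹ • V2 δ κ β z) =
      ‖V2 δ κ β z‖⁻¹ * ((β - 1) * tau z.2 ^ 2 * xx δ κ β c z) := by
  unfold supp
  apply IsGreatest.csSup_eq
  constructor
  · refine ⟨xx δ κ β c z • V1 δ z, X_mem hδ hκ0 hβ hc hz, ?_⟩
    simp only
    rw [real_inner_smul_left, inner_V2_X]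
  · rintro _ ⟨y, hy, rfl⟩
    simp only
    rw [real_inner_smul_left]
    exact mul_le_mul_of_nonneg_left (tangentK hδ hκ0 hκ1 hβ hc hz hy) (by positivity)

lemma X_zero (z : ℝ × EE m) : (xx δ κ β c z • V1 δ z) 0 = xx δ κ β c z := by
  simp [V1_zero]

lemma X_one (z : ℝ × EE m) : (xx δ κ β c z • V1 δ z) 1 = xx δ κ β c z * (δ * z.1) := by
  simp [V1_one]

lemma halfspace (hδ : 0 < δ) (hκ0 : 0 < κ) (hκ1 : κ < 1) (hβ : 1 < β) (hc : 0 < c)
    {z : ℝ × EE m} (hz : z.1 ∈ Ioo (-1 : ℝ) 1) {v : EE (m + 2)} (hv : ⟪V2 δ κ β z, v⟫ < 0) :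
    ∃ s : ℝ, 0 < s ∧ xx δ κ β c z • V1 δ z + s • v ∈ KK m δ κ β c := by
  have hX := xx_pos (κ := κ) (β := β) hδ hc hz
  have hY := Yf_ge_one (κ := κ) hδ hz
  have hτ := tau_pos z.2
  set X := xx δ κ β c z • V1 δ z with hXd
  set φ : ℝ → ℝ := fun s => ‖bar (X + s • v)‖ ^ β - c * Wf δ κ ((X + s • v) 0) ((X + s • v) 1) with hφ
  have hX0 : X 0 = xx δ κ β c z := X_zero z
  have hX1 : X 1 = xx δ κ β c z * (δ * z.1) := X_one z
  have ht1 := hz.1
  have ht2 := hz.2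
  have hpos1 : 0 < δ * X 0 - X 1 := by
    rw [hX0, hX1]
    have : 0 < xx δ κ β c z * δ * (1 - z.1) := mul_pos (by positivity) (by linarith)
    linarith
  have hpos2 : 0 < δ * X 0 + X 1 := by
    rw [hX0, hX1]
    have : 0 < xx δ κ β c z * δ * (1 + z.1) := mul_pos (by positivity) (by linarith)
    linarith
  -- differentiability
  have hbar0 : bar X ≠ 0 := by
    intro h
    have h2 : (bar X) 0 = 0 := by rw [h]; rfl
    have h3 : (bar X) 0 = X 0 := rfl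
    rw [h3, hX0] at h2
    linarith
  have hdiff : DifferentiableAt ℝ φ 0 := by
    have d0 : DifferentiableAt ℝ (fun s : ℝ => bar (X + s • v)) 0 := by
      have : (fun s : ℝ => bar (X + s • v)) = fun s : ℝ => bar X + s • bar v := by
        funext s; rw [bar_add X (s • v), bar_smul s v]
      rw [this]
      fun_prop
    have e0 : bar (X + (0 : ℝ) • v) = bar X := by simp
    have d1 : DifferentiableAt ℝ (fun s : ℝ => ‖bar (X + s • v)‖) 0 :=
      d0.norm ℝ (by rw [e0]; exact hbar0)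
    have d2 : DifferentiableAt ℝ (fun s : ℝ => ‖bar (X + s • v)‖ ^ β) 0 :=
      d1.rpow_const (Or.inl (by rw [e0]; exact norm_ne_zero_iff.2 hbar0))
    have d3 : DifferentiableAt ℝ (fun s : ℝ => δ * (X + s • v) 0) 0 := by
      simp only [PiLp.add_apply, PiLp.smul_apply, smul_eq_mul]
      fun_prop
    have d4 : DifferentiableAt ℝ (fun s : ℝ => (X + s • v) 1) 0 := by
      simp only [PiLp.add_apply, PiLp.smul_apply, smul_eq_mul]
      fun_prop
    have d5 : DifferentiableAt ℝ (fun s : ℝ => (X + s • v) 0) 0 := by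
      simp only [PiLp.add_apply, PiLp.smul_apply, smul_eq_mul]
      fun_prop
    have d6 : DifferentiableAt ℝ (fun s : ℝ => (δ * (X + s • v) 0) ^ (1 - κ)) 0 := by
      refine d3.rpow_const (Or.inl ?_)
      simp only [zero_smul, add_zero, hX0]
      positivity
    have d7 : DifferentiableAt ℝ (fun s : ℝ => (δ * (X + s • v) 0 - (X + s • v) 1) ^ κ) 0 := by
      refine (d3.sub d4).rpow_const (Or.inl ?_)
      change δ * (X + (0 : ℝ) • v) 0 - (X + (0 : ℝ) • v) 1 ≠ 0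
      rw [zero_smul, add_zero]
      exact hpos1.ne'
    have d8 : DifferentiableAt ℝ (fun s : ℝ => (δ * (X + s • v) 0 + (X + s • v) 1) ^ κ) 0 := by
      refine (d3.add d4).rpow_const (Or.inl ?_)
      change δ * (X + (0 : ℝ) • v) 0 + (X + (0 : ℝ) • v) 1 ≠ 0
      rw [zero_smul, add_zero]
      exact hpos2.ne'
    exact d2.sub ((d5.add (d6.mul (d7.add d8))).const_mul c)
  have hφ0 : φ 0 = 0 := by
    have hF := F_smul_V1 (κ := κ) hδ hκ0 hβ hc hz hX
    simp only [hφ, zero_smul, add_zero]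
    rw [hF]
    ring
  -- tangent lower bound near zero
  set k := c * Yf δ κ z.1 / tau z.2 ^ 2 * ⟪V2 δ κ β z, v⟫ with hk
  have hkneg : k < 0 := mul_neg_of_pos_of_neg (by positivity) hv
  have hcond : ∀ᶠ s in 𝓝 (0 : ℝ), |(X + s • v) 1| ≤ δ * (X + s • v) 0 := by
    have c1 : Continuous (fun s : ℝ => δ * (X + s • v) 0 - |(X + s • v) 1|) := by
      simp only [PiLp.add_apply, PiLp.smul_apply, smul_eq_mul]
      fun_prop
    have : 0 < δ * (X + (0 : ℝ) • v) 0 - |(X + (0 : ℝ) • v) 1| := by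
      simp only [zero_smul, add_zero]
      rw [sub_pos, abs_lt]
      constructor <;> linarith
    filter_upwards [c1.continuousAt.eventually (lt_mem_nhds this)] with s hs
    linarith
  have hlow : ∀ᶠ s in 𝓝 (0 : ℝ), k * s ≤ φ s := by
    filter_upwards [hcond] with s hs
    have h := tangentF (β := β) hδ hκ0 hκ1 hβ hc hz hs
    rw [inner_add_right, real_inner_smul_right _ v s, hXd, inner_V2_X, ← hXd] at h
    simp only [hφ, hk]
    refine le_trans (le_of_eq ?_) h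
    ring
  have hder : HasDerivAt φ (deriv φ 0) 0 := hdiff.hasDerivAt
  have hderk : deriv φ 0 = k := by
    have h1 : HasDerivAt (fun s => φ s - k * s) (deriv φ 0 - k) 0 := by
      have h2 : HasDerivAt (fun s : ℝ => k * s) k 0 := by
        simpa using (hasDerivAt_id (0 : ℝ)).const_mul k
      exact hder.sub h2
    have h3 : IsLocalMin (fun s => φ s - k * s) 0 := by
      filter_upwards [hlow] with s hs
      simp only [hφ0, mul_zero, sub_zero]
      linarith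
    have := h3.hasDerivAt_eq_zero h1
    linarith
  rw [hderk] at hder
  have hslope := hder.tendsto_slope_zero_right
  have hev : ∀ᶠ s in 𝓝[>] (0 : ℝ), s⁻¹ • (φ (0 + s) - φ 0) < 0 := hslope.eventually (gt_mem_nhds hkneg)
  have hev2 : ∀ᶠ s in 𝓝[>] (0 : ℝ), |(X + s • v) 1| ≤ δ * (X + s • v) 0 :=
    hcond.filter_mono nhdsWithin_le_nhds
  have hev3 : ∀ᶠ s in 𝓝[>] (0 : ℝ), 0 < s := eventually_mem_nhdsWithin
  obtain ⟨s, hs1, hs2, hs3⟩ := (hev.and (hev2.and hev3)).exists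
  refine ⟨s, hs3, hs2, ?_⟩
  rw [hφ0, zero_add, sub_zero, smul_eq_mul] at hs1
  have : φ s < 0 := by
    by_contra hcon
    push Not at hcon
    have := mul_nonneg (inv_nonneg.2 hs3.le) hcon
    linarith
  simp only [hφ] at this
  linarith

lemma normal_unique (hδ : 0 < δ) (hκ0 : 0 < κ) (hκ1 : κ < 1) (hβ : 1 < β) (hc : 0 < c)
    {z : ℝ × EE m} (hz : z.1 ∈ Ioo (-1 : ℝ) 1) {u : EE (m + 2)} (hu : ‖u‖ = 1)
    (hn : IsNormal (KK m δ κ β c) (xx δ κ β c z • V1 δ z) u) :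
    u = ‖V2 δ κ β z‖⁻¹ • V2 δ κ β z := by
  have hV := norm_V2_pos (δ := δ) (κ := κ) hβ z
  set V := V2 δ κ β z with hVd
  have key : ∀ v : EE (m + 2), ⟪V, v⟫ < 0 → ⟪u, v⟫ ≤ 0 := by
    intro v hv
    obtain ⟨s, hs, hmem⟩ := halfspace hδ hκ0 hκ1 hβ hc hz hv
    have := hn _ hmem
    rw [inner_add_right, real_inner_smul_right u v s] at this
    have h2 : s * ⟪u, v⟫ ≤ 0 := by linarith
    by_contra hcon
    push Not at hcon
    have := mul_pos hs hcon
    linarith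
  set lam := ⟪u, V⟫ / ‖V‖ ^ 2 with hlam
  set w := u - lam • V with hw
  have hVw : ⟪V, w⟫ = 0 := by
    rw [hw, inner_sub_right, real_inner_smul_right, real_inner_self_eq_norm_sq, hlam,
      real_inner_comm V u]
    field_simp
    ring
  have huw : ⟪u, w⟫ = ‖w‖ ^ 2 := by
    have : u = w + lam • V := by rw [hw]; abel
    conv_lhs => rw [this]
    rw [inner_add_left, real_inner_smul_left, hVw, real_inner_self_eq_norm_sq]
    ring
  have hle : ∀ ε : ℝ, 0 < ε → ‖w‖ ^ 2 ≤ ε * ⟪u, V⟫ := by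
    intro ε hε
    have h1 : ⟪V, w - ε • V⟫ < 0 := by
      rw [inner_sub_right, hVw, real_inner_smul_right, real_inner_self_eq_norm_sq]
      have : 0 < ε * ‖V‖ ^ 2 := by positivity
      linarith
    have h2 := key _ h1
    rw [inner_sub_right, real_inner_smul_right, huw] at h2
    linarith
  have hlam0 : 0 ≤ ⟪u, V⟫ := by
    have := hle 1 one_pos
    have h3 := sq_nonneg ‖w‖
    linarith
  have hw0 : ‖w‖ ^ 2 ≤ 0 := by
    by_contra hcon
    push Not at hcon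
    have h4 := hle (‖w‖ ^ 2 / (2 * (⟪u, V⟫ + 1))) (by positivity)
    have h5 : ‖w‖ ^ 2 / (2 * (⟪u, V⟫ + 1)) * ⟪u, V⟫ ≤ ‖w‖ ^ 2 / 2 := by
      rw [div_mul_eq_mul_div, div_le_div_iff₀ (by positivity) (by positivity)]
      nlinarith
    linarith
  have hw1 : w = 0 := by
    have : ‖w‖ = 0 := by
      have := sq_nonneg ‖w‖
      have h : ‖w‖ ^ 2 = 0 := le_antisymm hw0 this
      exact pow_eq_zero_iff two_ne_zero |>.1 h
    exact norm_eq_zero.1 this
  have hu2 : u = lam • V := by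
    have : u = w + lam • V := by rw [hw]; abel
    rw [this, hw1, zero_add]
  have hlampos : 0 ≤ lam := by positivity
  have h1 : lam * ‖V‖ = 1 := by
    rw [hu2, norm_smul, Real.norm_eq_abs, abs_of_nonneg hlampos] at hu
    exact hu
  rw [hu2]
  congr 1
  exact eq_inv_of_mul_eq_one_left h1

end

end Pool.Agent.K6.helper20.DM
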