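import Pool.Agent.K6.helper20.DM.G

set_option autoImplicit false

open Set MeasureTheory Metric Filter Topology
open scoped ENNReal RealInnerProductSpace

namespace Pool.Agent.K6.helper20.DM

/-- inverse of the parametrisation of directions in the cone -/
noncomputable def zz {m : ℕ} (δ : ℝ) (x : EE (m + 2)) : ℝ × EE m :=
  (x 1 / (δ * x 0), (x 0)⁻¹ • ell x)

/-- parameter measure -/
noncomputable def nu (m : ℕ) : Measure (ℝ × EE m) :=
  ((volume : Measure ℝ).restrict (Ioo (-1) 1)).prod (volume : Measure (EE m))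

/-- density of the dual curvature in the parameters -/
noncomputable def f1 {m : ℕ} (δ κ β c q : ℝ) (z : ℝ × EE m) : ℝ≥0∞ :=
  ENNReal.ofReal δ * ENNReal.ofReal ((‖V1 δ z‖⁻¹) ^ (m + 2)) *
    ENNReal.ofReal ((xx δ κ β c z * ‖V1 δ z‖) ^ q)

/-- density of the sphere measure in the parameters -/
noncomputable def f2 {m : ℕ} (δ κ β : ℝ) (z : ℝ × EE m) : ℝ≥0∞ :=
  ENNReal.ofReal (jj δ κ β z) * ENNReal.ofReal ((‖V2 δ κ β z‖⁻¹) ^ (m + 2))

section

variable {m : ℕ} {δ κ β c : ℝ}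

lemma measurable_dir : Measurable (fun x : EE (m + 2) => ‖x‖⁻¹ • x) :=
  (measurable_norm.inv).smul measurable_id

lemma measurable_zz : Measurable (zz (m := m) δ) := by
  unfold zz
  have h0 : Measurable (fun x : EE (m + 2) => x 0) := by fun_prop
  have h1 : Measurable (fun x : EE (m + 2) => x 1) := by fun_prop
  have h2 : Measurable (ell (m := m)) := ell_continuous.measurable
  exact (h1.div (h0.const_mul δ)).prodMk (h0.inv.smul h2)

lemma measurable_xx : Measurable (xx (m := m) δ κ β c) := by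
  have h1 : Measurable (fun z : ℝ × EE m => Yf δ κ z.1) := measurable_Yf.comp measurable_fst
  have h2 : Measurable (fun z : ℝ × EE m => tau z.2) := by
    unfold tau; fun_prop
  unfold xx
  exact ((h1.const_mul c).div (h2.pow_const β)).pow_const _

/-- the Gauss map in the parameters -/
noncomputable def NN (hβ : 1 < β) (z : ℝ × EE m) : sphere (0 : EE (m + 2)) 1 :=
  ⟨‖V2 δ κ β z‖⁻¹ • V2 δ κ β z, by
    have h := norm_V2_pos (δ := δ) (κ := κ) hβ z
    rw [mem_sphere_zero_iff_norm, norm_smul, norm_inv, norm_norm, inv_mul_cancel₀ h.ne']⟩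

lemma measurable_NN (hβ : 1 < β) : Measurable (NN (m := m) (δ := δ) (κ := κ) hβ) :=
  Measurable.subtype_mk (measurable_dir.comp measurable_V2)

lemma measurable_f1 {q : ℝ} : Measurable (f1 (m := m) δ κ β c q) := by
  unfold f1
  have h1 : Measurable (fun z : ℝ × EE m => ‖V1 δ z‖) := measurable_V1.norm
  have h2 := measurable_xx (m := m) (δ := δ) (κ := κ) (β := β) (c := c)
  exact (measurable_const.mul (ENNReal.measurable_ofReal.comp (h1.inv.pow_const _))).mul
    (ENNReal.measurable_ofReal.comp ((h2.mul h1).pow_const _))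

lemma measurable_f2 : Measurable (f2 (m := m) δ κ β) := by
  unfold f2
  have h1 : Measurable (fun z : ℝ × EE m => ‖V2 δ κ β z‖) := measurable_V2.norm
  exact (ENNReal.measurable_ofReal.comp measurable_jj).mul
    (ENNReal.measurable_ofReal.comp (h1.inv.pow_const _))

lemma Uc_eq_V1 (hδ : 0 < δ) {x : EE (m + 2)} (hx : x ∈ Uc m δ) : x 0 • V1 δ (zz δ x) = x := by
  have h0 : 0 < x 0 := hx.1
  conv_rhs => rw [← mk_ell x]
  rw [V1, mk_smul, zz]
  congr 1
  · simp only [Prod.smul_mk, smul_eq_mul, mul_one, Prod.mk.injEq, true_and]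
    field_simp
  · simp only [smul_smul]
    rw [mul_inv_cancel₀ h0.ne', one_smul]

lemma zz_mem (hδ : 0 < δ) {x : EE (m + 2)} (hx : x ∈ Uc m δ) : (zz δ x).1 ∈ Ioo (-1 : ℝ) 1 := by
  have h0 : 0 < δ * x 0 := mul_pos hδ hx.1
  simp only [zz]
  rw [mem_Ioo, ← abs_lt, abs_div, abs_of_pos h0, div_lt_one h0]
  exact hx.2

lemma Uc_dir (hδ : 0 < δ) {x : EE (m + 2)} (hx : x ∈ Uc m δ) (hx1 : ‖x‖ = 1) :
    ‖V1 δ (zz δ x)‖⁻¹ • V1 δ (zz δ x) = x := by
  have h0 : 0 < x 0 := hx.1
  have h := Uc_eq_V1 hδ hx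
  have hn : x 0 * ‖V1 δ (zz δ x)‖ = 1 := by
    have := congrArg norm h
    rw [norm_smul, Real.norm_eq_abs, abs_of_pos h0, hx1] at this
    exact this
  have : ‖V1 δ (zz δ x)‖⁻¹ = x 0 := (eq_inv_of_mul_eq_one_left hn).symm
  rw [this, h]

lemma zz_V1 (hδ : 0 < δ) (z : ℝ × EE m) : zz δ (‖V1 δ z‖⁻¹ • V1 δ z) = z := by
  have hV := inv_pos.2 (norm_V1_pos (δ := δ) z)
  set s := ‖V1 δ z‖⁻¹
  unfold zz
  have e : ell (s • V1 δ z) = s • z.2 := by rw [ell_smul]; rfl
  rw [e]
  simp only [PiLp.smul_apply, smul_eq_mul, V1_zero, V1_one, mul_one, smul_smul]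
  rw [inv_mul_cancel₀ hV.ne', one_smul]
  ext
  · simp only
    field_simp
  · rfl

lemma alphaStar_iff (hδ : 0 < δ) (hκ0 : 0 < κ) (hκ1 : κ < 1) (hβ : 1 < β) (hc : 0 < c)
    {ω : Set (sphere (0 : EE (m + 2)) 1)} {w : sphere (0 : EE (m + 2)) 1} (hw : w.1 ∈ Uc m δ) :
    w ∈ alphaStar (KK m δ κ β c) ω ↔ NN (δ := δ) (κ := κ) hβ (zz δ w.1) ∈ ω := by
  have hz := zz_mem hδ hw
  have hw1 : ‖w.1‖ = 1 := mem_sphere_zero_iff_norm.1 w.2
  have hd := Uc_dir hδ hw hw1
  have hrad : radial (KK m δ κ β c) w.1 • w.1 = xx δ κ β c (zz δ w.1) • V1 δ (zz δ w.1) := by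
    have := radial_smul_V1 (κ := κ) (β := β) (c := c) hδ hκ0 hβ hc hz
    rw [hd] at this
    exact this
  unfold alphaStar
  simp only [mem_ofPred_eq]
  rw [hrad]
  constructor
  · rintro ⟨u, hu, hn⟩
    have h1 := normal_unique hδ hκ0 hκ1 hβ hc hz (mem_sphere_zero_iff_norm.1 u.2) hn
    have : NN (δ := δ) (κ := κ) hβ (zz δ w.1) = u := Subtype.ext h1.symm
    rw [this]
    exact hu
  · intro h
    exact ⟨_, h, normal_V2 hδ hκ0 hκ1 hβ hc hz⟩

lemma radial_Uc (hδ : 0 < δ) (hκ0 : 0 < κ) (hβ : 1 < β) (hc : 0 < c)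
    {w : EE (m + 2)} (hw : w ∈ Uc m δ) (hw1 : ‖w‖ = 1) :
    radial (KK m δ κ β c) w = xx δ κ β c (zz δ w) * ‖V1 δ (zz δ w)‖ := by
  have hz := zz_mem hδ hw
  have hd := Uc_dir hδ hw hw1
  have := radial_V1 (κ := κ) (β := β) (c := c) hδ hκ0 hβ hc hz
  rwa [hd] at this

lemma radial_off (hκ0 : 0 < κ) (hβ : 1 < β) {w : EE (m + 2)} (hw : δ * w 0 < |w 1|) :
    radial (KK m δ κ β c) w = 0 := by
  have : {t : ℝ | 0 ≤ t ∧ t • w ∈ KK m δ κ β c} = {0} := by
    ext t
    simp only [mem_ofPred_eq, mem_singleton_iff]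
    constructor
    · rintro ⟨h0, h1⟩
      by_contra hne
      have ht : 0 < t := lt_of_le_of_ne h0 (Ne.symm hne)
      have h2 := h1.1
      simp only [PiLp.smul_apply, smul_eq_mul, abs_mul, abs_of_pos ht] at h2
      have := mul_lt_mul_of_pos_left hw ht
      linarith
    · rintro rfl
      exact ⟨le_rfl, by rw [zero_smul]; exact zero_mem_KK hκ0 hβ⟩
  unfold radial
  rw [this, csSup_singleton]

lemma volume_bd : (volume : Measure (EE (m + 2))) {x | |x 1| = δ * x 0} = 0 := by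
  have hker : ∀ s : ℝ, (volume : Measure (EE (m + 2))) {x | x 1 = s * x 0} = 0 := by
    intro s
    let L : EE (m + 2) →ₗ[ℝ] ℝ :=
      { toFun := fun x => x 1 - s * x 0
        map_add' := fun x y => by simp only [PiLp.add_apply]; ring
        map_smul' := fun a x => by simp only [PiLp.smul_apply, smul_eq_mul, RingHom.id_apply]; ring }
    have h1 : {x : EE (m + 2) | x 1 = s * x 0} = (LinearMap.ker L : Set (EE (m + 2))) := by
      ext x
      simp only [mem_ofPred_eq, SetLike.mem_coe, LinearMap.mem_ker]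
      change x 1 = s * x 0 ↔ x 1 - s * x 0 = 0
      rw [sub_eq_zero]
    rw [h1]
    refine Measure.addHaar_submodule volume _ ?_
    intro htop
    have : (mk (0, 1) 0 : EE (m + 2)) ∈ LinearMap.ker L := by rw [htop]; trivial
    rw [LinearMap.mem_ker] at this
    change (1 : ℝ) - s * 0 = 0 at this
    norm_num at this
  have hsub : {x : EE (m + 2) | |x 1| = δ * x 0} ⊆
      {x | x 1 = δ * x 0} ∪ {x | x 1 = (-δ) * x 0} := by
    intro x hx
    have hx' : |x 1| = δ * x 0 := hx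
    rcases abs_cases (x 1) with h | h
    · left; change x 1 = δ * x 0; linarith
    · right; change x 1 = -δ * x 0; linarith
  exact measure_mono_null hsub (measure_union_null (hker _) (hker _))

lemma sigma_bd : (sigma (m + 2)) {w | |w.1 1| = δ * w.1 0} = 0 := by
  have hS : MeasurableSet {x : EE (m + 2) | |x 1| = δ * x 0} := by
    have h1 : Measurable (fun x : EE (m + 2) => |x 1|) := by fun_prop
    have h2 : Measurable (fun x : EE (m + 2) => δ * x 0) := by fun_prop
    exact measurableSet_eq_fun h1 h2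
  have hS' : MeasurableSet {w : sphere (0 : EE (m + 2)) 1 | |w.1 1| = δ * w.1 0} :=
    measurable_subtype_coe hS
  have h1 := sphere_lintegral (n := m + 2) (by omega)
    (g := {x : EE (m + 2) | |x 1| = δ * x 0}.indicator 1) (measurable_one.indicator hS)
  have h2 : ∫⁻ u : sphere (0 : EE (m + 2)) 1,
      {x : EE (m + 2) | |x 1| = δ * x 0}.indicator (1 : EE (m + 2) → ℝ≥0∞) u.1 ∂(sigma (m + 2)) =
      (sigma (m + 2)) {w | |w.1 1| = δ * w.1 0} := by
    rw [← lintegral_indicator_one hS']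
    rfl
  rw [← h2, h1]
  have h3 : ∫⁻ x in ball (0 : EE (m + 2)) 1,
      {x : EE (m + 2) | |x 1| = δ * x 0}.indicator (1 : EE (m + 2) → ℝ≥0∞) (‖x‖⁻¹ • x) = 0 := by
    refine le_antisymm ?_ bot_le
    refine (setLIntegral_le_lintegral _ _).trans ?_
    have : ∀ x : EE (m + 2), {x : EE (m + 2) | |x 1| = δ * x 0}.indicator
        (1 : EE (m + 2) → ℝ≥0∞) (‖x‖⁻¹ • x) ≤
        {x : EE (m + 2) | |x 1| = δ * x 0}.indicator (1 : EE (m + 2) → ℝ≥0∞) x := by
      intro x
      by_cases hx : x ∈ {x : EE (m + 2) | |x 1| = δ * x 0}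
      · rw [indicator_of_mem hx]
        exact indicator_le_self' (fun _ _ => bot_le) _ |>.trans le_rfl
      · rw [indicator_of_notMem hx, indicator_of_notMem]
        intro hcon
        apply hx
        have hcon' : |(‖x‖⁻¹ • x) 1| = δ * (‖x‖⁻¹ • x) 0 := hcon
        by_cases hx0 : x = 0
        · rw [hx0]; simp
        · have hp : 0 < ‖x‖⁻¹ := inv_pos.2 (norm_pos_iff.2 hx0)
          simp only [PiLp.smul_apply, smul_eq_mul, abs_mul, abs_of_pos hp] at hcon'
          have e : ‖x‖⁻¹ * |x 1| = ‖x‖⁻¹ * (δ * x 0) := by rw [hcon']; ring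
          exact mul_left_cancel₀ hp.ne' e
    refine (lintegral_mono this).trans ?_
    rw [lintegral_indicator_one hS, volume_bd]
  rw [h3, mul_zero]

end

end Pool.Agent.K6.helper20.DM
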