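import Pool.Agent.K6.helper20.DM.H

set_option autoImplicit false

open Set MeasureTheory Metric Filter Topology
open scoped ENNReal RealInnerProductSpace

namespace Pool.Agent.K6.helper20.DM

section

variable {m : ℕ} {δ κ β c q : ℝ}

/-- the dual curvature measure -/
noncomputable def muK (m : ℕ) (δ κ c q : ℝ) (hβ : 1 < β) : Measure (sphere (0 : EE (m + 2)) 1) :=
  ((nu m).withDensity (f1 δ κ β c q)).map (NN (δ := δ) (κ := κ) hβ)

lemma muK_apply (hβ : 1 < β) {ω : Set (sphere (0 : EE (m + 2)) 1)} (hω : MeasurableSet ω) :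
    muK m δ κ c q hβ ω = ∫⁻ z in (NN (δ := δ) (κ := κ) hβ) ⁻¹' ω, f1 δ κ β c q z ∂(nu m) := by
  unfold muK
  rw [Measure.map_apply (measurable_NN hβ) hω, withDensity_apply _ (measurable_NN hβ hω)]

lemma nu_lintegral {f : ℝ × EE m → ℝ≥0∞} (hf : Measurable f) :
    ∫⁻ z, f z ∂(nu m) = ∫⁻ t in Ioo (-1 : ℝ) 1, ∫⁻ θ : EE m, f (t, θ) := by
  unfold nu
  rw [lintegral_prod f hf.aemeasurable]

lemma nu_ae : ∀ᵐ z ∂(nu m), z.1 ∈ Ioo (-1 : ℝ) 1 := by
  have h : nu m = ((volume : Measure ℝ).prod (volume : Measure (EE m))).restrict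
      (Ioo (-1 : ℝ) 1 ×ˢ univ) := by
    unfold nu
    rw [← Measure.prod_restrict, Measure.restrict_univ]
  rw [h]
  filter_upwards [ae_restrict_mem (measurableSet_Ioo.prod MeasurableSet.univ)] with z hz
  exact hz.1

lemma measurableSet_U' : MeasurableSet {w : sphere (0 : EE (m + 2)) 1 | w.1 ∈ Uc m δ} :=
  measurable_subtype_coe measurableSet_Uc

lemma not_U' (hδ : 0 < δ) {w : EE (m + 2)} (hw : w ∉ Uc m δ) :
    δ * w 0 < |w 1| ∨ |w 1| = δ * w 0 := by
  have : δ * w 0 ≤ |w 1| := by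
    by_contra hcon
    push Not at hcon
    apply hw
    refine ⟨?_, hcon⟩
    have h1 : 0 < δ * w 0 := (abs_nonneg _).trans_lt hcon
    exact (mul_pos_iff_of_pos_left hδ).1 h1
  rcases this.lt_or_eq with h | h
  · exact Or.inl h
  · exact Or.inr h.symm

lemma isDualCurvature_muK (hm : 0 < m) (hδ : 0 < δ) (hκ0 : 0 < κ) (hκ1 : κ < 1) (hβ : 1 < β)
    (hc : 0 < c) (hq : 0 < q) : IsDualCurvature q (KK m δ κ β c) (muK m δ κ c q hβ) := by
  intro ω hω
  set A := alphaStar (KK m δ κ β c) ω with hA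
  set U' := {w : sphere (0 : EE (m + 2)) 1 | w.1 ∈ Uc m δ} with hU'
  have hU'm : MeasurableSet U' := measurableSet_U'
  have hNz : Measurable (fun x : EE (m + 2) => NN (δ := δ) (κ := κ) hβ (zz δ x)) :=
    (measurable_NN hβ).comp measurable_zz
  have hAU : A ∩ U' = U' ∩ {w | NN (δ := δ) (κ := κ) hβ (zz δ w.1) ∈ ω} := by
    ext w
    constructor
    · rintro ⟨h1, h2⟩
      exact ⟨h2, (alphaStar_iff hδ hκ0 hκ1 hβ hc h2).1 h1⟩
    · rintro ⟨h1, h2⟩
      exact ⟨(alphaStar_iff hδ hκ0 hκ1 hβ hc h1).2 h2, h1⟩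
  have hmeas2 : MeasurableSet {w : sphere (0 : EE (m + 2)) 1 |
      NN (δ := δ) (κ := κ) hβ (zz δ w.1) ∈ ω} := (hNz.comp measurable_subtype_coe) hω
  have hradoff : ∀ᵐ w ∂(sigma (m + 2)), w ∈ U'ᶜ →
      ENNReal.ofReal (radial (KK m δ κ β c) w.1 ^ q) = 0 := by
    have h0 : ∀ᵐ w ∂(sigma (m + 2)), ¬ (|w.1 1| = δ * w.1 0) := by
      rw [ae_iff]
      simp only [not_not]
      exact sigma_bd
    filter_upwards [h0] with w hw hwU
    rcases not_U' hδ hwU with h | h
    · rw [radial_off hκ0 hβ h, Real.zero_rpow hq.ne', ENNReal.ofReal_zero]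
    · exact absurd h hw
  constructor
  · have hsplit : A = (A ∩ U') ∪ ((A ∩ {w | δ * w.1 0 < |w.1 1|}) ∪
        (A ∩ {w | |w.1 1| = δ * w.1 0})) := by
      ext w
      constructor
      · intro hw
        by_cases hwU : w ∈ U'
        · exact Or.inl ⟨hw, hwU⟩
        · rcases not_U' hδ hwU with h | h
          · exact Or.inr (Or.inl ⟨hw, h⟩)
          · exact Or.inr (Or.inr ⟨hw, h⟩)
      · rintro (h | h | h) <;> exact h.1
    rw [hsplit]
    refine NullMeasurableSet.union ?_ (NullMeasurableSet.union ?_ ?_)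
    · rw [hAU]
      exact (hU'm.inter hmeas2).nullMeasurableSet
    · have hm3 : MeasurableSet {w : sphere (0 : EE (m + 2)) 1 | δ * w.1 0 < |w.1 1|} := by
        have h0 : Measurable (fun x : EE (m + 2) => |x 1|) := by fun_prop
        have h1 : Measurable (fun x : EE (m + 2) => δ * x 0) := by fun_prop
        exact measurable_subtype_coe (measurableSet_lt h1 h0)
      by_cases hex : ∃ u ∈ ω, IsNormal (KK m δ κ β c) 0 u.1
      · have : A ∩ {w | δ * w.1 0 < |w.1 1|} = {w | δ * w.1 0 < |w.1 1|} := by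
          ext w
          refine ⟨fun h => h.2, fun h => ⟨?_, h⟩⟩
          have hr := radial_off (κ := κ) (β := β) (c := c) hκ0 hβ h
          obtain ⟨u, hu, hn⟩ := hex
          refine ⟨u, hu, ?_⟩
          rw [hr, zero_smul]
          exact hn
        rw [this]
        exact hm3.nullMeasurableSet
      · have : A ∩ {w | δ * w.1 0 < |w.1 1|} = ∅ := by
          ext w
          simp only [mem_inter_iff, mem_empty_iff_false, iff_false, not_and]
          intro hw h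
          apply hex
          have hr := radial_off (κ := κ) (β := β) (c := c) hκ0 hβ h
          obtain ⟨u, hu, hn⟩ := hw
          rw [hr, zero_smul] at hn
          exact ⟨u, hu, hn⟩
        rw [this]
        exact nullMeasurableSet_empty
    · exact NullMeasurableSet.of_null (measure_mono_null inter_subset_right sigma_bd)
  · rw [muK_apply hβ hω, ← lintegral_inter_add_sdiff _ A hU'm]
    have hzero : ∫⁻ w in A \ U', ENNReal.ofReal (radial (KK m δ κ β c) w.1 ^ q)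
        ∂(sigma (m + 2)) = 0 := by
      have hsub : A \ U' ⊆ U'ᶜ := fun w hw => hw.2
      have hz2 : ∫⁻ w in U'ᶜ, ENNReal.ofReal (radial (KK m δ κ β c) w.1 ^ q)
          ∂(sigma (m + 2)) = 0 := by
        rw [lintegral_congr_ae ((ae_restrict_iff' hU'm.compl).2 hradoff)]
        simp
      exact le_antisymm ((lintegral_mono_set hsub).trans hz2.le) bot_le
    rw [hzero, add_zero, hAU, inter_comm, ← Measure.restrict_restrict hmeas2,
      ← lintegral_indicator hmeas2]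
    -- pass to functions on the whole space
    set g : EE (m + 2) → ℝ≥0∞ := {x | NN (δ := δ) (κ := κ) hβ (zz δ x) ∈ ω}.indicator
      (fun x => ENNReal.ofReal ((xx δ κ β c (zz δ x) * ‖V1 δ (zz δ x)‖) ^ q)) with hg
    have hgm : Measurable g := by
      refine Measurable.indicator ?_ (hNz hω)
      have h1 : Measurable (fun x : EE (m + 2) => ‖V1 δ (zz δ x)‖) :=
        (measurable_V1.comp measurable_zz).norm
      have h2 : Measurable (fun x : EE (m + 2) => xx δ κ β c (zz δ x)) :=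
        measurable_xx.comp measurable_zz
      exact ENNReal.measurable_ofReal.comp ((h2.mul h1).pow_const _)
    have e1 : ∫⁻ w in U', {w : sphere (0 : EE (m + 2)) 1 |
        NN (δ := δ) (κ := κ) hβ (zz δ w.1) ∈ ω}.indicator
        (fun w => ENNReal.ofReal (radial (KK m δ κ β c) w.1 ^ q)) w ∂(sigma (m + 2)) =
        ∫⁻ w in U', g w.1 ∂(sigma (m + 2)) := by
      refine setLIntegral_congr_fun hU'm (fun w hw => ?_)
      simp only [hg, indicator]
      have := radial_Uc (κ := κ) (β := β) (c := c) hδ hκ0 hβ hc hw (mem_sphere_zero_iff_norm.1 w.2)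
      rw [this]
      rfl
    rw [e1, sphere_U hm hδ hgm, ← lintegral_indicator (measurable_NN hβ hω),
      nu_lintegral (measurable_f1.indicator (measurable_NN hβ hω))]
    refine lintegral_congr (fun t => lintegral_congr (fun θ => ?_))
    have hz := zz_V1 hδ (t, θ)
    by_cases h : (t, θ) ∈ (NN (δ := δ) (κ := κ) hβ) ⁻¹' ω
    · have h' : (‖V1 δ (t, θ)‖⁻¹ • V1 δ (t, θ)) ∈
          {x : EE (m + 2) | NN (δ := δ) (κ := κ) hβ (zz δ x) ∈ ω} := by
        change NN (δ := δ) (κ := κ) hβ (zz δ (‖V1 δ (t, θ)‖⁻¹ • V1 δ (t, θ))) ∈ ω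
        rw [hz]; exact h
      rw [indicator_of_mem h, hg, indicator_of_mem h', hz, f1]
    · have h' : (‖V1 δ (t, θ)‖⁻¹ • V1 δ (t, θ)) ∉
          {x : EE (m + 2) | NN (δ := δ) (κ := κ) hβ (zz δ x) ∈ ω} := by
        intro hc'
        change NN (δ := δ) (κ := κ) hβ (zz δ (‖V1 δ (t, θ)‖⁻¹ • V1 δ (t, θ))) ∈ ω at hc'
        rw [hz] at hc'; exact h hc'
      rw [indicator_of_notMem h, hg, indicator_of_notMem h', mul_zero]

lemma sigma_apply (hm : 0 < m) (hδ : 0 < δ) (hκ0 : 0 < κ) (hκ1 : κ < 1) (hβ : 1 < β)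
    {ω : Set (sphere (0 : EE (m + 2)) 1)} (hω : MeasurableSet ω) :
    sigma (m + 2) ω = ∫⁻ z in (NN (δ := δ) (κ := κ) hβ) ⁻¹' ω, f2 δ κ β z ∂(nu m) := by
  obtain ⟨ω', hω', hωe⟩ := hω
  have h1 := sphere_all (m := m) hm hδ hκ0 hκ1 hβ (g := ω'.indicator 1)
    (measurable_one.indicator hω')
  have h2 : ∫⁻ u : sphere (0 : EE (m + 2)) 1, ω'.indicator (1 : EE (m + 2) → ℝ≥0∞) u.1
      ∂(sigma (m + 2)) = sigma (m + 2) ω := by
    rw [← lintegral_indicator_one (show MeasurableSet ω from ⟨ω', hω', hωe⟩)]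
    refine lintegral_congr (fun u => ?_)
    rw [← hωe]
    rfl
  have hωm : MeasurableSet ω := ⟨ω', hω', hωe⟩
  rw [← h2, h1, ← lintegral_indicator (measurable_NN hβ hωm),
    nu_lintegral (measurable_f2.indicator (measurable_NN hβ hωm))]
  refine lintegral_congr (fun t => lintegral_congr (fun θ => ?_))
  have e : (t, θ) ∈ (NN (δ := δ) (κ := κ) hβ) ⁻¹' ω ↔
      ‖V2 δ κ β (t, θ)‖⁻¹ • V2 δ κ β (t, θ) ∈ ω' := by
    rw [← hωe]; rfl
  by_cases h : (t, θ) ∈ (NN (δ := δ) (κ := κ) hβ) ⁻¹' ω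
  · rw [indicator_of_mem h, indicator_of_mem (e.1 h), f2]
    simp
  · rw [indicator_of_notMem h, indicator_of_notMem (fun hc => h (e.2 hc))]
    simp

lemma continuous_supp {n : ℕ} {K : Set (EE n)} (hK : IsCompact K) : Continuous (supp K) := by
  unfold supp
  exact hK.continuous_sSup (by fun_prop)

lemma lpDual_apply {p : ℝ} (hδ : 0 < δ) (hκ0 : 0 < κ) (hκ1 : κ < 1) (hβ : 1 < β)
    (hc : 0 < c) {ω : Set (sphere (0 : EE (m + 2)) 1)} (hω : MeasurableSet ω) :
    lpDual p (KK m δ κ β c) (muK m δ κ c q hβ) ω =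
      ∫⁻ z in (NN (δ := δ) (κ := κ) hβ) ⁻¹' ω, f1 δ κ β c q z *
        (ENNReal.ofReal (‖V2 δ κ β z‖⁻¹ * ((β - 1) * tau z.2 ^ 2 * xx δ κ β c z))) ^ (-p)
          ∂(nu m) := by
  have hmeas : Measurable (fun u : sphere (0 : EE (m + 2)) 1 =>
      (ENNReal.ofReal (supp (KK m δ κ β c) u.1)) ^ (-p)) := by
    have h1 : Measurable (fun u : sphere (0 : EE (m + 2)) 1 => supp (KK m δ κ β c) u.1) :=
      ((continuous_supp (KK_isCompact hδ hκ0 hκ1 hβ hc)).comp continuous_subtype_val).measurable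
    exact (ENNReal.measurable_ofReal.comp h1).pow_const _
  unfold lpDual muK
  rw [withDensity_apply _ hω, setLIntegral_map hω hmeas (measurable_NN hβ),
    setLIntegral_withDensity_eq_setLIntegral_mul _ measurable_f1
      (g := fun z => (ENNReal.ofReal (supp (KK m δ κ β c) (NN (δ := δ) (κ := κ) hβ z).1)) ^ (-p))
      (hmeas.comp (measurable_NN hβ)) (measurable_NN hβ hω)]
  refine lintegral_congr_ae ?_
  filter_upwards [ae_restrict_of_ae nu_ae] with z hz
  simp only [Pi.mul_apply, NN]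
  rw [supp_V2 hδ hκ0 hκ1 hβ hc hz]

/-- real version of the densities -/
noncomputable def R1 (δ κ β c p q : ℝ) (z : ℝ × EE m) : ℝ :=
  δ * (‖V1 δ z‖⁻¹) ^ (m + 2) * (xx δ κ β c z * ‖V1 δ z‖) ^ q *
    (‖V2 δ κ β z‖⁻¹ * ((β - 1) * tau z.2 ^ 2 * xx δ κ β c z)) ^ (-p)

/-- real version of the densities -/
noncomputable def R2 (δ κ β : ℝ) (z : ℝ × EE m) : ℝ :=
  jj δ κ β z * (‖V2 δ κ β z‖⁻¹) ^ (m + 2)

lemma twoSided_of_compare {p lam : ℝ} (hm : 0 < m) (hδ : 0 < δ) (hκ0 : 0 < κ) (hκ1 : κ < 1)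
    (hβ : 1 < β) (hc : 0 < c) (hq : 0 < q) (hlam : 1 < lam)
    (h : ∀ z : ℝ × EE m, z.1 ∈ Ioo (-1 : ℝ) 1 →
      R1 δ κ β c p q z ≤ lam * R2 δ κ β z ∧ R2 δ κ β z ≤ lam * R1 δ κ β c p q z) :
    TwoSided lam p q (KK m δ κ β c) := by
  refine ⟨muK m δ κ c q hβ, isDualCurvature_muK hm hδ hκ0 hκ1 hβ hc hq, fun ω hω => ?_⟩
  have hlam0 : 0 < lam := by linarith
  rw [lpDual_apply hδ hκ0 hκ1 hβ hc hω, sigma_apply hm hδ hκ0 hκ1 hβ hω]
  have e1 : ∀ z : ℝ × EE m, z.1 ∈ Ioo (-1 : ℝ) 1 → f1 δ κ β c q z *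
        (ENNReal.ofReal (‖V2 δ κ β z‖⁻¹ * ((β - 1) * tau z.2 ^ 2 * xx δ κ β c z))) ^ (-p) =
        ENNReal.ofReal (R1 δ κ β c p q z) := by
    intro z hz
    have hV := norm_V2_pos (δ := δ) (κ := κ) hβ z
    have hV1 := norm_V1_pos (δ := δ) z
    have hX := xx_pos (κ := κ) (β := β) hδ hc hz
    have hτ := tau_pos z.2
    have hβ1 : 0 < β - 1 := by linarith
    rw [ENNReal.ofReal_rpow_of_pos (by positivity), f1, R1,
      ENNReal.ofReal_mul (by positivity), ENNReal.ofReal_mul (by positivity),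
      ENNReal.ofReal_mul (by positivity)]
  have e2 : ∀ z : ℝ × EE m, z.1 ∈ Ioo (-1 : ℝ) 1 → f2 δ κ β z = ENNReal.ofReal (R2 δ κ β z) := by
    intro z hz
    have h1 := ee_pos hδ hκ0 hκ1 hz
    have hβ1 : 0 < β - 1 := by linarith
    have hβ0 : 0 < β := by linarith
    have : 0 ≤ jj δ κ β z := by unfold jj; positivity
    rw [f2, R2, ENNReal.ofReal_mul this]
  have hlt : ENNReal.ofReal lam ≠ ⊤ := ENNReal.ofReal_ne_top
  have hl0 : ENNReal.ofReal lam ≠ 0 := by
    rw [Ne, ENNReal.ofReal_eq_zero]; linarith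
  constructor
  · rw [← lintegral_const_mul' _ _ (ENNReal.inv_ne_top.2 hl0)]
    refine lintegral_mono_ae ?_
    filter_upwards [ae_restrict_of_ae nu_ae] with z hz
    rw [e1 z hz, e2 z hz, ENNReal.inv_mul_le_iff hl0 hlt, ← ENNReal.ofReal_mul hlam0.le]
    exact ENNReal.ofReal_le_ofReal (h z hz).2
  · rw [← lintegral_const_mul' _ _ hlt]
    refine lintegral_mono_ae ?_
    filter_upwards [ae_restrict_of_ae nu_ae] with z hz
    rw [e1 z hz, e2 z hz, ← ENNReal.ofReal_mul hlam0.le]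
    exact ENNReal.ofReal_le_ofReal (h z hz).1

end

end Pool.Agent.K6.helper20.DM
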