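import Pool.Agent.K6.helper20.DM.I

set_option autoImplicit false

open Set MeasureTheory Metric Filter Topology
open scoped ENNReal RealInnerProductSpace

namespace Pool.Agent.K6.helper20.DM

/-- comparability up to the factor `C` -/
def Cmp (C x y : ℝ) : Prop := 0 < x ∧ 0 < y ∧ x ≤ C * y ∧ y ≤ C * x

section cmp

variable {C C' x y z x' y' : ℝ}

lemma Cmp.symm (h : Cmp C x y) : Cmp C y x := ⟨h.2.1, h.1, h.2.2.2, h.2.2.1⟩

lemma Cmp.refl (hx : 0 < x) : Cmp 1 x x := ⟨hx, hx, by linarith, by linarith⟩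

lemma Cmp.pos (h : Cmp C x y) : 0 < C := by
  have h1 := h.2.2.1
  have h2 := h.1
  by_contra hcon
  push Not at hcon
  have := mul_nonneg (neg_nonneg.2 hcon) h.2.1.le
  linarith

lemma Cmp.one_le (h : Cmp C x y) : 1 ≤ C := by
  have hC := h.pos
  have h1 : x ≤ C * (C * x) := h.2.2.1.trans (mul_le_mul_of_nonneg_left h.2.2.2 hC.le)
  have h2 : 1 * x ≤ (C * C) * x := by linarith
  have h3 := le_of_mul_le_mul_right h2 h.1
  nlinarith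

lemma Cmp.mono (h : Cmp C x y) (hC : C ≤ C') : Cmp C' x y :=
  ⟨h.1, h.2.1, h.2.2.1.trans (mul_le_mul_of_nonneg_right hC h.2.1.le),
    h.2.2.2.trans (mul_le_mul_of_nonneg_right hC h.1.le)⟩

lemma Cmp.trans (h : Cmp C x y) (h' : Cmp C' y z) : Cmp (C * C') x z := by
  refine ⟨h.1, h'.2.1, ?_, ?_⟩
  · have := mul_le_mul_of_nonneg_left h'.2.2.1 h.pos.le
    linarith [h.2.2.1]
  · have := mul_le_mul_of_nonneg_left h.2.2.2 h'.pos.le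
    linarith [h'.2.2.2]

lemma Cmp.mul (h : Cmp C x y) (h' : Cmp C' x' y') : Cmp (C * C') (x * x') (y * y') := by
  refine ⟨mul_pos h.1 h'.1, mul_pos h.2.1 h'.2.1, ?_, ?_⟩
  · calc x * x' ≤ (C * y) * (C' * y') :=
        mul_le_mul h.2.2.1 h'.2.2.1 h'.1.le (mul_nonneg h.pos.le h.2.1.le)
      _ = _ := by ring
  · calc y * y' ≤ (C * x) * (C' * x') :=
        mul_le_mul h.2.2.2 h'.2.2.2 h'.2.1.le (mul_nonneg h.pos.le h.1.le)
      _ = _ := by ring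

lemma Cmp.inv (h : Cmp C x y) : Cmp C x⁻¹ y⁻¹ := by
  have hx := h.1
  have hy := h.2.1
  have hC := h.pos
  refine ⟨inv_pos.2 hx, inv_pos.2 hy, ?_, ?_⟩
  · rw [← div_eq_mul_inv, le_div_iff₀ hy, inv_mul_le_iff₀ hx]
    linarith [h.2.2.2]
  · rw [← div_eq_mul_inv, le_div_iff₀ hx, inv_mul_le_iff₀ hy]
    linarith [h.2.2.1]

lemma Cmp.rpow_nonneg (h : Cmp C x y) {a : ℝ} (ha : 0 ≤ a) : Cmp (C ^ a) (x ^ a) (y ^ a) := by
  have hx := h.1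
  have hy := h.2.1
  have hC := h.pos
  refine ⟨by positivity, by positivity, ?_, ?_⟩
  · rw [← Real.mul_rpow hC.le hy.le]
    exact Real.rpow_le_rpow hx.le h.2.2.1 ha
  · rw [← Real.mul_rpow hC.le hx.le]
    exact Real.rpow_le_rpow hy.le h.2.2.2 ha

lemma Cmp.rpow (h : Cmp C x y) (a : ℝ) : Cmp (C ^ |a|) (x ^ a) (y ^ a) := by
  rcases le_total 0 a with ha | ha
  · rw [abs_of_nonneg ha]
    exact h.rpow_nonneg ha
  · rw [abs_of_nonpos ha]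
    have := (h.rpow_nonneg (a := -a) (by linarith)).inv
    rwa [Real.rpow_neg h.1.le, Real.rpow_neg h.2.1.le, inv_inv, inv_inv] at this

lemma Cmp.of_sq (hx : 0 < x) (hy : 0 < y) (h : Cmp C (x ^ 2) (y ^ 2)) : Cmp C x y := by
  have hC := h.one_le
  have hC0 := h.pos
  refine ⟨hx, hy, ?_, ?_⟩
  · rw [← sq_le_sq₀ hx.le (by positivity)]
    refine h.2.2.1.trans ?_
    rw [mul_pow]
    apply mul_le_mul_of_nonneg_right _ (by positivity)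
    nlinarith
  · rw [← sq_le_sq₀ hy.le (by positivity)]
    refine h.2.2.2.trans ?_
    rw [mul_pow]
    apply mul_le_mul_of_nonneg_right _ (by positivity)
    nlinarith

end cmp

lemma sq_sub_le' (x y : ℝ) : (x - y) ^ 2 ≤ 2 * x ^ 2 + 2 * y ^ 2 := by
  nlinarith [sq_nonneg (x + y)]

lemma sq_sub_ge' (x y : ℝ) : x ^ 2 / 2 - y ^ 2 ≤ (x - y) ^ 2 := by
  nlinarith [sq_nonneg (x - 2 * y)]

section pieces

variable {m : ℕ} {δ κ β : ℝ}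

/-- piece B: `‖V1‖ ≈ τ` -/
lemma pieceB (hδ : 0 < δ) (hδ1 : δ ≤ 1 / 4) {z : ℝ × EE m} (hz : z.1 ∈ Ioo (-1 : ℝ) 1) :
    Cmp 2 ‖V1 δ z‖ (tau z.2) := by
  apply Cmp.of_sq (norm_V1_pos z) (tau_pos _)
  have h1 : ‖V1 δ z‖ ^ 2 = tau z.2 ^ 2 + (δ * z.1) ^ 2 := by
    rw [normSq_eq, norm_bar_V1, V1_one]
  have h2 : (δ * z.1) ^ 2 ≤ 1 := by
    have : |δ * z.1| ≤ 1 := by
      rw [abs_mul, abs_of_pos hδ]
      have : |z.1| ≤ 1 := abs_le.2 ⟨hz.1.le, hz.2.le⟩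
      have h0 := abs_nonneg z.1
      nlinarith
    rw [← sq_abs]
    have h0 := abs_nonneg (δ * z.1)
    nlinarith
  have h3 : 1 ≤ tau z.2 ^ 2 := by
    rw [tau_sq]; have := sq_nonneg ‖z.2‖; linarith
  have h4 := sq_nonneg (δ * z.1)
  have h5 := tau_pos z.2
  rw [h1]
  refine ⟨by positivity, by positivity, by linarith, by linarith⟩

/-- piece E: `Y ≈ 1` -/
lemma pieceE (hδ : 0 < δ) (hδ1 : δ ≤ 1 / 4) (hκ0 : 0 < κ) (hκ1 : κ < 1) {t : ℝ}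
    (ht : t ∈ Ioo (-1 : ℝ) 1) : Cmp 2 (Yf δ κ t) 1 := by
  have h1 := Yf_ge_one (κ := κ) hδ ht
  have h2 := Yf_le hδ hκ0 hκ1 (t := t) ⟨ht.1.le, ht.2.le⟩
  exact ⟨by linarith, one_pos, by linarith, by linarith⟩

/-- piece A: `‖V2‖ ≈ τ² sqrt(1+η²)` -/
lemma pieceA (hβ : 1 < β) : ∃ C : ℝ, ∀ δ κ : ℝ, 0 < δ → δ ≤ 1 / 4 → ∀ z : ℝ × EE m,
    z.1 ∈ Ioo (-1 : ℝ) 1 →
    Cmp C ‖V2 δ κ β z‖ (tau z.2 ^ 2 * Real.sqrt (1 + eta δ κ z.1 ^ 2)) := by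
  set a : ℝ := min ((β - 1) ^ 2) (3 / 4) / 2 with ha
  set b : ℝ := 2 * (β + 1) ^ 2 + β ^ 2 + 3 with hb
  have hβ1 : 0 < β - 1 := by linarith
  have ha0 : 0 < a := by
    rw [ha]; apply div_pos _ two_pos
    exact lt_min (by positivity) (by norm_num)
  have ha1 : 2 * a ≤ (β - 1) ^ 2 := by
    rw [ha]; have := min_le_left ((β - 1) ^ 2) (3 / 4 : ℝ); linarith
  have ha2 : 2 * a ≤ 3 / 4 := by
    rw [ha]; have := min_le_right ((β - 1) ^ 2) (3 / 4 : ℝ); linarith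
  refine ⟨max b a⁻¹, fun δ κ hδ hδ1 z hz => ?_⟩
  have hg : 0 < Real.sqrt (1 + eta δ κ z.1 ^ 2) := Real.sqrt_pos.2 (by positivity)
  have hτ := tau_pos z.2
  apply Cmp.of_sq (norm_V2_pos hβ z) (by positivity)
  set η := eta δ κ z.1 with hη
  set r := ‖z.2‖ with hr
  have hr0 : 0 ≤ r := norm_nonneg _
  have e1 : ‖V2 δ κ β z‖ ^ 2 = (β - (1 + r ^ 2) * (1 + δ * z.1 * η)) ^ 2 +
      ((1 + r ^ 2) * η) ^ 2 + (β * r) ^ 2 := by
    rw [V2, mk_normSq, norm_smul, Real.norm_eq_abs, abs_of_pos (by linarith : (0:ℝ) < β)]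
  have e2 : (tau z.2 ^ 2 * Real.sqrt (1 + η ^ 2)) ^ 2 = (1 + r ^ 2) ^ 2 * (1 + η ^ 2) := by
    rw [mul_pow, Real.sq_sqrt (by positivity), tau_sq]
  rw [e1, e2]
  set T := 1 + r ^ 2 with hT
  have hT1 : 1 ≤ T := by rw [hT]; have := sq_nonneg r; linarith
  set w := δ * z.1 * η with hw
  have hw2 : w ^ 2 ≤ η ^ 2 / 16 := by
    have h1 : |δ * z.1| ≤ 1 / 4 := by
      rw [abs_mul, abs_of_pos hδ]
      have : |z.1| ≤ 1 := abs_le.2 ⟨hz.1.le, hz.2.le⟩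
      have h0 := abs_nonneg z.1
      nlinarith
    have h2 : (δ * z.1) ^ 2 ≤ 1 / 16 := by
      rw [← sq_abs]
      have h0 := abs_nonneg (δ * z.1)
      nlinarith
    have h3 : w ^ 2 = (δ * z.1) ^ 2 * η ^ 2 := by rw [hw]; ring
    rw [h3]
    have := mul_le_mul_of_nonneg_right h2 (sq_nonneg η)
    linarith
  have hη2 : 0 ≤ η ^ 2 := sq_nonneg η
  have hT2 : 0 ≤ T ^ 2 := sq_nonneg T
  have hlow : a * (T ^ 2 * (1 + η ^ 2)) ≤
      (β - T * (1 + w)) ^ 2 + (T * η) ^ 2 + (β * r) ^ 2 := by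
    have h1 : (β - T) ^ 2 / 2 - (T * w) ^ 2 ≤ (β - T * (1 + w)) ^ 2 := by
      have : (β - T * (1 + w)) = (β - T) - T * w := by ring
      rw [this]
      exact sq_sub_ge' _ _
    have h2 : (T * w) ^ 2 ≤ T ^ 2 * (η ^ 2 / 16) := by
      rw [mul_pow]; exact mul_le_mul_of_nonneg_left hw2 hT2
    have h3 : a * T ^ 2 ≤ (β - T) ^ 2 / 2 + (β * r) ^ 2 := by
      have e : (β - T) ^ 2 / 2 + (β * r) ^ 2 =
          ((β - 1) ^ 2 + r ^ 4 + 2 * (β ^ 2 - β + 1) * r ^ 2) / 2 := by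
        rw [hT]; ring
      have e' : T ^ 2 = 1 + 2 * r ^ 2 + r ^ 4 := by rw [hT]; ring
      rw [e, e']
      have h4 : 3 / 4 ≤ β ^ 2 - β + 1 := by nlinarith [sq_nonneg (β - 1 / 2)]
      have h5 : 0 ≤ r ^ 2 := sq_nonneg r
      have h6 : 0 ≤ r ^ 4 := by positivity
      have h7 : 2 * a * r ^ 4 ≤ 1 * r ^ 4 := mul_le_mul_of_nonneg_right (by linarith) h6
      have h8 : 2 * a * (2 * r ^ 2) ≤ 2 * (β ^ 2 - β + 1) * r ^ 2 := by
        have := mul_le_mul_of_nonneg_right (show 2 * a ≤ β ^ 2 - β + 1 by linarith) h5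
        linarith
      linarith
    have h9 : a * (T ^ 2 * η ^ 2) ≤ T ^ 2 * η ^ 2 - T ^ 2 * (η ^ 2 / 16) := by
      have h10 : 0 ≤ T ^ 2 * η ^ 2 := by positivity
      have := mul_le_mul_of_nonneg_right (show a ≤ 15 / 16 by linarith) h10
      linarith
    have e3 : (T * η) ^ 2 = T ^ 2 * η ^ 2 := by ring
    rw [e3]
    linarith
  have hup : (β - T * (1 + w)) ^ 2 + (T * η) ^ 2 + (β * r) ^ 2 ≤ b * (T ^ 2 * (1 + η ^ 2)) := by
    have h1 : (β - T * (1 + w)) ^ 2 ≤ 2 * (β - T) ^ 2 + 2 * (T * w) ^ 2 := by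
      have : (β - T * (1 + w)) = (β - T) - T * w := by ring
      rw [this]
      exact sq_sub_le' _ _
    have h2 : (T * w) ^ 2 ≤ T ^ 2 * (η ^ 2 / 16) := by
      rw [mul_pow]; exact mul_le_mul_of_nonneg_left hw2 hT2
    have h3 : (β - T) ^ 2 ≤ (β + 1) ^ 2 * T ^ 2 := by
      have h4 : |β - T| ≤ (β + 1) * T := by
        have h41 : 0 ≤ β * T := by positivity
        have h42 : β * 1 ≤ β * T := mul_le_mul_of_nonneg_left hT1 (by linarith)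
        rw [abs_le]; constructor <;> linarith
      have h5 := sq_abs (β - T)
      have h6 := abs_nonneg (β - T)
      rw [← h5, ← mul_pow]
      exact pow_le_pow_left₀ h6 h4 2
    have h7 : (β * r) ^ 2 ≤ β ^ 2 * T ^ 2 := by
      rw [mul_pow]
      apply mul_le_mul_of_nonneg_left _ (sq_nonneg β)
      have : r ^ 2 ≤ T := by rw [hT]; linarith
      exact this.trans (le_self_pow₀ hT1 two_ne_zero)
    have e3 : (T * η) ^ 2 = T ^ 2 * η ^ 2 := by ring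
    have h8 : 0 ≤ T ^ 2 * η ^ 2 := by positivity
    have h9 : 0 ≤ (2 * (β + 1) ^ 2 + β ^ 2) * (T ^ 2 * η ^ 2) := by positivity
    have e4 : b * (T ^ 2 * (1 + η ^ 2)) = 2 * ((β + 1) ^ 2 * T ^ 2) + β ^ 2 * T ^ 2 + 3 * T ^ 2 +
        (2 * (β + 1) ^ 2 + β ^ 2) * (T ^ 2 * η ^ 2) + 3 * (T ^ 2 * η ^ 2) := by rw [hb]; ring
    rw [e3, e4]
    linarith
  have hTη : 0 < T ^ 2 * (1 + η ^ 2) := by positivity
  refine ⟨?_, hTη, ?_, ?_⟩
  · exact lt_of_lt_of_le (mul_pos ha0 hTη) hlow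
  · exact hup.trans (mul_le_mul_of_nonneg_right (le_max_left _ _) hTη.le)
  · have h10 : T ^ 2 * (1 + η ^ 2) ≤ a⁻¹ * ((β - T * (1 + w)) ^ 2 + (T * η) ^ 2 + (β * r) ^ 2) := by
      rw [← div_eq_inv_mul, le_div_iff₀ ha0]
      linarith
    refine h10.trans (mul_le_mul_of_nonneg_right (le_max_right _ _) ?_)
    exact (mul_pos ha0 hTη).le.trans hlow

/-- the two one-dimensional quantities are comparable to powers of `1 - |t|` -/
lemma piece_eta (hκ0 : 0 < κ) (hκ1 : κ < 1) : ∃ C : ℝ, ∀ δ : ℝ, 0 < δ → δ ≤ 1 / 4 → ∀ t : ℝ,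
    t ∈ Ioo (-1 : ℝ) 1 → Cmp C (1 + eta δ κ t ^ 2) ((1 - |t|) ^ (2 * (κ - 1))) := by
  refine ⟨(4 / κ ^ 2) * 2, fun δ hδ hδ1 t ht => ?_⟩
  have hs : 0 < 1 - |t| := by
    have : |t| < 1 := abs_lt.2 ht
    linarith
  have hY1 := Yf_ge_one (κ := κ) hδ ht
  have hY2 := Yf_le hδ hκ0 hκ1 (t := t) ⟨ht.1.le, ht.2.le⟩
  have hDb := Df_bounds hκ1 ht
  have h1 : Cmp (4 / κ ^ 2) (1 + eta δ κ t ^ 2) (1 + Df κ t ^ 2) := by
    have hD := sq_nonneg (Df κ t)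
    have hη : eta δ κ t ^ 2 = κ ^ 2 * Df κ t ^ 2 / Yf δ κ t ^ 2 := by unfold eta; ring
    have hYsq1 : 1 ≤ Yf δ κ t ^ 2 := by nlinarith
    have hYsq2 : Yf δ κ t ^ 2 ≤ 4 := by nlinarith
    have hκsq : κ ^ 2 ≤ 1 := by nlinarith
    have hκsq0 : 0 < κ ^ 2 := by positivity
    have hηle : eta δ κ t ^ 2 ≤ Df κ t ^ 2 := by
      rw [hη, div_le_iff₀ (by positivity)]
      nlinarith
    have hηge : κ ^ 2 / 4 * Df κ t ^ 2 ≤ eta δ κ t ^ 2 := by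
      rw [hη, le_div_iff₀ (by positivity)]
      have : κ ^ 2 / 4 * Df κ t ^ 2 * Yf δ κ t ^ 2 ≤ κ ^ 2 / 4 * Df κ t ^ 2 * 4 :=
        mul_le_mul_of_nonneg_left hYsq2 (by positivity)
      linarith
    have h4 : 1 ≤ 4 / κ ^ 2 := by rw [le_div_iff₀ hκsq0]; linarith
    refine ⟨by positivity, by positivity, ?_, ?_⟩
    · have := mul_le_mul_of_nonneg_right h4 (show 0 ≤ 1 + Df κ t ^ 2 by positivity)
      linarith
    · rw [div_mul_eq_mul_div, le_div_iff₀ hκsq0]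
      linarith
  have hsp : 0 < (1 - |t|) ^ (2 * (κ - 1)) := Real.rpow_pos_of_pos hs _
  have h2 : Cmp 2 (1 + Df κ t ^ 2) ((1 - |t|) ^ (2 * (κ - 1))) :=
    ⟨by positivity, hsp, by linarith [hDb.2], by linarith [hDb.1]⟩
  exact h1.trans h2

lemma piece_e (hκ0 : 0 < κ) (hκ1 : κ < 1) : ∃ C : ℝ, ∀ δ : ℝ, 0 < δ → δ ≤ 1 / 4 → ∀ t : ℝ,
    t ∈ Ioo (-1 : ℝ) 1 → Cmp C (ee δ κ t) ((1 - |t|) ^ (κ - 2)) := by
  have h1κ : 0 < 1 - κ := by linarith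
  refine ⟨max (2 * κ * (1 - κ)) (2 / (κ * (1 - κ))), fun δ hδ hδ1 t ht => ?_⟩
  have hs : 0 < 1 - |t| := by
    have : |t| < 1 := abs_lt.2 ht
    linarith
  have hY1 := Yf_ge_one (κ := κ) hδ ht
  have hY2 := Yf_le hδ hκ0 hκ1 (t := t) ⟨ht.1.le, ht.2.le⟩
  have hDb := Dd_bounds hκ1 ht
  have hsp : 0 < (1 - |t|) ^ (κ - 2) := Real.rpow_pos_of_pos hs _
  have he := ee_pos hδ hκ0 hκ1 ht
  refine ⟨he, hsp, ?_, ?_⟩
  · refine le_trans ?_ (mul_le_mul_of_nonneg_right (le_max_left _ _) hsp.le)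
    unfold ee
    rw [div_le_iff₀ (by linarith)]
    have h1 : κ * Dd κ t ≤ κ * (2 * (1 - κ) * (1 - |t|) ^ (κ - 2)) :=
      mul_le_mul_of_nonneg_left hDb.2 hκ0.le
    have h2 : 0 ≤ 2 * κ * (1 - κ) * (1 - |t|) ^ (κ - 2) := by positivity
    nlinarith
  · refine le_trans ?_ (mul_le_mul_of_nonneg_right (le_max_right _ _) he.le)
    unfold ee
    rw [div_mul_div_comm, le_div_iff₀ (by positivity)]
    have h1 : κ * ((1 - κ) * (1 - |t|) ^ (κ - 2)) ≤ κ * Dd κ t :=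
      mul_le_mul_of_nonneg_left hDb.1 hκ0.le
    have h2 : 0 ≤ κ * (1 - κ) * (1 - |t|) ^ (κ - 2) := by positivity
    have h3 : κ * (1 - κ) * (1 - |t|) ^ (κ - 2) * Yf δ κ t ≤
        κ * (1 - κ) * (1 - |t|) ^ (κ - 2) * 2 :=
      mul_le_mul_of_nonneg_left (by linarith) h2
    linarith

end pieces

end Pool.Agent.K6.helper20.DM
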