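import Pool.Agent.K6.helper20.DM.J

set_option autoImplicit false

open Set MeasureTheory Metric Filter Topology
open scoped ENNReal RealInnerProductSpace

namespace Pool.Agent.K6.helper20.DM

section

lemma Cmp.const {x : ℝ} (hx : 0 < x) : Cmp (max x x⁻¹) x 1 := by
  refine ⟨hx, one_pos, ?_, ?_⟩
  · rw [mul_one]; exact le_max_left _ _
  · have h := mul_le_mul_of_nonneg_right (le_max_right x x⁻¹) hx.le
    rwa [inv_mul_cancel₀ hx.ne'] at h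

/-- piece C -/
lemma pieceC {N : ℝ} (hN : 2 < N) {κ : ℝ} (hκ : κ = (N - 2) / (N - 1)) :
    ∃ C : ℝ, ∀ δ : ℝ, 0 < δ → δ ≤ 1 / 4 → ∀ t : ℝ,
    t ∈ Ioo (-1 : ℝ) 1 → Cmp C (Real.sqrt (1 + eta δ κ t ^ 2) ^ N) (ee δ κ t) := by
  have hN1 : 0 < N - 1 := by linarith
  have hκ0 : 0 < κ := by rw [hκ]; exact div_pos (by linarith) hN1
  have hκ1 : κ < 1 := by rw [hκ, div_lt_one hN1]; linarith
  obtain ⟨C1, hC1⟩ := piece_eta hκ0 hκ1
  obtain ⟨C2, hC2⟩ := piece_e hκ0 hκ1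
  refine ⟨C1 ^ |N / 2| * C2, fun δ hδ hδ1 t ht => ?_⟩
  have hs : 0 < 1 - |t| := by
    have : |t| < 1 := abs_lt.2 ht
    linarith
  have h1 := (hC1 δ hδ hδ1 t ht).rpow (N / 2)
  have h2 := (hC2 δ hδ hδ1 t ht).symm
  have e1 : (1 + eta δ κ t ^ 2) ^ (N / 2) = Real.sqrt (1 + eta δ κ t ^ 2) ^ N := by
    rw [Real.sqrt_eq_rpow, ← Real.rpow_mul (by positivity)]
    congr 1
    ring
  have e2 : ((1 - |t|) ^ (2 * (κ - 1))) ^ (N / 2) = (1 - |t|) ^ (κ - 2) := by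
    rw [← Real.rpow_mul hs.le]
    congr 1
    rw [hκ]
    field_simp
    ring
  rw [e1, e2] at h1
  exact h1.trans h2

/-- piece D -/
lemma pieceD (m : ℕ) {κ β : ℝ} (hκ0 : 0 < κ) (hκ1 : κ < 1) (hβ : 1 < β) :
    ∃ C : ℝ, ∀ δ : ℝ, 0 < δ → δ ≤ 1 / 4 → ∀ z : ℝ × EE m,
    z.1 ∈ Ioo (-1 : ℝ) 1 → Cmp C (tau z.2 ^ (4 : ℝ) * ee δ κ z.1) (jj δ κ β z) := by
  obtain ⟨C1, hC1⟩ := piece_eta hκ0 hκ1
  obtain ⟨C2, hC2⟩ := piece_e hκ0 hκ1
  have hβ0 : 0 < β := by linarith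
  have hβ1 : 0 < β - 1 := by linarith
  set a : ℝ := min 1 (β - 1) with ha
  have ha0 : 0 < a := lt_min one_pos hβ1
  refine ⟨max (β ^ m * a)⁻¹ (β ^ m * (β + β * (C1 * C2))), fun δ hδ hδ1 z hz => ?_⟩
  have he := ee_pos hδ hκ0 hκ1 hz
  have hs : 0 < 1 - |z.1| := by
    have : |z.1| < 1 := abs_lt.2 hz
    linarith
  have hs1 : 1 - |z.1| ≤ 1 := by have := abs_nonneg z.1; linarith
  have hτ := tau_pos z.2
  have hτ4 : tau z.2 ^ (4 : ℝ) = (tau z.2 ^ 2) ^ 2 := by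
    rw [← pow_mul]; norm_cast
  have hτ2 := tau_sq z.2
  -- bound for η^2
  have hηe : eta δ κ z.1 ^ 2 ≤ (C1 * C2) * ee δ κ z.1 := by
    have h1 := (hC1 δ hδ hδ1 z.1 hz).2.2.1
    have h2 := (hC2 δ hδ hδ1 z.1 hz).2.2.2
    have hC1p := (hC1 δ hδ hδ1 z.1 hz).pos
    have h3 : (1 - |z.1|) ^ (2 * (κ - 1)) ≤ (1 - |z.1|) ^ (κ - 2) :=
      Real.rpow_le_rpow_of_exponent_ge hs hs1 (by linarith)
    calc eta δ κ z.1 ^ 2 ≤ 1 + eta δ κ z.1 ^ 2 := by linarith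
      _ ≤ C1 * (1 - |z.1|) ^ (2 * (κ - 1)) := h1
      _ ≤ C1 * (C2 * ee δ κ z.1) := mul_le_mul_of_nonneg_left (h3.trans h2) hC1p.le
      _ = _ := by ring
  have hC12 : 0 < C1 * C2 := mul_pos (hC1 δ hδ hδ1 z.1 hz).pos (hC2 δ hδ hδ1 z.1 hz).pos
  set r := ‖z.2‖ with hr
  set T := 1 + r ^ 2 with hT
  set e := ee δ κ z.1 with hed
  set η := eta δ κ z.1 with hη
  have hr2 : 0 ≤ r ^ 2 := sq_nonneg r
  have hT1 : 1 ≤ T := by rw [hT]; linarith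
  have hT0 : 0 < T := by linarith
  have hlow : a * T ≤ β - 1 + r ^ 2 := by
    have h1 : a ≤ 1 := min_le_left _ _
    have h2 : a ≤ β - 1 := min_le_right _ _
    have h3 := mul_le_mul_of_nonneg_right h1 hr2
    rw [hT]; linarith
  have hup : β - 1 + r ^ 2 ≤ β * T := by
    have h1 : 1 * r ^ 2 ≤ β * r ^ 2 := mul_le_mul_of_nonneg_right hβ.le hr2
    rw [hT]; linarith
  have hjj : jj δ κ β z = β ^ m * (T * ((β - 1 + r ^ 2) * e + δ * β * η ^ 2)) := rfl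
  have hβm : 0 < β ^ m := by positivity
  have hη2 : 0 ≤ η ^ 2 := sq_nonneg η
  have hTe : 0 < T ^ 2 * e := by positivity
  rw [hτ4, hτ2]
  have hL : a * (T ^ 2 * e) ≤ T * ((β - 1 + r ^ 2) * e + δ * β * η ^ 2) := by
    have h1 : a * T * e ≤ (β - 1 + r ^ 2) * e := mul_le_mul_of_nonneg_right hlow he.le
    have h2 : 0 ≤ δ * β * η ^ 2 := by positivity
    have h3 : T * (a * T * e) ≤ T * ((β - 1 + r ^ 2) * e + δ * β * η ^ 2) :=
      mul_le_mul_of_nonneg_left (by linarith) hT0.le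
    linarith
  have hU : T * ((β - 1 + r ^ 2) * e + δ * β * η ^ 2) ≤ (β + β * (C1 * C2)) * (T ^ 2 * e) := by
    have h1 : (β - 1 + r ^ 2) * e ≤ β * T * e := mul_le_mul_of_nonneg_right hup he.le
    have h2 : δ * β * η ^ 2 ≤ β * (C1 * C2) * (T * e) := by
      have h3 : δ * β ≤ β := by nlinarith
      have h4 : δ * β * η ^ 2 ≤ β * ((C1 * C2) * e) :=
        mul_le_mul h3 hηe hη2 hβ0.le
      have h5 : 1 * e ≤ T * e := mul_le_mul_of_nonneg_right hT1 he.le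
      have h6 : β * (C1 * C2) * (1 * e) ≤ β * (C1 * C2) * (T * e) :=
        mul_le_mul_of_nonneg_left h5 (by positivity)
      linarith
    have h3 : T * ((β - 1 + r ^ 2) * e + δ * β * η ^ 2) ≤ T * (β * T * e + β * (C1 * C2) * (T * e)) :=
      mul_le_mul_of_nonneg_left (by linarith) hT0.le
    linarith
  rw [hjj]
  have hinner : 0 < T * ((β - 1 + r ^ 2) * e + δ * β * η ^ 2) :=
    lt_of_lt_of_le (mul_pos ha0 hTe) hL
  refine ⟨hTe, mul_pos hβm hinner, ?_, ?_⟩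
  · refine le_trans ?_ (mul_le_mul_of_nonneg_right (le_max_left _ _) (mul_pos hβm hinner).le)
    rw [← div_eq_inv_mul, le_div_iff₀ (by positivity)]
    have := mul_le_mul_of_nonneg_left hL hβm.le
    linarith
  · refine le_trans ?_ (mul_le_mul_of_nonneg_right (le_max_right _ _) hTe.le)
    have := mul_le_mul_of_nonneg_left hU hβm.le
    linarith

/-- algebra for `R1` -/
lemma R1_eq {m : ℕ} {δ κ β p q ε : ℝ} (hδ : 0 < δ) (hε : 0 < ε) (hβ : 1 < β)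
    (hβε : β * ε = q + m - 2) (hβε' : (β - 1) * ε = q - p) {z : ℝ × EE m}
    (hz : z.1 ∈ Ioo (-1 : ℝ) 1) :
    R1 δ κ β (δ ^ (-1 / ε)) p q z = (β - 1) ^ (-p) * (Yf δ κ z.1 ^ ε *
      (tau z.2 ^ (-2 * p - (q + m - 2)) * (‖V1 δ z‖ ^ (q - (m + 2)) *
        ‖V2 δ κ β z‖ ^ (p + (m + 2))))) * (‖V2 δ κ β z‖⁻¹) ^ (m + 2) := by
  have hc : 0 < δ ^ (-1 / ε) := Real.rpow_pos_of_pos hδ _
  have hV := norm_V2_pos (δ := δ) (κ := κ) hβ z
  have hV1 := norm_V1_pos (δ := δ) z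
  have hX := xx_pos (κ := κ) (β := β) hδ hc hz
  have hXe := xx_eq (κ := κ) hδ hβ hc hz
  have hτ := tau_pos z.2
  have hβ1 : 0 < β - 1 := by linarith
  have hY : 0 < Yf δ κ z.1 := by linarith [Yf_ge_one (κ := κ) hδ hz]
  unfold R1
  set X := xx δ κ β (δ ^ (-1 / ε)) z
  set A := ‖V1 δ z‖
  set B := ‖V2 δ κ β z‖
  set τ := tau z.2
  set Y := Yf δ κ z.1
  have e1 : (X * A) ^ q = X ^ q * A ^ q := Real.mul_rpow hX.le hV1.le
  have e2 : (B⁻¹ * ((β - 1) * τ ^ 2 * X)) ^ (-p) =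
      B ^ p * ((β - 1) ^ (-p) * (τ ^ (-2 * p)) * X ^ (-p)) := by
    rw [Real.mul_rpow (by positivity) (by positivity), Real.mul_rpow (by positivity) hX.le,
      Real.mul_rpow hβ1.le (by positivity), Real.inv_rpow hV.le, Real.rpow_neg hV.le, inv_inv]
    have : (τ ^ 2) ^ (-p) = τ ^ (-2 * p) := by
      rw [← Real.rpow_natCast, ← Real.rpow_mul hτ.le]
      congr 1
      push_cast; ring
    rw [this]
  have e3 : (A⁻¹) ^ (m + 2) = A ^ (-((m : ℝ) + 2)) := by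
    rw [Real.rpow_neg hV1.le, inv_pow]
    congr 1
    rw [← Real.rpow_natCast]
    push_cast
    rfl
  have e4 : A ^ (-((m : ℝ) + 2)) * A ^ q = A ^ (q - (m + 2)) := by
    rw [← Real.rpow_add hV1]
    congr 1
    ring
  have e5 : X ^ q * X ^ (-p) = X ^ (q - p) := by
    rw [← Real.rpow_add hX]
    congr 1
  have e6 : X ^ (q - p) = δ⁻¹ * Y ^ ε * τ ^ (-(q + m - 2)) := by
    rw [← hβε', Real.rpow_mul hX.le]
    have h1 : X ^ (β - 1) = δ ^ (-1 / ε) * Y * τ ^ (-β) := by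
      rw [← hXe, Real.rpow_neg hτ.le]
      field_simp
    rw [h1, Real.mul_rpow (by positivity) (by positivity), Real.mul_rpow (by positivity) hY.le,
      ← Real.rpow_mul hδ.le, ← Real.rpow_mul hτ.le]
    have h2 : -1 / ε * ε = -1 := by field_simp
    have h3 : -β * ε = -(q + m - 2) := by rw [← hβε]; ring
    rw [h2, h3, Real.rpow_neg_one]
  have e7 : B ^ (p + (m + 2)) * (B⁻¹) ^ (m + 2) = B ^ p := by
    have : (B⁻¹) ^ (m + 2) = B ^ (-((m : ℝ) + 2)) := by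
      rw [Real.rpow_neg hV.le, inv_pow]
      congr 1
      rw [← Real.rpow_natCast]
      push_cast
      rfl
    rw [this, ← Real.rpow_add hV]
    congr 1
    ring
  have e8 : τ ^ (-2 * p - (q + m - 2)) = τ ^ (-2 * p) * τ ^ (-(q + m - 2)) := by
    rw [← Real.rpow_add hτ]
    congr 1
  calc δ * A⁻¹ ^ (m + 2) * (X * A) ^ q * (B⁻¹ * ((β - 1) * τ ^ 2 * X)) ^ (-p)
      = δ * (X ^ q * X ^ (-p)) * (A ^ (-((m : ℝ) + 2)) * A ^ q) * B ^ p *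
          ((β - 1) ^ (-p) * (τ ^ (-2 * p))) := by rw [e1, e2, e3]; ring
    _ = δ * (δ⁻¹ * Y ^ ε * τ ^ (-(q + m - 2))) * A ^ (q - (m + 2)) * B ^ p *
          ((β - 1) ^ (-p) * (τ ^ (-2 * p))) := by rw [e5, e6, e4]
    _ = (δ * δ⁻¹) * ((β - 1) ^ (-p) * (Y ^ ε * ((τ ^ (-2 * p) * τ ^ (-(q + m - 2))) *
          (A ^ (q - (m + 2)) * B ^ p)))) := by ring
    _ = _ := by rw [mul_inv_cancel₀ hδ.ne', one_mul, ← e7, e8]; ring

/-- comparison of the two densities -/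
lemma compare (m : ℕ) {p q : ℝ} (hmp : 2 < (m : ℝ) + p)
    (hpq : p < q) {κ β ε : ℝ} (hκ : κ = (m + p) / (m + p + 1)) (hε : ε = m - 2 + p)
    (hβ : β = (q + m - 2) / ε) :
    ∃ lam : ℝ, 1 < lam ∧ ∀ δ : ℝ, 0 < δ → δ ≤ 1 / 4 → ∀ z : ℝ × EE m, z.1 ∈ Ioo (-1 : ℝ) 1 →
      R1 δ κ β (δ ^ (-1 / ε)) p q z ≤ lam * R2 δ κ β z ∧
        R2 δ κ β z ≤ lam * R1 δ κ β (δ ^ (-1 / ε)) p q z := by
  have hε0 : 0 < ε := by rw [hε]; linarith
  have hm0 : (0 : ℝ) ≤ m := Nat.cast_nonneg m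
  have hβε : β * ε = q + m - 2 := by rw [hβ]; field_simp
  have hβ1 : 1 < β := by
    rw [hβ, lt_div_iff₀ hε0, hε]
    linarith
  have hβε' : (β - 1) * ε = q - p := by
    rw [sub_mul, hβε, hε]; ring
  have hκ0 : 0 < κ := by rw [hκ]; exact div_pos (by linarith) (by linarith)
  have hκ1 : κ < 1 := by rw [hκ, div_lt_one (by linarith)]; linarith
  have hκ' : κ = ((p + (m + 2)) - 2) / ((p + (m + 2)) - 1) := by
    rw [hκ]; congr 1 <;> ring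
  obtain ⟨CA, hCA⟩ := pieceA (m := m) hβ1
  obtain ⟨CC, hCC⟩ := pieceC (N := p + (m + 2)) (by linarith) hκ'
  obtain ⟨CD, hCD⟩ := pieceD m hκ0 hκ1 hβ1
  set N : ℝ := p + (m + 2) with hN
  set C : ℝ := (max ((β - 1) ^ (-p)) ((β - 1) ^ (-p))⁻¹) * (2 ^ |ε| * (1 * (2 ^ |q - (m + 2)| *
    CA ^ |N|))) * (1 * (CC * CD)) with hC
  refine ⟨max C 2, lt_of_lt_of_le (by norm_num) (le_max_right _ _), fun δ hδ hδ1 z hz => ?_⟩
  have hτ := tau_pos z.2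
  have hV := norm_V2_pos (δ := δ) (κ := κ) hβ1 z
  have h1 := (pieceE hδ hδ1 hκ0 hκ1 hz).rpow ε
  rw [Real.one_rpow] at h1
  have h2 := (pieceB hδ hδ1 hz).rpow (q - (m + 2))
  have h3 := (hCA δ κ hδ hδ1 z hz).rpow N
  have h4 := Cmp.const (Real.rpow_pos_of_pos (show 0 < β - 1 by linarith) (-p))
  have hτpow : 0 < tau z.2 ^ (-2 * p - (q + m - 2)) := Real.rpow_pos_of_pos hτ _
  have h5 := h4.mul (h1.mul ((Cmp.refl hτpow).mul (h2.mul h3)))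
  set g := Real.sqrt (1 + eta δ κ z.1 ^ 2) with hg
  have hg0 : 0 < g := Real.sqrt_pos.2 (by positivity)
  have e1 : 1 * (1 * (tau z.2 ^ (-2 * p - (q + m - 2)) * (tau z.2 ^ (q - (m + 2)) *
      (tau z.2 ^ 2 * g) ^ N))) = tau z.2 ^ (4 : ℝ) * g ^ N := by
    rw [Real.mul_rpow (by positivity) hg0.le]
    have e2 : (tau z.2 ^ 2) ^ N = tau z.2 ^ (2 * N) := by
      rw [← Real.rpow_natCast, ← Real.rpow_mul hτ.le]
      norm_cast
    rw [e2]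
    have e3 : tau z.2 ^ (-2 * p - (q + m - 2)) * tau z.2 ^ (q - (m + 2)) * tau z.2 ^ (2 * N) =
        tau z.2 ^ (4 : ℝ) := by
      rw [← Real.rpow_add hτ, ← Real.rpow_add hτ]
      congr 1
      rw [hN]; ring
    rw [← e3]; ring
  rw [e1] at h5
  have hτ4 : 0 < tau z.2 ^ (4 : ℝ) := Real.rpow_pos_of_pos hτ _
  have h6 := (Cmp.refl hτ4).mul (hCC δ hδ hδ1 z.1 hz)
  have h7 := hCD δ hδ hδ1 z hz
  have h8 := h5.trans (h6.trans h7)
  have hpw : 0 < (‖V2 δ κ β z‖⁻¹) ^ (m + 2) := by positivity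
  have h9 := h8.mul (Cmp.refl hpw)
  have hR1 := R1_eq (κ := κ) hδ hε0 hβ1 hβε hβε' hz
  rw [← hR1] at h9
  have h10 : Cmp (max C 2) (R1 δ κ β (δ ^ (-1 / ε)) p q z) (R2 δ κ β z) := by
    refine h9.mono ?_
    refine le_trans (le_of_eq ?_) (le_max_left _ _)
    rw [hC]; ring
  exact ⟨h10.2.2.1, h10.2.2.2⟩

end

end Pool.Agent.K6.helper20.DM
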