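import Pool.Agent.K6.helper20.DM.K

set_option autoImplicit false

open Set MeasureTheory Metric Filter Topology
open scoped ENNReal RealInnerProductSpace

namespace Pool.Agent.K6.helper20.DM

/-- a lower bound for the support function of the bodies -/
lemma supp_large {m : ℕ} {δ κ β q p ε : ℝ} (hδ : 0 < δ) (hκ0 : 0 < κ) (hκ1 : κ < 1) (hβ : 1 < β)
    (hε : 0 < ε) (hβε' : (β - 1) * ε = q - p) :
    ∃ u : sphere (0 : EE (m + 2)) 1,
      δ ^ (-1 / (q - p)) ≤ supp (KK m δ κ β (δ ^ (-1 / ε))) u.1 := by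
  have hc : 0 < δ ^ (-1 / ε) := Real.rpow_pos_of_pos hδ _
  set z : ℝ × EE m := (0, 0) with hz0
  have hz : z.1 ∈ Ioo (-1 : ℝ) 1 := ⟨by norm_num [hz0], by norm_num [hz0]⟩
  have hβ1 : 0 < β - 1 := by linarith
  have hmem := X_mem (κ := κ) hδ hκ0 hβ hc hz
  set X := xx δ κ β (δ ^ (-1 / ε)) z with hX
  set e0 : EE (m + 2) := mk (1, 0) 0 with he0
  have hn : ‖e0‖ = 1 := by
    have h : ‖e0‖ ^ 2 = 1 := by rw [he0, mk_normSq]; simp
    rw [← sq_eq_sq₀ (norm_nonneg _) zero_le_one, h]; norm_num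
  refine ⟨⟨e0, by rw [mem_sphere_zero_iff_norm, hn]⟩, ?_⟩
  have hbdd : BddAbove ((fun x => ⟪e0, x⟫) '' (KK m δ κ β (δ ^ (-1 / ε)))) := by
    have hK := KK_isCompact (m := m) hδ hκ0 hκ1 hβ hc
    exact (hK.image (by fun_prop)).bddAbove
  have h1 : ⟪e0, X • V1 δ z⟫ ≤ supp (KK m δ κ β (δ ^ (-1 / ε))) e0 :=
    le_csSup hbdd ⟨_, hmem, rfl⟩
  refine le_trans ?_ h1
  have h2 : ⟪e0, X • V1 δ z⟫ = X := by
    rw [real_inner_smul_right, he0, V1, mk_inner]
    simp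
  rw [h2, hX, xx]
  have hτ : tau z.2 = 1 := by simp [tau, hz0]
  have hY := Yf_ge_one (κ := κ) hδ hz
  rw [hτ, Real.one_rpow, div_one]
  have h3 : δ ^ (-1 / (q - p)) = (δ ^ (-1 / ε)) ^ (1 / (β - 1)) := by
    rw [← Real.rpow_mul hδ.le]
    congr 1
    rw [← hβε']
    field_simp
  rw [h3]
  apply Real.rpow_le_rpow hc.le _ (by positivity)
  nlinarith

/-- General form: for all `n`, `p < 1`, `q > max(p, 0)` with `n + p > 4` the `C^0` estimate fails. -/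
theorem estimate_fails_general (n : ℕ) (p q : ℝ) (hp1 : p < 1) (hnp : 4 < (n : ℝ) + p)
    (hq0 : 0 < q) (hpq : p < q) :
    ∃ lam : ℝ, 1 < lam ∧ ∀ C : ℝ, ∃ K : Set (EE n), IsBody K ∧ TwoSided lam p q K ∧
      ∃ u : sphere (0 : EE n) 1, C < supp K u.1 := by
  have hn3 : (3 : ℝ) < n := by linarith
  have hn : 3 < n := by exact_mod_cast hn3
  obtain ⟨m, rfl⟩ : ∃ m, n = m + 2 := ⟨n - 2, by omega⟩
  have hm : 0 < m := by omega
  push_cast at hnp hn3
  set ε : ℝ := m - 2 + p with hε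
  set κ : ℝ := (m + p) / (m + p + 1) with hκ
  set β : ℝ := (q + m - 2) / ε with hβ
  have hm1 : (1 : ℝ) < m := by linarith
  have hε0 : 0 < ε := by rw [hε]; linarith
  have hβε : β * ε = q + m - 2 := by rw [hβ]; field_simp
  have hβ1 : 1 < β := by
    rw [hβ, lt_div_iff₀ hε0, hε]
    linarith
  have hβε' : (β - 1) * ε = q - p := by
    rw [sub_mul, hβε, hε]; ring
  have hκ0 : 0 < κ := by rw [hκ]; exact div_pos (by linarith) (by linarith)
  have hκ1 : κ < 1 := by rw [hκ, div_lt_one (by linarith)]; linarith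
  have hqp : 0 < q - p := by linarith
  obtain ⟨lam, hlam, hcmp⟩ := compare m (by linarith) hpq hκ hε hβ
  refine ⟨lam, hlam, fun C => ?_⟩
  set B : ℝ := |C| + 2 with hB
  have hB1 : 1 < B := by rw [hB]; have := abs_nonneg C; linarith
  set δ : ℝ := min (1 / 4) (B ^ (-(q - p))) with hδd
  have hδ : 0 < δ := lt_min (by norm_num) (Real.rpow_pos_of_pos (by linarith) _)
  have hδ1 : δ ≤ 1 / 4 := min_le_left _ _
  have hc : 0 < δ ^ (-1 / ε) := Real.rpow_pos_of_pos hδ _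
  refine ⟨KK m δ κ β (δ ^ (-1 / ε)), KK_isBody hδ hκ0 hκ1 hβ1 hc,
    twoSided_of_compare hm hδ hκ0 hκ1 hβ1 hc hq0 hlam (fun z hz => hcmp δ hδ hδ1 z hz), ?_⟩
  obtain ⟨u, hu⟩ := supp_large (m := m) hδ hκ0 hκ1 hβ1 hε0 hβε'
  refine ⟨u, lt_of_lt_of_le ?_ hu⟩
  have h1 : B ≤ δ ^ (-1 / (q - p)) := by
    have h2 : δ ≤ B ^ (-(q - p)) := min_le_right _ _
    have h3 : (B ^ (-(q - p))) ^ (-1 / (q - p)) ≤ δ ^ (-1 / (q - p)) := by
      apply Real.rpow_le_rpow_of_nonpos hδ h2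
      exact div_nonpos_of_nonpos_of_nonneg (by norm_num) hqp.le
    rw [← Real.rpow_mul (by linarith)] at h3
    have h4 : -(q - p) * (-1 / (q - p)) = 1 := by field_simp
    rwa [h4, Real.rpow_one] at h3
  have h5 := le_abs_self C
  linarith

end Pool.Agent.K6.helper20.DM
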